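import Mathlib
import Pool.Agent.W292.FM.Cyclo

/-!
# The field `ℚ_p(ζ)`, `ζ` a primitive `p`-th root of unity
-/

set_option autoImplicit false
set_option linter.unusedSectionVars false

namespace Pool.Agent.K9h38.RP

open Polynomial Pool.Agent.W292.FM

variable {p : ℕ} [hp : Fact p.Prime] {ζ : PadicAlgCl p} (hζ : IsPrimitiveRoot ζ p)

include hζ

lemma prim' : IsPrimitiveRoot ζ (p ^ (0 + 1)) := by simpa using hζ

lemma tot : Nat.totient (p ^ (0 + 1)) = p - 1 := by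
  rw [zero_add, pow_one, Nat.totient_prime hp.out]

/-- `‖ζ - 1‖ ^ (p - 1) = 1 / p` -/
lemma pi_pow : ‖ζ - 1‖ ^ (p - 1) = (p : ℝ)⁻¹ := by
  have h := norm_sub_one_pow_totient (prim' hζ)
  rwa [tot hζ] at h

lemma pi_pos : 0 < ‖ζ - 1‖ := by
  rw [norm_pos_iff, sub_ne_zero]
  exact hζ.ne_one hp.out.one_lt

lemma pi_lt : ‖ζ - 1‖ < 1 := by
  by_contra h
  push Not at h
  have h1 := one_le_pow₀ h (n := p - 1)
  rw [pi_pow hζ] at h1
  have h2 : (p : ℝ)⁻¹ < 1 := inv_lt_one_of_one_lt₀ (by exact_mod_cast hp.out.one_lt)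
  linarith

/-- Expansion in powers of `ζ - 1`. -/
theorem expand {y : PadicAlgCl p} (hy : y ∈ Algebra.adjoin ℚ_[p] {ζ}) :
    ∃ a : ℕ → ℚ_[p], y = ∑ i ∈ Finset.range (p - 1),
      algebraMap ℚ_[p] (PadicAlgCl p) (a i) * (ζ - 1) ^ i := by
  rw [Algebra.adjoin_singleton_eq_range_aeval] at hy
  obtain ⟨P, rfl⟩ := hy
  have he0 : 0 < p - 1 := by have := hp.out.two_le; omega
  set M : ℚ_[p][X] := (cyclotomic p ℚ_[p]).comp (X + 1) with hM
  have hX1 : (X + 1 : ℚ_[p][X]) = X + C 1 := by simp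
  have hMm : M.Monic := by
    rw [hM, hX1]
    exact (cyclotomic.monic _ _).comp (monic_X_add_C 1) (by rw [natDegree_X_add_C]; exact one_ne_zero)
  have hMd : M.natDegree = p - 1 := by
    rw [hM, natDegree_comp, hX1, natDegree_X_add_C, mul_one, natDegree_cyclotomic,
      Nat.totient_prime hp.out]
  have hM0 : aeval (ζ - 1) M = 0 := by
    rw [hM, aeval_comp]
    simp only [map_add, aeval_X, map_one, sub_add_cancel]
    have h1 := hζ.isRoot_cyclotomic hp.out.pos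
    rw [IsRoot.def, ← map_cyclotomic p (algebraMap ℚ_[p] (PadicAlgCl p)),
      eval_map_algebraMap] at h1
    exact h1
  set Q : ℚ_[p][X] := P.comp (X + 1) with hQ
  have hQy : aeval (ζ - 1) Q = aeval ζ P := by
    rw [hQ, aeval_comp]
    simp
  have hR : aeval (ζ - 1) (Q %ₘ M) = aeval ζ P := by
    rw [← hQy]
    conv_rhs => rw [← modByMonic_add_div Q M]
    rw [map_add, map_mul, hM0, zero_mul, add_zero]
  have hlt : (Q %ₘ M).natDegree < p - 1 := by
    rw [← hMd]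
    refine natDegree_modByMonic_lt Q hMm ?_
    intro h1
    rw [h1, natDegree_one] at hMd
    omega
  refine ⟨fun i => (Q %ₘ M).coeff i, ?_⟩
  change aeval ζ P = _
  rw [← hR, aeval_eq_sum_range' hlt]
  refine Finset.sum_congr rfl fun i _ => ?_
  rw [Algebra.smul_def]

/-- the elements fixed by the automorphisms which fix `ζ` -/
lemma mem_adjoin {z : PadicAlgCl p}
    (h : ∀ τ : PadicAlgCl p ≃ₐ[ℚ_[p]] PadicAlgCl p, τ ζ = ζ → τ z = z) :
    z ∈ Algebra.adjoin ℚ_[p] {ζ} := by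
  have : IsGalois ℚ_[p] (PadicAlgCl p) :=
    inferInstanceAs (IsGalois ℚ_[p] (AlgebraicClosure ℚ_[p]))
  have hint : IsIntegral ℚ_[p] ζ := ⟨X ^ p - 1, monic_X_pow_sub_C 1 hp.out.ne_zero, by
    simp [hζ.pow_eq_one]⟩
  have h1 : z ∈ IntermediateField.adjoin ℚ_[p] {ζ} := by
    rw [← InfiniteGalois.fixedField_fixingSubgroup (IntermediateField.adjoin ℚ_[p] {ζ}),
      IntermediateField.mem_fixedField_iff]
    intro τ hτ
    exact h τ ((IntermediateField.mem_fixingSubgroup_iff _ _).1 hτ ζ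
      (IntermediateField.mem_adjoin_simple_self _ _))
  have h2 := IntermediateField.adjoin_simple_toSubalgebra_of_isAlgebraic hint.isAlgebraic
  rw [← h2]
  exact h1

/-- the value group and the residue field of `ℚ_p(ζ)` -/
theorem val_res {z : PadicAlgCl p}
    (h : ∀ τ : PadicAlgCl p ≃ₐ[ℚ_[p]] PadicAlgCl p, τ ζ = ζ → τ z = z) :
    (z ≠ 0 → ∃ m : ℤ, ‖z‖ = ‖ζ - 1‖ ^ m) ∧ (‖z‖ ≤ 1 → ∃ n : ℤ, ‖z - n‖ ≤ ‖ζ - 1‖) := by
  have hp1 : (1 : ℝ) < p := by exact_mod_cast hp.out.one_lt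
  have hp0 : (0 : ℝ) < p := by linarith
  have hc0 := pi_pos hζ
  have hc1 := pi_lt hζ
  have hcp := pi_pow hζ
  have hpe : 0 < p - 1 := by have := hp.out.two_le; omega
  obtain ⟨a, ha⟩ := expand hζ (mem_adjoin hζ h)
  have hle : ∀ i < p - 1, ‖algebraMap ℚ_[p] (PadicAlgCl p) (a i) * (ζ - 1) ^ i‖ ≤ ‖z‖ := by
    intro i hi
    have := norm_term_le (prim' hζ) a (i := i) (by rw [tot hζ]; exact hi)
    rw [tot hζ, ← ha] at this
    exact this
  have hnorm : ∀ i, ‖algebraMap ℚ_[p] (PadicAlgCl p) (a i) * (ζ - 1) ^ i‖ =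
      ‖a i‖ * ‖ζ - 1‖ ^ i := by
    intro i
    rw [norm_mul, norm_pow]
    congr 1
    exact PadicAlgCl.norm_extends p (a i)
  constructor
  · intro hz
    obtain ⟨i, hi, hmax⟩ := IsUltrametricDist.exists_norm_finsetSum_le_of_nonempty
      (Finset.nonempty_range_iff.2 hpe.ne')
      (fun i => algebraMap ℚ_[p] (PadicAlgCl p) (a i) * (ζ - 1) ^ i)
    rw [← ha] at hmax
    have heq := le_antisymm hmax (hle i (Finset.mem_range.1 hi))
    have hai : a i ≠ 0 := by
      intro h1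
      rw [h1, map_zero, zero_mul, norm_zero] at heq
      exact hz (norm_eq_zero.1 heq)
    refine ⟨(a i).valuation * (p - 1 : ℕ) + i, ?_⟩
    rw [heq, hnorm, Padic.norm_eq_zpow_neg_valuation hai, zpow_add₀ hc0.ne', zpow_natCast,
      mul_comm (a i).valuation, zpow_mul, zpow_natCast, hcp, inv_zpow']
  · intro hz
    have h0 : ‖a 0‖ ≤ 1 := by
      have := (hle 0 hpe).trans hz
      rwa [hnorm, pow_zero, mul_one] at this
    -- the other terms
    have hi : ∀ i < p - 1, i ≠ 0 → ‖algebraMap ℚ_[p] (PadicAlgCl p) (a i) * (ζ - 1) ^ i‖ ≤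
        ‖ζ - 1‖ := by
      intro i hi hi0
      have h1 := (hle i hi).trans hz
      rw [hnorm] at h1 ⊢
      have h2 : ‖a i‖ ≤ 1 := by
        by_contra hcon
        push Not at hcon
        have hai : a i ≠ 0 := by
          intro h3
          rw [h3, norm_zero] at hcon
          linarith
        rw [Padic.norm_eq_zpow_neg_valuation hai] at hcon h1
        have h3 : 0 < -(a i).valuation := by
          by_contra h4
          push Not at h4
          have := zpow_le_one_of_nonpos₀ hp1.le h4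
          linarith
        have h4 : (p : ℝ) ^ (1 : ℤ) ≤ (p : ℝ) ^ (-(a i).valuation) :=
          zpow_le_zpow_right₀ hp1.le (by omega)
        rw [zpow_one] at h4
        have h5 : ‖ζ - 1‖ ^ (p - 1) < ‖ζ - 1‖ ^ i := pow_lt_pow_right_of_lt_one₀ hc0 hc1 hi
        rw [hcp] at h5
        have h6 : (p : ℝ) * (p : ℝ)⁻¹ < (p : ℝ) ^ (-(a i).valuation) * ‖ζ - 1‖ ^ i :=
          mul_lt_mul' h4 h5 (by positivity) (lt_of_lt_of_le hp0 h4)
        rw [mul_inv_cancel₀ hp0.ne'] at h6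
        linarith
      calc ‖a i‖ * ‖ζ - 1‖ ^ i ≤ 1 * ‖ζ - 1‖ ^ i :=
            mul_le_mul_of_nonneg_right h2 (pow_nonneg hc0.le _)
        _ = ‖ζ - 1‖ ^ i := one_mul _
        _ ≤ ‖ζ - 1‖ ^ 1 := pow_le_pow_of_le_one hc0.le hc1.le (by omega)
        _ = ‖ζ - 1‖ := pow_one _
    let y' : ℤ_[p] := ⟨a 0, h0⟩
    refine ⟨(y'.zmodRepr : ℕ), ?_⟩
    have h2 : ‖y' - (y'.zmodRepr : ℤ_[p])‖ < 1 := PadicInt.norm_sub_zmodRepr_lt_one y'
    have h3 : ‖a 0 - (y'.zmodRepr : ℚ_[p])‖ < 1 := by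
      have e : ((y' - (y'.zmodRepr : ℤ_[p]) : ℤ_[p]) : ℚ_[p]) = a 0 - (y'.zmodRepr : ℚ_[p]) := by
        push_cast
        rfl
      rw [← e]
      exact h2
    have h4 : ‖a 0 - (y'.zmodRepr : ℚ_[p])‖ ≤ ‖ζ - 1‖ := by
      have h5 : ‖a 0 - (y'.zmodRepr : ℚ_[p])‖ ≤ (p : ℝ)⁻¹ := by
        by_cases hd : a 0 - (y'.zmodRepr : ℚ_[p]) = 0
        · rw [hd, norm_zero]
          positivity
        · rw [Padic.norm_eq_zpow_neg_valuation hd] at h3 ⊢
          have h6 : -(a 0 - (y'.zmodRepr : ℚ_[p])).valuation < 0 := by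
            by_contra h7
            push Not at h7
            have := one_le_zpow₀ hp1.le h7
            linarith
          rw [← zpow_neg_one]
          exact zpow_le_zpow_right₀ hp1.le (by omega)
      refine h5.trans ?_
      rw [← hcp]
      calc ‖ζ - 1‖ ^ (p - 1) ≤ ‖ζ - 1‖ ^ 1 := pow_le_pow_of_le_one hc0.le hc1.le hpe
        _ = ‖ζ - 1‖ := pow_one _
    have h5 : z - ((y'.zmodRepr : ℕ) : ℤ) =
        algebraMap ℚ_[p] (PadicAlgCl p) (a 0 - (y'.zmodRepr : ℚ_[p])) +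
          ∑ i ∈ (Finset.range (p - 1)).erase 0,
            algebraMap ℚ_[p] (PadicAlgCl p) (a i) * (ζ - 1) ^ i := by
      rw [ha, ← Finset.add_sum_erase _ _ (Finset.mem_range.2 hpe), pow_zero, mul_one, map_sub,
        map_natCast]
      push_cast
      ring
    rw [h5]
    refine (IsUltrametricDist.norm_add_le_max _ _).trans (max_le ?_ ?_)
    · exact (PadicAlgCl.norm_extends p _).trans_le h4
    · refine IsUltrametricDist.norm_sum_le_of_forall_le_of_nonneg hc0.le fun i hi' => ?_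
      exact hi i (Finset.mem_range.1 (Finset.mem_of_mem_erase hi')) (Finset.ne_of_mem_erase hi')

/-- the cyclotomic polynomial is irreducible over `ℚ_p` -/
theorem exists_aut {μ : PadicAlgCl p} (hμ : IsPrimitiveRoot μ p) :
    ∃ τ : PadicAlgCl p ≃ₐ[ℚ_[p]] PadicAlgCl p, τ ζ = μ := by
  have : IsGalois ℚ_[p] (PadicAlgCl p) :=
    inferInstanceAs (IsGalois ℚ_[p] (AlgebraicClosure ℚ_[p]))
  have hc0 := pi_pos hζ
  have hint : IsIntegral ℚ_[p] ζ := ⟨X ^ p - 1, monic_X_pow_sub_C 1 hp.out.ne_zero, by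
    simp [hζ.pow_eq_one]⟩
  have hpe : 0 < p - 1 := by have := hp.out.two_le; omega
  have hroot : ∀ {w : PadicAlgCl p}, IsPrimitiveRoot w p → aeval w (cyclotomic p ℚ_[p]) = 0 := by
    intro w hw
    have h1 := hw.isRoot_cyclotomic hp.out.pos
    rw [IsRoot.def, ← map_cyclotomic p (algebraMap ℚ_[p] (PadicAlgCl p)),
      eval_map_algebraMap] at h1
    exact h1
  have hdvd : minpoly ℚ_[p] ζ ∣ cyclotomic p ℚ_[p] := minpoly.dvd _ _ (hroot hζ)
  -- the degree of the minimal polynomial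
  have hdeg : p - 1 ≤ (minpoly ℚ_[p] ζ).natDegree := by
    by_contra hlt
    push Not at hlt
    set P := (minpoly ℚ_[p] ζ).comp (X + 1) with hP
    have hX1 : (X + 1 : ℚ_[p][X]) = X + C 1 := by simp
    have hPm : P.Monic := by
      rw [hP, hX1]
      exact (minpoly.monic hint).comp (monic_X_add_C 1) (by rw [natDegree_X_add_C]; exact one_ne_zero)
    have hPd : P.natDegree = (minpoly ℚ_[p] ζ).natDegree := by
      rw [hP, natDegree_comp, hX1, natDegree_X_add_C, mul_one]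
    have hP0 : aeval (ζ - 1) P = 0 := by
      rw [hP, aeval_comp]
      simp
    have h1 : ∑ i ∈ Finset.range (p - 1),
        algebraMap ℚ_[p] (PadicAlgCl p) (P.coeff i) * (ζ - 1) ^ i = 0 := by
      rw [← hP0, aeval_eq_sum_range' (n := p - 1) (by rw [hPd]; exact hlt)]
      refine Finset.sum_congr rfl fun i _ => ?_
      rw [Algebra.smul_def]
    have h2 := norm_term_le (prim' hζ) (fun i => P.coeff i) (i := P.natDegree)
      (by rw [tot hζ, hPd]; exact hlt)
    rw [tot hζ, h1, norm_zero, hPm.coeff_natDegree, map_one, one_mul, norm_pow] at h2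
    have := pow_pos hc0 P.natDegree
    linarith
  have heq : minpoly ℚ_[p] ζ = cyclotomic p ℚ_[p] := by
    symm
    apply eq_of_monic_of_dvd_of_natDegree_le (minpoly.monic hint) (cyclotomic.monic _ _) hdvd
    rw [natDegree_cyclotomic, Nat.totient_prime hp.out]
    exact hdeg
  have hμ0 : aeval μ (minpoly ℚ_[p] ζ) = 0 := by rw [heq]; exact hroot hμ
  obtain ⟨τ, hτ⟩ := (isConjRoot_iff_exists_algEquiv (K := ℚ_[p]) (L := PadicAlgCl p)).1
    (show IsConjRoot ℚ_[p] μ ζ from (isConjRoot_iff_aeval_eq_zero hint).2 hμ0 |>.symm)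
  exact ⟨τ, hτ⟩

end Pool.Agent.K9h38.RP
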