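import Pool.Agent.K9h38.RP.Pr
import Pool.Agent.K9h38.RP.Loc
import Pool.Agent.Y158.KL.Hil7

/-!
# Local `p`-th powers at the prime above `p` of the cyclotomic field
-/

set_option autoImplicit false
set_option linter.unusedSectionVars false

namespace Pool.Agent.K9h38.RP

open NumberField Pool.Agent.Y158.KL Pool.Agent.W292.FM

variable {K : Type} [Field K] [NumberField K] {p : ℕ} [hp : Fact p.Prime]
  [hK : IsCyclotomicExtension {p} ℚ K] {ζ : K} (hζ : IsPrimitiveRoot ζ p)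

include hK in
/-- the prime above `p` -/
lemma pr_eq (φ : K →+* PadicAlgCl p) : pr φ = Ideal.span {hζ.toInteger - 1} := by
  have := lies_of_mem (ell_mem φ)
  exact IsCyclotomicExtension.Rat.eq_span_zeta_sub_one_of_liesOver' p K hζ (pr φ)

lemma ev_pi (φ : K →+* PadicAlgCl p) : ev φ (hζ.toInteger - 1) = φ ζ - 1 := by
  rw [map_sub, map_one, ev_apply]
  rfl

include hζ in
lemma prim_map (φ : K →+* PadicAlgCl p) : IsPrimitiveRoot (φ ζ) p :=
  hζ.map_of_injective φ.injective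

include hK in
lemma pi_pow_dvd (φ : K →+* PadicAlgCl p) (k : ℕ) (x : 𝓞 K) (h : ‖ev φ x‖ ≤ ‖φ ζ - 1‖ ^ k) :
    (hζ.toInteger - 1) ^ k ∣ x := by
  have hc0 := pi_pos (prim_map hζ φ)
  have hc1 := pi_lt (prim_map hζ φ)
  induction k generalizing x with
  | zero => simp
  | succ k ih =>
    have h1 : x ∈ pr φ := by
      rw [mem_pr]
      exact h.trans_lt (pow_lt_one₀ hc0.le hc1 (by omega))
    rw [pr_eq hζ, Ideal.mem_span_singleton] at h1
    obtain ⟨y, rfl⟩ := h1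
    rw [map_mul, norm_mul, ev_pi, pow_succ'] at h
    rw [pow_succ']
    exact mul_dvd_mul_left _ (ih y (le_of_mul_le_mul_left h hc0))

include hK in
/-- **Local `p`-th powers.** -/
theorem loc_pow (φ : K →+* PadicAlgCl p) {x : 𝓞 K} {s : PadicAlgCl p} (hs : s ^ p = ev φ x)
    (hfix : ∀ τ : PadicAlgCl p ≃ₐ[ℚ_[p]] PadicAlgCl p, τ (φ ζ) = φ ζ → τ s = s) :
    ∃ n : ℤ, (hζ.toInteger - 1) ^ p ∣ x - n ^ p := by
  have hpr := prim_map hζ φ
  have hc0 := pi_pos hpr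
  have hs1 : ‖s‖ ≤ 1 := by
    have h1 : ‖s‖ ^ p ≤ 1 := by
      rw [← norm_pow, hs]
      exact emb_le φ x
    by_contra hcon
    push Not at hcon
    exact absurd h1 (not_le.2 (one_lt_pow₀ hcon hp.out.ne_zero))
  obtain ⟨n, hn⟩ := (val_res hpr hfix).2 hs1
  refine ⟨n, pi_pow_dvd hζ φ p _ ?_⟩
  have hnn : ‖(n : PadicAlgCl p)‖ ≤ 1 := by
    have h := PadicAlgCl.norm_extends p (n : ℚ_[p])
    rw [map_intCast] at h
    rw [h]
    exact Padic.norm_int_le_one _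
  have e : ev φ (x - n ^ p) = s ^ p - (n : PadicAlgCl p) ^ p := by
    rw [map_sub, map_pow, map_intCast, hs]
  rw [e, hpr.pow_sub_pow_eq_prod_sub_mul s (n : PadicAlgCl p) hp.out.pos, norm_prod]
  have hle : ∀ μ ∈ Polynomial.nthRootsFinset p (1 : PadicAlgCl p), ‖s - μ * n‖ ≤ ‖φ ζ - 1‖ := by
    intro μ hμ
    have hμ1 : μ ^ p = 1 := (Polynomial.mem_nthRootsFinset hp.out.pos _).1 hμ
    have hμ2 : ‖μ - 1‖ ≤ ‖φ ζ - 1‖ := by
      by_cases h1 : μ = 1
      · rw [h1, sub_self, norm_zero]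
        exact hc0.le
      · have h2 : IsPrimitiveRoot μ p := by
          have h3 := IsPrimitiveRoot.orderOf μ
          rwa [orderOf_eq_prime hμ1 h1] at h3
        exact (norm_sub_one_eq hp.out.ne_zero h2 hpr).le
    have e2 : s - μ * n = (s - n) + -((μ - 1) * n) := by ring
    rw [e2]
    refine (IsUltrametricDist.norm_add_le_max _ _).trans (max_le hn ?_)
    rw [norm_neg, norm_mul]
    exact (mul_le_of_le_one_right (norm_nonneg _) hnn).trans hμ2
  refine (Finset.prod_le_prod (fun _ _ => norm_nonneg _) hle).trans ?_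
  rw [Finset.prod_const, hpr.card_nthRootsFinset]

include hK in
lemma sq_dvd_of {m : ℤ} (h : (hζ.toInteger - 1) ^ p ∣ (m : 𝓞 K)) : (p : ℤ) ^ 2 ∣ m := by
  have hπ := pi_prime (K := K) hζ
  have h1 : (p : ℤ) ∣ m := by
    rw [← pi_dvd_int hζ]
    exact (dvd_pow_self _ hp.out.ne_zero).trans h
  obtain ⟨m', rfl⟩ := h1
  obtain ⟨ε, hε⟩ := IsCyclotomicExtension.Rat.associated_zeta_sub_one_pow_prime p hζ
  have h2 : hζ.toInteger - 1 ∣ (m' : 𝓞 K) := by
    rw [Int.cast_mul, Int.cast_natCast, ← hε] at h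
    have e : (hζ.toInteger - 1) ^ p = (hζ.toInteger - 1) ^ (p - 1) * (hζ.toInteger - 1) := by
      rw [← pow_succ, Nat.sub_add_cancel hp.out.one_le]
    rw [e, mul_assoc] at h
    have h3 := (mul_dvd_mul_iff_left (pow_ne_zero _ hπ.ne_zero)).1 h
    exact (Units.dvd_mul_left).1 h3
  rw [pi_dvd_int hζ] at h2
  obtain ⟨m'', rfl⟩ := h2
  exact ⟨m'', by ring⟩

lemma prod_congr_mod {R ι : Type*} [CommRing R] (s : Finset ι) (a : R) (f g : ι → R)
    (h : ∀ i ∈ s, a ∣ f i - g i) : a ∣ ∏ i ∈ s, f i - ∏ i ∈ s, g i := by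
  rw [← Ideal.mem_span_singleton, ← Ideal.Quotient.eq, map_prod, map_prod]
  refine Finset.prod_congr rfl fun i hi => ?_
  rw [Ideal.Quotient.eq, Ideal.mem_span_singleton]
  exact h i hi

include hK in
/-- **The norm argument.** -/
theorem dvd_exp (hp2 : 2 < p) {q : ℕ} (hqo : orderOf (q : ZMod (p ^ 2)) = p * (p - 1))
    {b : ℕ} {u : (𝓞 K)ˣ} {n : ℤ} (h : (hζ.toInteger - 1) ^ p ∣ (q : 𝓞 K) ^ b * u - n ^ p) :
    p ∣ b := by
  classical
  have hG : IsGalois ℚ K := IsCyclotomicExtension.isGalois {p} ℚ K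
  have hπ := pi_prime (K := K) hζ
  have hprod : ∀ x : 𝓞 K, ∃ N : ℤ, ∏ σ : K ≃ₐ[ℚ] K, galRestrict ℤ ℚ K (𝓞 K) σ x = N := fun x => by
    exact ⟨_, prod_galRestrict_eq_norm ℤ (K := ℚ) (L := K) (B := 𝓞 K) x⟩
  obtain ⟨N, hN⟩ := hprod u
  obtain ⟨N', hN'⟩ := hprod ((u⁻¹ : (𝓞 K)ˣ) : 𝓞 K)
  have hNN : N * N' = 1 := by
    have h1 : ((N * N' : ℤ) : 𝓞 K) = 1 := by
      rw [Int.cast_mul, ← hN, ← hN', ← Finset.prod_mul_distrib]
      apply Finset.prod_eq_one
      intro σ _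
      rw [← map_mul, Units.mul_inv, map_one]
    exact_mod_cast h1
  have hN2 : N ^ 2 = 1 := by
    rcases Int.eq_one_or_neg_one_of_mul_eq_one hNN with h | h <;> rw [h] <;> norm_num
  have hcard : Fintype.card (K ≃ₐ[ℚ] K) = p - 1 := by
    rw [← Nat.card_eq_fintype_card, IsGalois.card_aut_eq_finrank,
      IsCyclotomicExtension.finrank K (Polynomial.cyclotomic.irreducible_rat hp.out.pos),
      Nat.totient_prime hp.out]
  have hσ : ∀ σ : K ≃ₐ[ℚ] K, (hζ.toInteger - 1) ^ p ∣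
      galRestrict ℤ ℚ K (𝓞 K) σ ((q : 𝓞 K) ^ b * u) - galRestrict ℤ ℚ K (𝓞 K) σ ((n : 𝓞 K) ^ p) := by
    intro σ
    obtain ⟨c, hc⟩ := h
    rw [← map_sub, hc, map_mul, map_pow]
    exact (pow_dvd_pow_of_dvd
      (aut_pi hζ (galRestrict ℤ ℚ K (𝓞 K) σ : 𝓞 K →+* 𝓞 K)) p).mul_right _
  have h1 := prod_congr_mod Finset.univ _ _ _ fun σ (_ : σ ∈ Finset.univ) => hσ σ
  simp only [map_mul, map_pow, map_natCast, map_intCast, Finset.prod_mul_distrib, Finset.prod_const,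
    Finset.card_univ, hcard, hN] at h1
  have h2 : (p : ℤ) ^ 2 ∣ ((q : ℤ) ^ b) ^ (p - 1) * N - (n ^ p) ^ (p - 1) := by
    apply sq_dvd_of hζ
    push_cast
    exact h1
  -- `n` is prime to `p`
  have hqp : ¬ p ∣ q := by
    intro hpq
    have h3 : (q : ZMod (p ^ 2)) ^ 2 = 0 := by
      rw [← Nat.cast_pow, ZMod.natCast_eq_zero_iff]
      exact pow_dvd_pow_of_dvd hpq 2
    have h4 := pow_orderOf_eq_one (q : ZMod (p ^ 2))
    have h5 : 2 ≤ p * (p - 1) := by nlinarith [hp2, Nat.sub_add_cancel hp.out.one_le]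
    rw [hqo, ← Nat.sub_add_cancel h5, pow_add, h3, mul_zero] at h4
    have h6 : Fact (1 < p ^ 2) := ⟨by nlinarith⟩
    exact zero_ne_one h4
  have hnp : ¬ (p : ℤ) ∣ n := by
    intro h3
    have h4 : hζ.toInteger - 1 ∣ (q : 𝓞 K) ^ b * u := by
      have h5 : hζ.toInteger - 1 ∣ (n : 𝓞 K) ^ p :=
        dvd_pow ((pi_dvd_int hζ).2 h3) hp.out.ne_zero
      have h6 := (dvd_pow_self _ hp.out.ne_zero).trans h
      have h7 := dvd_add h6 h5
      rwa [sub_add_cancel] at h7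
    have h5 : hζ.toInteger - 1 ∣ ((q ^ b : ℤ) : 𝓞 K) := by
      push_cast
      exact (Units.dvd_mul_right).1 h4
    rw [pi_dvd_int hζ] at h5
    have h6 := (Nat.prime_iff_prime_int.1 hp.out).dvd_of_dvd_pow h5
    exact hqp (by exact_mod_cast h6)
  -- Euler's theorem
  have h3 : ((n : ZMod (p ^ 2))) ^ (p * (p - 1)) = 1 := by
    have hcop : IsCoprime ((p ^ 2 : ℕ) : ℤ) n := by
      push_cast
      exact (((Nat.prime_iff_prime_int.1 hp.out).coprime_iff_not_dvd.2 hnp)).pow_left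
    have hu : IsUnit (n : ZMod (p ^ 2)) := (ZMod.coe_int_isUnit_iff_isCoprime n (p ^ 2)).2 hcop
    obtain ⟨v, hv⟩ := hu
    have h4 := ZMod.pow_totient v
    rw [Nat.totient_prime_pow hp.out (by norm_num)] at h4
    have h5 : (v : ZMod (p ^ 2)) ^ (p ^ (2 - 1) * (p - 1)) = 1 := by
      rw [← Units.val_pow_eq_pow_val, h4, Units.val_one]
    rw [← hv]
    simpa using h5
  have h4 : (q : ZMod (p ^ 2)) ^ (2 * b * (p - 1)) = 1 := by
    have h5 : (((((q : ℤ) ^ b) ^ (p - 1) * N - (n ^ p) ^ (p - 1) : ℤ)) : ZMod (p ^ 2)) = 0 := by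
      rw [ZMod.intCast_zmod_eq_zero_iff_dvd]
      push_cast
      exact h2
    push_cast at h5
    rw [sub_eq_zero] at h5
    have h6 := congrArg (fun z => z ^ 2) h5
    simp only [mul_pow] at h6
    have h7 : ((N : ZMod (p ^ 2))) ^ 2 = 1 := by
      rw [← Int.cast_pow, hN2, Int.cast_one]
    rw [h7, mul_one, ← pow_mul (n : ZMod (p ^ 2)) p, h3, one_pow, ← pow_mul, ← pow_mul] at h6
    rw [← h6]
    congr 1
    ring
  have h5 := orderOf_dvd_of_pow_eq_one h4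
  rw [hqo] at h5
  have h6 : p ∣ 2 * b := by
    have hpos : 0 < p - 1 := by omega
    exact Nat.dvd_of_mul_dvd_mul_right hpos h5
  rcases (Nat.Prime.dvd_mul hp.out).1 h6 with h7 | h7
  · exact absurd (Nat.le_of_dvd (by norm_num) h7) (by omega)
  · exact h7

end Pool.Agent.K9h38.RP
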