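import Pool.Agent.K9h38.RP.GPow

/-!
# Embeddings of number fields into `ℓ`-adic fields and prime ideals
-/

set_option autoImplicit false
set_option linter.unusedSectionVars false

namespace Pool.Agent.K9h38.RP

open NumberField Pool.Agent.Y715.Nr Pool.Agent.W237.RK Pool.Agent.W292.FM IntermediateField

section gal

variable (K : Type) [Field K] [NumberField K]

/-- every number field is contained in a Galois number field -/
lemma exists_galois : ∃ (N : Type) (_ : Field N) (_ : NumberField N) (_ : IsGalois ℚ N),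
    Nonempty (K →+* N) := by
  have halg : Algebra.IsAlgebraic ℚ (AlgebraicClosure K) := Algebra.IsAlgebraic.trans ℚ K _
  have hcl : IsAlgClosure ℚ (AlgebraicClosure K) := ⟨inferInstance, halg⟩
  have hnn : Normal ℚ (AlgebraicClosure K) := IsAlgClosure.normal ℚ (AlgebraicClosure K)
  let N := normalClosure ℚ K (AlgebraicClosure K)
  have hc : CharZero N := inferInstance
  have hfd : @FiniteDimensional ℚ N _ _ (IntermediateField.algebra' N).toModule :=
    normalClosure.is_finiteDimensional ℚ K (AlgebraicClosure K)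
  have hnm : @Normal ℚ N _ _ (IntermediateField.algebra' N) := normalClosure.normal ℚ K (AlgebraicClosure K)
  have e : (IntermediateField.algebra' N : Algebra ℚ N) = DivisionRing.toRatAlgebra :=
    Subsingleton.elim _ _
  rw [e] at hfd hnm
  have hnf : NumberField N := @NumberField.mk N _ hc hfd
  refine ⟨N, inferInstance, hnf, ?_, ⟨algebraMap K N⟩⟩
  exact { }

end gal

section emb

variable {K : Type} [Field K] [NumberField K] {ℓ : ℕ} [hℓ : Fact ℓ.Prime]

/-- **Every prime ideal of a number field is given by an embedding.** -/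
theorem exists_emb_gen {P : Ideal (𝓞 K)} [hP : P.IsPrime] (h : (ℓ : 𝓞 K) ∈ P) :
    ∃ φ : K →+* PadicAlgCl ℓ, pr φ = P := by
  obtain ⟨N, _, _, _, ⟨f⟩⟩ := exists_galois K
  let _ : Algebra K N := f.toAlgebra
  have hPb : P ≠ ⊥ := by
    rintro rfl
    rw [Ideal.mem_bot, Nat.cast_eq_zero] at h
    exact hℓ.out.ne_zero h
  have hPm : P.IsMaximal := hP.isMaximal hPb
  obtain ⟨Q, hQm, hQP⟩ := Ideal.exists_maximal_ideal_liesOver_of_isIntegral (S := 𝓞 N) P
  have hmem : ∀ x : 𝓞 K, x ∈ P ↔ algebraMap (𝓞 K) (𝓞 N) x ∈ Q := fun x => Ideal.mem_of_liesOver Q P x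
  have hQp : Q.IsPrime := hQm.isPrime
  have hℓQ : (ℓ : 𝓞 N) ∈ Q := by
    have := (hmem _).1 h
    rwa [map_natCast] at this
  obtain ⟨φ, hφ⟩ := exists_emb hℓQ
  refine ⟨φ.comp f, ?_⟩
  ext x
  rw [hmem, ← hφ]
  rfl

theorem norm_eq_of_pr {φ ψ : K →+* PadicAlgCl ℓ} (h : pr φ = pr ψ) (a : K) : ‖φ a‖ = ‖ψ a‖ := by
  have hn0 : classNumber K ≠ 0 := classNumber_ne_zero K
  obtain ⟨γ, hγ⟩ := pow_principal (pr φ) (pr_ne_bot φ)
  have hγ' : pr ψ ^ classNumber K = Ideal.span {γ} := by rw [← h, hγ]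
  have hℓ0 : (ℓ : 𝓞 K) ≠ 0 := Nat.cast_ne_zero.2 hℓ.out.ne_zero
  have h1 := norm_pow_od φ hγ hℓ0
  have h2 := norm_pow_od ψ hγ' hℓ0
  rw [map_natCast, norm_ell] at h1 h2
  rw [← h] at h2
  have hod : od (pr φ) (ℓ : 𝓞 K) ≠ 0 := by
    intro h0
    rw [h0, pow_zero] at h1
    have h3 : (ℓ : ℝ)⁻¹ ^ classNumber K < 1 := by
      apply pow_lt_one₀
      · positivity
      · exact inv_lt_one_of_one_lt₀ (by exact_mod_cast hℓ.out.one_lt)
      · exact hn0
    linarith
  have hγe : ‖ev φ γ‖ = ‖ev ψ γ‖ := by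
    refine (pow_left_inj₀ (norm_nonneg _) (norm_nonneg _) hod).1 ?_
    rw [← h1, ← h2]
  have hint : ∀ x : 𝓞 K, ‖ev φ x‖ = ‖ev ψ x‖ := by
    intro x
    by_cases hx : x = 0
    · rw [hx, map_zero, map_zero]
    have h3 := norm_pow_od φ hγ hx
    have h4 := norm_pow_od ψ hγ' hx
    rw [← h] at h4
    refine (pow_left_inj₀ (norm_nonneg _) (norm_nonneg _) hn0).1 ?_
    rw [h3, h4, hγe]
  obtain ⟨x, y, hy, rfl⟩ := IsFractionRing.div_surjective (A := 𝓞 K) a
  rw [map_div₀, map_div₀, norm_div, norm_div]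
  have e1 := hint x
  have e2 := hint y
  rw [ev_apply, ev_apply] at e1 e2
  rw [← e1, ← e2]

/-- **Two embeddings which give the same prime ideal are conjugate.** -/
theorem exists_aut_emb {φ ψ : K →+* PadicAlgCl ℓ} (h : pr φ = pr ψ) :
    ∃ τ : Au ℓ, ∀ x, τ (φ x) = ψ x := by
  have hnorm := norm_eq_of_pr h
  let pb := Field.powerBasisOfFiniteOfSeparable ℚ K
  set θ : K := pb.gen with hθ
  set f := minpoly ℚ_[ℓ] (φ θ) with hf
  have hint : IsIntegral ℚ_[ℓ] (φ θ) := Algebra.IsIntegral.isIntegral _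
  have hroot : Polynomial.aeval (ψ θ) f = 0 := by
    by_contra hne
    have hη : 0 < ‖Polynomial.aeval (ψ θ) f‖ := norm_pos_iff.2 hne
    set η := ‖Polynomial.aeval (ψ θ) f‖ with hηd
    set C : ℝ := max 1 ‖φ θ‖ ^ f.natDegree with hC
    have hC1 : 0 < C := by positivity
    have hr : ∀ i : ℕ, ∃ r : ℚ, ‖f.coeff i - r‖ < η / (2 * C) := fun i =>
      Padic.rat_dense ℓ _ (by positivity)
    choose r hr using hr
    set g : K := ∑ i ∈ Finset.range (f.natDegree + 1), (r i : K) * θ ^ i with hg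
    have key : ∀ χ : K →+* PadicAlgCl ℓ, ‖χ θ‖ = ‖φ θ‖ →
        ‖χ g - Polynomial.aeval (χ θ) f‖ ≤ η / 2 := by
      intro χ hχ
      rw [Polynomial.aeval_eq_sum_range, hg, map_sum, ← Finset.sum_sub_distrib]
      refine IsUltrametricDist.norm_sum_le_of_forall_le_of_nonneg (by positivity) fun i hi => ?_
      rw [map_mul, map_ratCast, map_pow, Algebra.smul_def, ← sub_mul, norm_mul, norm_pow, hχ]
      have e : (r i : PadicAlgCl ℓ) - algebraMap ℚ_[ℓ] (PadicAlgCl ℓ) (f.coeff i) =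
          -algebraMap ℚ_[ℓ] (PadicAlgCl ℓ) (f.coeff i - r i) := by
        rw [map_sub, map_ratCast]
        ring
      have e2 : ‖(r i : PadicAlgCl ℓ) - algebraMap ℚ_[ℓ] (PadicAlgCl ℓ) (f.coeff i)‖ ≤ η / (2 * C) := by
        rw [e, norm_neg]
        exact ((PadicAlgCl.norm_extends ℓ _).trans_lt (hr i)).le
      have e3 : ‖φ θ‖ ^ i ≤ C := by
        calc ‖φ θ‖ ^ i ≤ (max 1 ‖φ θ‖) ^ i := pow_le_pow_left₀ (norm_nonneg _) (le_max_right _ _) i
          _ ≤ C := pow_le_pow_right₀ (le_max_left _ _) (by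
              rw [Finset.mem_range] at hi
              omega)
      calc _ ≤ η / (2 * C) * C := by gcongr
        _ = η / 2 := by field_simp
    have h1 := key φ rfl
    have h2 := key ψ (hnorm θ).symm
    rw [hf, minpoly.aeval, sub_zero] at h1
    have h3 : ‖ψ g‖ ≤ η / 2 := by rw [← hnorm]; exact h1
    have h4 : η ≤ η / 2 := by
      have e : Polynomial.aeval (ψ θ) f = ψ g + -(ψ g - Polynomial.aeval (ψ θ) f) := by ring
      calc η = ‖ψ g + -(ψ g - Polynomial.aeval (ψ θ) f)‖ := by rw [← e]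
        _ ≤ max ‖ψ g‖ ‖-(ψ g - Polynomial.aeval (ψ θ) f)‖ := IsUltrametricDist.norm_add_le_max _ _
        _ ≤ η / 2 := max_le h3 (by rw [norm_neg]; exact h2)
    linarith
  obtain ⟨τ, hτ⟩ := (isConjRoot_iff_exists_algEquiv (K := ℚ_[ℓ]) (L := PadicAlgCl ℓ)).1
    (show IsConjRoot ℚ_[ℓ] (ψ θ) (φ θ) from (isConjRoot_iff_aeval_eq_zero hint).2 hroot |>.symm)
  refine ⟨τ, fun x => ?_⟩
  let f₁ : K →ₐ[ℚ] PadicAlgCl ℓ := RingHom.toRatAlgHom ((τ : PadicAlgCl ℓ →+* PadicAlgCl ℓ).comp φ)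
  let f₂ : K →ₐ[ℚ] PadicAlgCl ℓ := RingHom.toRatAlgHom ψ
  have h1 : f₁ = f₂ := pb.algHom_ext hτ
  exact congrArg (fun k : K →ₐ[ℚ] PadicAlgCl ℓ => k x) h1

end emb

end Pool.Agent.K9h38.RP
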