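import Pool.Agent.K9h38.RP.GOrd

/-!
# The final forms, with fields instead of groups
-/

set_option autoImplicit false
set_option linter.unusedSectionVars false

namespace Pool.Agent.K9h38.RP

open Pool.Agent.N817 Pool.Agent.Z384
open Pool.Agent.Y715.Red Pool.Agent.Y715.Nr Pool.Agent.W237.RK
open Pool.Agent.Y715.Gi (QB)
open IsLocalRing Matrix NumberField

lemma index_fixing (M : IntermediateField ℚ QB) : M.fixingSubgroup.index = Module.finrank ℚ M := by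
  have h := IntermediateField.finrank_eq_fixingSubgroup_index (F := ℚ) (E' := QB) M
  rw [← h, finrank_eq]

lemma open_fixing (M : IntermediateField ℚ QB) (h : 0 < Module.finrank ℚ M) :
    IsOpen (M.fixingSubgroup : Set GQ) := by
  have hfd := fin_fix M rfl h
  exact M.fixingSubgroup_isOpen

/-- open subgroups and fields -/
lemma exists_field {L : IntermediateField ℚ QB} (hLo : IsOpen (L.fixingSubgroup : Set GQ))
    (S : Subgroup L.fixingSubgroup) (hS : IsOpen (S : Set L.fixingSubgroup)) :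
    ∃ L' : IntermediateField ℚ QB, L ≤ L' ∧ L'.fixingSubgroup = S.map L.fixingSubgroup.subtype ∧
      Module.finrank ℚ L' = S.index * Module.finrank ℚ L := by
  set T : Subgroup GQ := S.map L.fixingSubgroup.subtype with hT
  have hTo : IsOpen (T : Set GQ) := hLo.isOpenEmbedding_subtypeVal.isOpenMap _ hS
  let Tc : ClosedSubgroup GQ := ⟨T, T.isClosed_of_isOpen hTo⟩
  have hfx : (IntermediateField.fixedField (Tc : Subgroup GQ)).fixingSubgroup = Tc :=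
    InfiniteGalois.fixingSubgroup_fixedField Tc
  have hfx' : (IntermediateField.fixedField T).fixingSubgroup = T := hfx
  refine ⟨IntermediateField.fixedField T, ?_, hfx', ?_⟩
  · rw [← InfiniteGalois.fixedField_fixingSubgroup L]
    intro x hx
    rw [IntermediateField.mem_fixedField_iff] at hx ⊢
    rintro _ ⟨σ, -, rfl⟩
    exact hx σ σ.2
  · rw [← index_fixing, ← index_fixing, hfx', hT, Subgroup.index_map_subtype]

section tc

variable {K : Type*} [Field K] [NumberField K]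

lemma tc_iff : (∀ φ : K →+* ℂ, ∃ x, (φ x).im ≠ 0) ↔ IsTotallyComplex K := by
  constructor
  · intro h
    constructor
    intro v
    rw [← InfinitePlace.not_isReal_iff_isComplex, InfinitePlace.isReal_iff]
    intro hv
    obtain ⟨x, hx⟩ := h v.embedding
    apply hx
    have h1 := congrArg (fun φ : K →+* ℂ => φ x) (ComplexEmbedding.isReal_iff.1 hv)
    simp only [ComplexEmbedding.conjugate_coe_eq] at h1
    exact Complex.conj_eq_iff_im.1 h1
  · intro h φ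
    by_contra hcon
    push Not at hcon
    have h1 : ComplexEmbedding.IsReal φ := by
      rw [ComplexEmbedding.isReal_iff]
      ext x
      rw [ComplexEmbedding.conjugate_coe_eq]
      exact Complex.conj_eq_iff_im.2 (hcon x)
    have h2 : (InfinitePlace.mk φ).IsReal := ⟨φ, h1, rfl⟩
    exact InfinitePlace.not_isReal_iff_isComplex.2 (h.isComplex _) h2

end tc

section dens

variable {E : IntermediateField ℚ QB} [NumberField E] {p : ℕ} [hp : Fact p.Prime]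

variable (E) in
/-- the place given by `ι` is above `Q` -/
def Abv {ℓ : ℕ} [Fact ℓ.Prime] (ι : QB →ₐ[ℚ] PadicAlgCl ℓ) (Q : Ideal (𝓞 E)) : Prop :=
  ∀ x : 𝓞 E, x ∈ Q ↔ ‖ι ((x : E) : QB)‖ < 1

lemma abv_iff {ℓ : ℕ} [Fact ℓ.Prime] (ι : QB →ₐ[ℚ] PadicAlgCl ℓ) (Q : Ideal (𝓞 E)) :
    Abv E ι Q ↔ pr (rs E ι) = Q := by
  constructor
  · intro h
    ext x
    rw [mem_pr]
    exact (h x).symm
  · rintro rfl x
    exact mem_pr

variable {A : Type*} [CommRing A] [IsLocalRing A] [IsNoetherianRing A] [TopologicalSpace A] {n : ℕ}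

/-- the powers of the automorphisms over `E` -/
lemma pow_fix {M : IntermediateField ℚ QB} (hEM : E ≤ M)
    (hMn : ∀ σ : GQ, σ ∈ E.fixingSubgroup → ∀ x ∈ M, σ x ∈ M)
    (hdeg : ∃ a : ℕ, Module.finrank ℚ M = p ^ a * Module.finrank ℚ E) :
    ∀ g ∈ E.fixingSubgroup, ∃ k : ℕ, g ^ p ^ k ∈ M.fixingSubgroup := by
  obtain ⟨a, ha⟩ := hdeg
  have hle : M.fixingSubgroup ≤ E.fixingSubgroup := IntermediateField.fixingSubgroup_le hEM
  have hE0 : 0 < Module.finrank ℚ E := Module.finrank_pos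
  have hn : (M.fixingSubgroup.subgroupOf E.fixingSubgroup).Normal := by
    constructor
    intro σ hσ g
    rw [Subgroup.mem_subgroupOf] at hσ ⊢
    rw [IntermediateField.mem_fixingSubgroup_iff] at hσ ⊢
    intro x hx
    have h1 : ((g : GQ)⁻¹) x ∈ M := hMn _ (inv_mem g.2) x hx
    have h2 := hσ _ h1
    show (g : GQ) ((σ : GQ) (((g : GQ)⁻¹) x)) = x
    rw [h2, ← AlgEquiv.mul_apply, mul_inv_cancel, AlgEquiv.one_apply]
  have hi : (M.fixingSubgroup.subgroupOf E.fixingSubgroup).index = p ^ a := by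
    have h1 : M.fixingSubgroup.relIndex E.fixingSubgroup * E.fixingSubgroup.index =
        M.fixingSubgroup.index := Subgroup.relIndex_mul_index hle
    rw [index_fixing, index_fixing, ha] at h1
    exact Nat.eq_of_mul_eq_mul_right hE0 h1
  intro g hg
  refine ⟨a, ?_⟩
  have h1 := Subgroup.pow_index_mem (M.fixingSubgroup.subgroupOf E.fixingSubgroup) ⟨g, hg⟩
  rw [hi] at h1
  exact h1

/-- **Density.** -/
theorem fin_dense (hroot : ∃ ζ : E, IsPrimitiveRoot ζ p)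
    (htc : p = 2 → (∀ φ : E →+* ℂ, ∃ x, (φ x).im ≠ 0) ∨
      ∀ (u : (𝓞 E)ˣ) (w : 𝓞 E), 4 ∣ (u : 𝓞 E) - w ^ 2 → ∃ η : (𝓞 E)ˣ, u = η ^ 2)
    (hU : ∀ P P' : Ideal (𝓞 E), P.IsPrime → P'.IsPrime → (p : 𝓞 E) ∈ P → (p : 𝓞 E) ∈ P' → P = P')
    (hreg : (classNumber E).Coprime p) {Q : Ideal (𝓞 E)}
    (hQ : Q = ⊤ ∨ (Q.IsPrime ∧ ∀ b : ℚ_[p], b ^ p ≠ (Nat.card (𝓞 E ⧸ Q) : ℚ_[p]) ∧
      (¬ (∀ φ : E →+* ℂ, ∃ x, (φ x).im ≠ 0) → b ^ p ≠ -(Nat.card (𝓞 E ⧸ Q) : ℚ_[p]))))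
    {M : IntermediateField ℚ QB} (hEM : E ≤ M)
    (hMn : ∀ σ : GQ, σ ∈ E.fixingSubgroup → ∀ x ∈ M, σ x ∈ M)
    (hdeg : ∃ a : ℕ, Module.finrank ℚ M = p ^ a * Module.finrank ℚ E)
    (hMu : ∀ (ℓ : ℕ) [Fact ℓ.Prime] (ι : QB →ₐ[ℚ] PadicAlgCl ℓ), ℓ ≠ p → ¬ Abv E ι Q →
      ∀ σ ∈ IQ ι, σ ∈ E.fixingSubgroup → ∀ x ∈ M, σ x = x)
    {L : IntermediateField ℚ QB} (hL : L ≤ M)
    (hA : IsAdic (maximalIdeal A)) (hfin : Finite (ResidueField A)) (h2 : (p : A) ∈ maximalIdeal A)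
    {ρ : L.fixingSubgroup →* GL (Fin n) A}
    (hρ : ∀ i j, Continuous fun σ => (ρ σ : Matrix (Fin n) (Fin n) A) i j)
    (hres : ∀ σ : L.fixingSubgroup, (σ : GQ) ∈ M.fixingSubgroup →
      ∃ M : ℕ, InI (maximalIdeal A) (((ρ σ : Matrix (Fin n) (Fin n) A) - 1) ^ M))
    (hu : ∀ (ℓ : ℕ) [Fact ℓ.Prime] (ι : QB →ₐ[ℚ] PadicAlgCl ℓ), ℓ ≠ p → ¬ Abv E ι Q →
      ∀ σ : L.fixingSubgroup, (σ : GQ) ∈ IQ ι → (σ : GQ) ∈ M.fixingSubgroup → ρ σ = 1)
    (ι₀ : QB →ₐ[ℚ] PadicAlgCl p) (m : ℕ) (h : L.fixingSubgroup) :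
    ∃ δ ∈ (Dp ι₀).subgroupOf L.fixingSubgroup, δ⁻¹ * h ∈ cong ρ m := by
  obtain ⟨ζ, hζ⟩ := hroot
  have hun : Un hζ := by
    by_cases hp2 : p = 2
    · rcases htc hp2 with h3 | h3
      · exact fun u w hw => primary_gen hζ (tc_iff.1 h3) hreg u w hw
      · subst hp2
        intro u w hw
        apply h3 u w
        have h4 : hζ.toInteger = -1 := by
          have h5 : IsPrimitiveRoot hζ.toInteger 2 := hζ.toInteger_isPrimitiveRoot
          exact h5.eq_neg_one_of_two_right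
        rw [h4] at hw
        have e : ((-1 : 𝓞 E) - 1) ^ 2 = 4 := by norm_num
        rwa [e] at hw
    · exact fun u w hw => primary_gen hζ
        (tot_complex hζ (lt_of_le_of_ne hp.out.two_le (Ne.symm hp2))) hreg u w hw
  have hE0 : 0 < Module.finrank ℚ E := Module.finrank_pos
  have hM0 : 0 < Module.finrank ℚ M := by
    obtain ⟨a, ha⟩ := hdeg
    rw [ha]
    exact Nat.mul_pos (pow_pos hp.out.pos a) hE0
  have hQ' : Qc p Q := hQ.imp_right fun h3 => ⟨h3.1, fun b => ⟨(h3.2 b).1,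
    fun h4 => (h3.2 b).2 fun h5 => h4 (tc_iff.1 h5)⟩⟩
  refine dense_gen hζ hun hreg hU hQ' (N := M.fixingSubgroup)
    (IntermediateField.fixingSubgroup_le hL) ⟨?_⟩ (open_fixing M hM0)
    (pow_fix hEM hMn hdeg) ?_ hA hfin h2 hρ hres ?_ ι₀ m h
  · rw [index_fixing]
    exact hM0.ne'
  · intro ℓ _ ι hℓ hι σ hσ hσE
    rw [IntermediateField.mem_fixingSubgroup_iff]
    exact hMu ℓ ι hℓ (fun h => hι ((abv_iff ι Q).1 h)) σ hσ hσE
  · intro ℓ _ ι hℓ hι σ hσ hσM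
    exact hu ℓ ι hℓ (fun h => hι ((abv_iff ι Q).1 h)) σ hσ hσM

variable {F : Type*} [Field F] [Algebra A F] [IsFractionRing A F]

/-- **Density of the subgroups of finite index** -/
theorem fin_pot {M L : IntermediateField ℚ QB} (hM0 : 0 < Module.finrank ℚ M) (hL : L ≤ M)
    (hA : IsAdic (maximalIdeal A)) {ρ : L.fixingSubgroup →* GL (Fin n) A}
    (hρ : ∀ i j, Continuous fun σ => (ρ σ : Matrix (Fin n) (Fin n) A) i j)
    {D D' : Subgroup L.fixingSubgroup}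
    (happ : ∀ (m : ℕ) (g : L.fixingSubgroup), ∃ δ ∈ D, δ⁻¹ * g ∈ cong ρ m)
    {R : Finset L.fixingSubgroup} (hR : ∀ δ ∈ D, ∃ r ∈ R, r⁻¹ * δ ∈ D') :
    ∃ L' : IntermediateField ℚ QB, L ≤ L' ∧ 0 < Module.finrank ℚ L' ∧
      Module.finrank ℚ L' ≤ R.card * Module.finrank ℚ L ∧
      (∀ σ : L.fixingSubgroup, (σ : GQ) ∈ L'.fixingSubgroup → ∀ m : ℕ, ∃ δ ∈ D', ∀ i j,
        (ρ σ : Matrix (Fin n) (Fin n) A) i j - (ρ δ : Matrix (Fin n) (Fin n) A) i j ∈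
          maximalIdeal A ^ m) ∧
      ∀ W : Submodule F (Fin n → F), (∀ δ ∈ D', ∀ w ∈ W, act F ρ δ w ∈ W) →
        ∀ σ : L.fixingSubgroup, (σ : GQ) ∈ L'.fixingSubgroup → ∀ w ∈ W, act F ρ σ w ∈ W := by
  obtain ⟨S, hSo, hS0, hS, hSD⟩ := dens_index hA hρ happ hR
  have hLo : IsOpen (L.fixingSubgroup : Set GQ) :=
    Subgroup.isOpen_mono (IntermediateField.fixingSubgroup_le hL) (open_fixing M hM0)
  obtain ⟨L', h1, h2, h3⟩ := exists_field hLo S hSo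
  have hL0 : 0 < Module.finrank ℚ L := by
    rw [← index_fixing]
    have h4 : L.fixingSubgroup.index ∣ M.fixingSubgroup.index :=
      Subgroup.index_dvd_of_le (IntermediateField.fixingSubgroup_le hL)
    rw [index_fixing M] at h4
    exact Nat.pos_of_ne_zero fun h5 => by
      rw [h5, zero_dvd_iff] at h4
      exact hM0.ne' h4
  have hmem : ∀ σ : L.fixingSubgroup, (σ : GQ) ∈ L'.fixingSubgroup → σ ∈ S := by
    intro σ hσ
    rw [h2] at hσ
    obtain ⟨τ, hτ, hτσ⟩ := hσ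
    have e : τ = σ := Subtype.ext hτσ
    rw [← e]
    exact hτ
  refine ⟨L', h1, ?_, ?_, fun σ hσ m => ?_, fun W hW σ hσ w hw => ?_⟩
  · rw [h3]
    exact Nat.mul_pos hS0 hL0
  · rw [h3]
    exact Nat.mul_le_mul_right _ hS
  · obtain ⟨δ, hδ, h5⟩ := hSD σ (hmem σ hσ) m
    exact ⟨δ, hδ, fun i j => sub_of_cong h5 i j⟩
  · have hD' : D' ≤ stb ρ W := by
      intro δ hδ w
      refine ⟨hW δ hδ w, fun hw => ?_⟩
      have := hW δ⁻¹ (inv_mem hδ) _ hw
      rwa [← act_mul, inv_mul_cancel, act_one] at this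
    exact ((stb_of_lim ρ W hD' (hSD σ (hmem σ hσ))) w).1 hw

/-- **The dihedral case** -/
theorem fin_dih {M L : IntermediateField ℚ QB} (hEM : E ≤ M)
    (hMn : ∀ σ : GQ, σ ∈ E.fixingSubgroup → ∀ x ∈ M, σ x ∈ M)
    (hdeg : ∃ a : ℕ, Module.finrank ℚ M = p ^ a * Module.finrank ℚ E) (hL : L ≤ M)
    (hA : IsAdic (maximalIdeal A)) (h2 : (p : A) ∈ maximalIdeal A)
    {ρ : L.fixingSubgroup →* GL (Fin 2) A}
    (hρ : ∀ i j, Continuous fun σ => (ρ σ : Matrix (Fin 2) (Fin 2) A) i j)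
    (hres : ∀ σ : L.fixingSubgroup, (σ : GQ) ∈ M.fixingSubgroup →
      ∃ M : ℕ, InI (maximalIdeal A) (((ρ σ : Matrix (Fin 2) (Fin 2) A) - 1) ^ M))
    {D D' : Subgroup L.fixingSubgroup}
    (happ : ∀ (m : ℕ) (g : L.fixingSubgroup), ∃ δ ∈ D, δ⁻¹ * g ∈ cong ρ m)
    {R : Set L.fixingSubgroup} (hRf : R.Finite) (hR : ∀ δ ∈ D, ∃ r ∈ R, r⁻¹ * δ ∈ D')
    (hirr : Irr F ρ)
    {v : Fin 2 → F} (hv : v ≠ 0) (hD' : ∀ δ ∈ D', ∃ c : F, act F ρ δ v = c • v)
    (hdist : ∃ δ ∈ D', ∀ k : ℕ, 0 < k → ∀ c : F, act F ρ (δ ^ k) v = c • v →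
      c ^ 2 ≠ algebraMap A F ((ρ (δ ^ k) : Matrix (Fin 2) (Fin 2) A).det)) :
    ∃ L' : IntermediateField ℚ QB, L ≤ L' ∧ Module.finrank ℚ L' = 2 * Module.finrank ℚ L ∧
      (p ≠ 2 → L' ≤ L ⊔ E) ∧
      ∀ σ : L.fixingSubgroup, (σ : GQ) ∈ L'.fixingSubgroup → ∃ c : F, act F ρ σ v = c • v := by
  have hE0 : 0 < Module.finrank ℚ E := Module.finrank_pos
  have hM0 : 0 < Module.finrank ℚ M := by
    obtain ⟨a, ha⟩ := hdeg
    rw [ha]
    exact Nat.mul_pos (pow_pos hp.out.pos a) hE0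
  obtain ⟨T, hT2, hTo, hTE, hT⟩ := dih_gen (E := E) (p := p)
    (IntermediateField.fixingSubgroup_le hL) (pow_fix hEM hMn hdeg) hA h2 hρ hres happ hRf hR hirr
    hv hD' hdist
  have hLo : IsOpen (L.fixingSubgroup : Set GQ) :=
    Subgroup.isOpen_mono (IntermediateField.fixingSubgroup_le hL) (open_fixing M hM0)
  obtain ⟨L', h1, h2, h3⟩ := exists_field hLo T hTo
  refine ⟨L', h1, by rw [h3, hT2], fun hp2 => ?_, fun σ hσ => ?_⟩
  · have hp3 : 2 < p := lt_of_le_of_ne hp.out.two_le (Ne.symm hp2)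
    rw [← InfiniteGalois.fixedField_fixingSubgroup L',
      ← InfiniteGalois.fixedField_fixingSubgroup (L ⊔ E)]
    intro x hx
    rw [IntermediateField.mem_fixedField_iff] at hx ⊢
    intro σ hσ
    apply hx
    have hσL : σ ∈ L.fixingSubgroup := IntermediateField.fixingSubgroup_le le_sup_left hσ
    have hσE : σ ∈ E.fixingSubgroup := IntermediateField.fixingSubgroup_le le_sup_right hσ
    rw [h2]
    exact ⟨⟨σ, hσL⟩, hTE hp3 ⟨σ, hσL⟩ hσE, rfl⟩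
  · apply hT
    rw [h2] at hσ
    obtain ⟨τ, hτ, hτσ⟩ := hσ
    have e : τ = σ := Subtype.ext hτσ
    rw [← e]
    exact hτ

end dens

end Pool.Agent.K9h38.RP
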