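import Pool.Agent.K9h38.RP.Cyc

/-!
# Elements of the cyclotomic field which are locally `p`-th powers
-/

set_option autoImplicit false
set_option linter.unusedSectionVars false

namespace Pool.Agent.K9h38.RP

open NumberField Pool.Agent.Y158.KL Pool.Agent.W292.FM

section gen

variable {K : Type} [Field K] [NumberField K]

lemma exists_prime_mem {P : Ideal (𝓞 K)} (hP : P.IsPrime) (hPb : P ≠ ⊥) :
    ∃ ℓ : ℕ, ℓ.Prime ∧ (ℓ : 𝓞 K) ∈ P := by
  have h1 : (Ideal.absNorm P : 𝓞 K) ∈ P := Ideal.absNorm_mem P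
  have h0 : Ideal.absNorm P ≠ 0 := by
    rw [Ne, Ideal.absNorm_eq_zero_iff]
    exact hPb
  rw [← Nat.prod_primeFactorsList h0] at h1
  have h2 : ∀ L : List ℕ, ((L.prod : ℕ) : 𝓞 K) ∈ P → ∃ x ∈ L, (x : 𝓞 K) ∈ P := by
    intro L
    induction L with
    | nil =>
      intro h
      rw [List.prod_nil, Nat.cast_one] at h
      exact absurd ((Ideal.eq_top_iff_one P).2 h) hP.ne_top
    | cons a L ih =>
      intro h
      rw [List.prod_cons, Nat.cast_mul] at h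
      rcases hP.mem_or_mem h with h3 | h3
      · exact ⟨a, List.mem_cons_self, h3⟩
      · obtain ⟨x, hx, hxP⟩ := ih h3
        exact ⟨x, List.mem_cons_of_mem _ hx, hxP⟩
  obtain ⟨x, hx, hxP⟩ := h2 _ h1
  exact ⟨x, Nat.prime_of_mem_primeFactorsList hx, hxP⟩

end gen

variable {K : Type} [Field K] [NumberField K] {p : ℕ} [hp : Fact p.Prime]
  [hK : IsCyclotomicExtension {p} ℚ K] {ζ : K} (hζ : IsPrimitiveRoot ζ p)

/-- the order of a primitive root modulo `p ^ 2` modulo `p` -/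
lemma order_mod {q : ℕ} (hp2 : 2 < p) (hqo : orderOf (q : ZMod (p ^ 2)) = p * (p - 1)) :
    ¬ p ∣ q ∧ orderOf (q : ZMod p) = p - 1 := by
  have hpos : 0 < p - 1 := by omega
  have hqp : ¬ p ∣ q := by
    intro hpq
    have h3 : (q : ZMod (p ^ 2)) ^ 2 = 0 := by
      rw [← Nat.cast_pow, ZMod.natCast_eq_zero_iff]
      exact pow_dvd_pow_of_dvd hpq 2
    have h4 := pow_orderOf_eq_one (q : ZMod (p ^ 2))
    have h5 : 2 ≤ p * (p - 1) := by nlinarith [hp2, Nat.sub_add_cancel hp.out.one_le]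
    rw [hqo, ← Nat.sub_add_cancel h5, pow_add, h3, mul_zero] at h4
    have h6 : Fact (1 < p ^ 2) := ⟨by nlinarith⟩
    exact zero_ne_one h4
  refine ⟨hqp, Nat.dvd_antisymm ?_ ?_⟩
  · apply orderOf_dvd_of_pow_eq_one
    exact ZMod.pow_card_sub_one_eq_one (by rwa [Ne, ZMod.natCast_eq_zero_iff])
  · set d := orderOf (q : ZMod p) with hd
    have h1 : (q : ZMod p) ^ d = 1 := pow_orderOf_eq_one _
    have h2 : (p : ℤ) ∣ (q : ℤ) ^ d - 1 := by
      rw [← ZMod.intCast_zmod_eq_zero_iff_dvd]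
      push_cast
      rw [h1, sub_self]
    have h3 : (p : ℤ) ^ 2 ∣ ((q : ℤ) ^ d) ^ p - 1 := by
      obtain ⟨c, hc⟩ := h2
      have e : ((q : ℤ) ^ d) ^ p - 1 =
          ((q : ℤ) ^ d - 1) * ∑ i ∈ Finset.range p, ((q : ℤ) ^ d) ^ i := by
        rw [mul_geom_sum]
      rw [e, pow_two]
      refine mul_dvd_mul ⟨c, hc⟩ ?_
      have e2 : ∑ i ∈ Finset.range p, ((q : ℤ) ^ d) ^ i =
          p + ∑ i ∈ Finset.range p, (((q : ℤ) ^ d) ^ i - 1) := by
        rw [Finset.sum_sub_distrib, Finset.sum_const, Finset.card_range]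
        simp
      rw [e2]
      refine dvd_add dvd_rfl (Finset.dvd_sum fun i _ => ?_)
      have := sub_dvd_pow_sub_pow ((q : ℤ) ^ d) 1 i
      rw [one_pow] at this
      exact (show (p : ℤ) ∣ (q : ℤ) ^ d - 1 from ⟨c, hc⟩).trans this
    have h4 : (q : ZMod (p ^ 2)) ^ (d * p) = 1 := by
      have h5 : ((((q : ℤ) ^ d) ^ p - 1 : ℤ) : ZMod (p ^ 2)) = 0 := by
        rw [ZMod.intCast_zmod_eq_zero_iff_dvd]
        push_cast
        exact h3
      push_cast at h5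
      rw [pow_mul, sub_eq_zero.1 h5]
    have h5 := orderOf_dvd_of_pow_eq_one h4
    rw [hqo, mul_comm d p] at h5
    exact Nat.dvd_of_mul_dvd_mul_left hp.out.pos h5

include hK in
/-- **The prime `q` is inert.** -/
theorem inert_q (hp2 : 2 < p) {q : ℕ} (hq : q.Prime)
    (hqo : orderOf (q : ZMod (p ^ 2)) = p * (p - 1)) {P : Ideal (𝓞 K)} (hP : P.IsPrime)
    (hPq : (q : 𝓞 K) ∈ P) : P = Ideal.span {(q : 𝓞 K)} := by
  have : Fact q.Prime := ⟨hq⟩
  have : NeZero p := ⟨hp.out.ne_zero⟩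
  obtain ⟨hpq, hord⟩ := order_mod hp2 hqo
  have hl := lies_of_mem hPq
  have hqp : ¬ q ∣ p := by
    intro h
    rcases (Nat.dvd_prime hp.out).1 h with h1 | h1
    · exact hq.one_lt.ne' h1
    · exact hpq (by rw [h1])
  have hdeg : P.inertiaDeg ℤ = p - 1 := by
    rw [IsCyclotomicExtension.Rat.inertiaDeg_eq_of_not_dvd q K P hqp, hord]
  have h1 : Ideal.absNorm P = q ^ (p - 1) := by
    rw [← hdeg, Ideal.pow_inertiaDeg q P]
  have h2 : Ideal.absNorm (Ideal.span {(q : 𝓞 K)}) = q ^ (p - 1) := by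
    rw [Ideal.absNorm_span_singleton, ← Int.cast_natCast, ← eq_intCast (algebraMap ℤ (𝓞 K)),
      Algebra.norm_algebraMap, RingOfIntegers.rank,
      IsCyclotomicExtension.finrank K (Polynomial.cyclotomic.irreducible_rat hp.out.pos),
      Nat.totient_prime hp.out]
    simp
  have h3 : P ∣ Ideal.span {(q : 𝓞 K)} := by
    rw [Ideal.dvd_span_singleton]
    exact hPq
  obtain ⟨J, hJ⟩ := h3
  have h4 := congrArg Ideal.absNorm hJ
  rw [map_mul, h1, h2] at h4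
  have h5 : Ideal.absNorm J = 1 := by
    have : 0 < q ^ (p - 1) := pow_pos hq.pos _
    exact (Nat.eq_of_mul_eq_mul_left this (by rw [mul_one]; exact h4)).symm
  rw [Ideal.absNorm_eq_one_iff] at h5
  rw [hJ, h5, Ideal.mul_top]

include hK hζ in
/-- an embedding is determined by the value at `ζ` -/
lemma fix_of_fix {φ : K →+* PadicAlgCl p} {τ : PadicAlgCl p ≃ₐ[ℚ_[p]] PadicAlgCl p}
    (h : τ (φ ζ) = φ ζ) (x : K) : τ (φ x) = φ x := by
  let f : K →ₐ[ℚ] PadicAlgCl p := RingHom.toRatAlgHom φ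
  let g : K →ₐ[ℚ] PadicAlgCl p := RingHom.toRatAlgHom ((τ : PadicAlgCl p →+* PadicAlgCl p).comp φ)
  have : NeZero p := ⟨hp.out.ne_zero⟩
  have h1 : g = f := by
    apply (hζ.powerBasis ℚ).algHom_ext
    rw [IsPrimitiveRoot.powerBasis_gen]
    exact h
  exact congrArg (fun k : K →ₐ[ℚ] PadicAlgCl p => k x) h1

include hK hζ in
/-- **Local `p`-th powers are `p`-th powers.** -/
theorem mem_of_local (hp2 : 2 < p) (hreg : (classNumber K).Coprime p) {q : ℕ} (hq : q.Prime)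
    (hqo : orderOf (q : ZMod (p ^ 2)) = p * (p - 1)) {Ω : Type*} [Field Ω] (j : K →+* Ω)
    (ι : Ω →+* PadicAlgCl p) {t : Ω} (ht : t ≠ 0) {a : K} (hta : t ^ p = j a)
    (hloc : ∀ τ : PadicAlgCl p ≃ₐ[ℚ_[p]] PadicAlgCl p, τ (ι (j ζ)) = ι (j ζ) → τ (ι t) = ι t)
    (hur : ∀ (ℓ : ℕ) [Fact ℓ.Prime] (φ : K →+* PadicAlgCl ℓ), ℓ ≠ p → ℓ ≠ q → ∀ y : K, y ≠ 0 →
      ∃ m : ℤ, ‖φ (a * y ^ p)‖ = (ℓ : ℝ) ^ (p * m)) : ∃ b : K, t = j b := by
  classical
  have hG : IsGalois ℚ K := IsCyclotomicExtension.isGalois {p} ℚ K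
  have hπ := pi_prime (K := K) hζ
  have ha0 : a ≠ 0 := by
    rintro rfl
    rw [map_zero] at hta
    exact ht ((pow_eq_zero_iff hp.out.ne_zero).1 hta)
  -- an integral multiple
  obtain ⟨x₀, y₀, hy₀, hxy⟩ := IsFractionRing.div_surjective (A := 𝓞 K) a
  have hy0 : y₀ ≠ 0 := nonZeroDivisors.ne_zero hy₀
  set y : K := algebraMap (𝓞 K) K y₀ with hy
  have hyn : y ≠ 0 := by
    rw [hy]
    exact (map_ne_zero_iff _ RingOfIntegers.coe_injective).2 hy0
  set x : 𝓞 K := x₀ * y₀ ^ (p - 1) with hx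
  have hxa : algebraMap (𝓞 K) K x = a * y ^ p := by
    rw [hx, map_mul, map_pow, ← hxy, ← hy]
    have : y ^ p = y * y ^ (p - 1) := by rw [← pow_succ', Nat.sub_add_cancel hp.out.one_le]
    rw [this]
    field_simp
  have hx0 : x ≠ 0 := by
    intro h
    rw [h, map_zero] at hxa
    exact mul_ne_zero ha0 (pow_ne_zero p hyn) hxa.symm
  set T : Ω := t * j y with hT
  have hTx : T ^ p = j (algebraMap (𝓞 K) K x) := by
    rw [hT, mul_pow, hta, hxa, map_mul, map_pow]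
  have hT0 : T ≠ 0 := mul_ne_zero ht ((map_ne_zero j).2 hyn)
  set φ : K →+* PadicAlgCl p := ι.comp j with hφ
  have hTfix : ∀ τ : PadicAlgCl p ≃ₐ[ℚ_[p]] PadicAlgCl p, τ (φ ζ) = φ ζ → τ (ι T) = ι T := by
    intro τ hτ
    rw [hT, map_mul, map_mul, hloc τ hτ]
    congr 1
    exact fix_of_fix hζ hτ y
  have hpr := prim_map hζ φ
  have hc0 := pi_pos hpr
  have hc1 := pi_lt hpr
  -- the orders
  have hq0 : (q : 𝓞 K) ≠ 0 := Nat.cast_ne_zero.2 hq.ne_zero
  obtain ⟨hpq, -⟩ := order_mod hp2 hqo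
  have hqi : (Ideal.span {(q : 𝓞 K)}).IsPrime := by
    have : Fact q.Prime := ⟨hq⟩
    obtain ⟨φq⟩ : Nonempty (K →+* PadicAlgCl q) :=
      ⟨(IsAlgClosed.lift (R := ℚ) (S := K) (M := PadicAlgCl q)).toRingHom⟩
    rw [← inert_q hp2 hq hqo (pr_prime φq) (ell_mem φq)]
    exact pr_prime φq
  have hqb : Ideal.span {(q : 𝓞 K)} ≠ ⊥ := by
    rw [Ne, Ideal.span_singleton_eq_bot]
    exact hq0
  have hord : ∀ P : Ideal (𝓞 K), P.IsPrime → P ≠ ⊥ → (q : 𝓞 K) ∉ P → p ∣ od P x := by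
    intro P hP hPb hPq
    obtain ⟨ℓ, hℓ, hℓP⟩ := exists_prime_mem hP hPb
    have hℓq : ℓ ≠ q := by
      rintro rfl
      exact hPq hℓP
    have : Fact ℓ.Prime := ⟨hℓ⟩
    by_cases hℓp : ℓ = p
    · subst hℓp
      have h1 : P = pr φ := by
        rw [pr_eq hζ φ]
        have := lies_of_mem hℓP
        exact IsCyclotomicExtension.Rat.eq_span_zeta_sub_one_of_liesOver' ℓ K hζ P
      rw [h1]
      obtain ⟨m, hm⟩ := (val_res hpr hTfix).1 ((map_ne_zero ι).2 hT0)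
      have h2 := norm_pow_od φ (n := 1) (γ := hζ.toInteger - 1) (by rw [pow_one, pr_eq hζ φ]) hx0
      rw [pow_one, ev_pi] at h2
      have h3 : ‖ev φ x‖ = ‖φ ζ - 1‖ ^ ((ℓ : ℤ) * m) := by
        have h4 : ev φ x = (ι T) ^ ℓ := by
          rw [← map_pow, hTx]
          rfl
        rw [h4, norm_pow, hm, mul_comm, zpow_mul, zpow_natCast]
      rw [h3, ← zpow_natCast] at h2
      have h5 := zpow_right_injective₀ hc0 hc1.ne h2
      have h6 : (ℓ : ℤ) ∣ (od (pr φ) x : ℤ) := ⟨m, h5.symm⟩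
      exact_mod_cast h6
    · obtain ⟨ψ, hψ⟩ := exists_emb hℓP
      obtain ⟨m, hm⟩ := hur ℓ ψ hℓp hℓq y hyn
      rw [← hψ]
      refine dvd_od ψ hx0 (m := m) ?_
      rw [← hm, ← hxa]
      rfl
  -- the prime `q`
  set b := od (Ideal.span {(q : 𝓞 K)}) x with hb
  obtain ⟨J, hJ, hqJ⟩ := od_spec hqb hx0
  rw [← hb, Ideal.span_singleton_pow] at hJ
  have h1 : x ∈ Ideal.span {(q : 𝓞 K) ^ b} := by
    have : Ideal.span {x} ≤ Ideal.span {(q : 𝓞 K) ^ b} := by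
      rw [hJ]
      exact Ideal.mul_le_left (I := Ideal.span {(q : 𝓞 K) ^ b}) (J := J)
    exact this (Ideal.mem_span_singleton_self _)
  obtain ⟨x₁, hx₁⟩ := Ideal.mem_span_singleton.1 h1
  have hqb0 : (q : 𝓞 K) ^ b ≠ 0 := pow_ne_zero b hq0
  have hx₁J : Ideal.span {x₁} = J := by
    rw [hx₁, ← Ideal.span_singleton_mul_span_singleton] at hJ
    exact mul_left_cancel₀ (by simpa using hqb0) hJ
  have hx₁0 : x₁ ≠ 0 := by
    rintro rfl
    rw [mul_zero] at hx₁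
    exact hx0 hx₁
  obtain ⟨u, γ, huγ⟩ := exists_unit_mul hp.out.ne_zero hreg hx₁0 fun P hP hPb => by
    by_cases hPq : (q : 𝓞 K) ∈ P
    · have h2 : P = Ideal.span {(q : 𝓞 K)} := inert_q hp2 hq hqo hP hPq
      have h3 : od P x₁ = 0 := by
        apply od_eq hPb hx₁0 (J := Ideal.span {x₁})
        · rw [pow_zero, one_mul]
        · rw [h2, hx₁J]
          exact hqJ
      rw [h3]
      exact dvd_zero p
    · have h2 : od P x = od P x₁ := by
        obtain ⟨J', hJ', hPJ'⟩ := od_spec hPb hx₁0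
        apply od_eq hPb hx0 (J := Ideal.span {(q : 𝓞 K) ^ b} * J')
        · rw [hx₁, ← Ideal.span_singleton_mul_span_singleton, hJ']
          ring
        · intro h3
          rcases (Ideal.prime_of_isPrime hPb hP).dvd_or_dvd h3 with h4 | h4
          · rw [Ideal.dvd_span_singleton] at h4
            exact hPq (hP.mem_of_pow_mem b h4)
          · exact hPJ' h4
      rw [← h2]
      exact hord P hP hPb hPq
  have hγ0 : γ ≠ 0 := by
    rintro rfl
    rw [zero_pow hp.out.ne_zero, mul_zero] at huγ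
    exact hx₁0 huγ
  have hφγ : ev φ γ ≠ 0 := (map_ne_zero_iff _ (ev_inj φ)).2 hγ0
  have hfixγ : ∀ τ : PadicAlgCl p ≃ₐ[ℚ_[p]] PadicAlgCl p, τ (φ ζ) = φ ζ → τ (ev φ γ) = ev φ γ :=
    fun τ hτ => fix_of_fix hζ hτ _
  have hxe : x = ((q : 𝓞 K) ^ b * u) * γ ^ p := by rw [hx₁, huγ]; ring
  have hιT : (ι T) ^ p = ev φ x := by
    rw [← map_pow, hTx]
    rfl
  -- `p` divides `b`
  obtain ⟨n, hn⟩ := loc_pow hζ φ (x := (q : 𝓞 K) ^ b * u) (s := ι T / ev φ γ) (by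
    rw [div_pow, hιT, hxe, map_mul, map_pow (ev φ) γ, mul_div_assoc,
      div_self (pow_ne_zero p hφγ), mul_one]) (fun τ hτ => by
    rw [map_div₀, hTfix τ hτ, hfixγ τ hτ])
  obtain ⟨b', hb'⟩ := dvd_exp hζ hp2 hqo hn
  have hqφ : (q : PadicAlgCl p) ^ b' ≠ 0 := pow_ne_zero _ (Nat.cast_ne_zero.2 hq.ne_zero)
  obtain ⟨n', hn'⟩ := loc_pow hζ φ (x := (u : 𝓞 K)) (s := ι T / ev φ γ / (q : PadicAlgCl p) ^ b') (by
    rw [div_pow, div_pow, hιT, hxe, map_mul, map_pow (ev φ) γ, mul_div_assoc,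
      div_self (pow_ne_zero p hφγ), mul_one, map_mul, map_pow, map_natCast, hb', mul_comm p b',
      pow_mul, mul_comm, mul_div_assoc, div_self (pow_ne_zero p hqφ), mul_one]) (fun τ hτ => by
    rw [map_div₀, map_div₀, hTfix τ hτ, hfixγ τ hτ, map_pow, map_natCast])
  obtain ⟨ε, hε⟩ := IsCyclotomicExtension.Rat.associated_zeta_sub_one_pow_prime p hζ
  have hpu : (p : 𝓞 K) ∣ (u : 𝓞 K) - ((n' ^ p : ℤ) : 𝓞 K) := by
    push_cast
    refine Dvd.dvd.trans ?_ hn'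
    rw [← hε]
    exact (Units.mul_right_dvd).2 (pow_dvd_pow _ (Nat.sub_le p 1))
  obtain ⟨η, hη⟩ := kummer_lemma hζ hp2 hreg u _ hpu
  -- the end
  set w : 𝓞 K := (q : 𝓞 K) ^ b' * η * γ with hw
  have hxw : x = w ^ p := by
    rw [hxe, hη, hw, hb', mul_comm p b', pow_mul, Units.val_pow_eq_pow_val]
    ring
  have hw0 : w ≠ 0 := by
    rintro h
    rw [h, zero_pow hp.out.ne_zero] at hxw
    exact hx0 hxw
  set W : K := algebraMap (𝓞 K) K w with hW
  have hW0 : W ≠ 0 := (map_ne_zero_iff _ RingOfIntegers.coe_injective).2 hw0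
  have hjW : j W ≠ 0 := (map_ne_zero j).2 hW0
  have hμ : (T / j W) ^ p = 1 := by
    rw [div_pow, hTx, hxw, map_pow, map_pow, div_self (pow_ne_zero p hjW)]
  have : NeZero p := ⟨hp.out.ne_zero⟩
  obtain ⟨i, -, hi⟩ := (hζ.map_of_injective j.injective).eq_pow_of_pow_eq_one hμ
  refine ⟨ζ ^ i * W / y, ?_⟩
  rw [map_div₀, map_mul, map_pow, hi, div_mul_cancel₀ _ hjW, hT,
    mul_div_cancel_right₀ _ ((map_ne_zero j).2 hyn)]

end Pool.Agent.K9h38.RP
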