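import Pool.Agent.Y158.KL.Hil6

/-!
# Hilbert's theorem 94 and Kummer's lemma for number fields which contain the `ℓ`-th roots of unity
-/

set_option autoImplicit false
set_option linter.unusedSectionVars false

namespace Pool.Agent.K9h38.RP

open NumberField IsDedekindDomain Polynomial Pool.Agent.Y158.KL

section poly

variable {R : Type*} [CommRing R] [IsDomain R]

/-- the polynomial `((w + π X) ^ ℓ - u) / π ^ ℓ` -/
theorem exists_poly_gen {ℓ : ℕ} (hp : ℓ.Prime) {π : R} (hπ0 : π ≠ 0) (hπ : π ^ (ℓ - 1) ∣ (ℓ : R))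
    {u w : R} (hu : π ^ ℓ ∣ u - w ^ ℓ) :
    ∃ g : R[X], g.Monic ∧ C (π ^ ℓ) * g = (C w + C π * X) ^ ℓ - C u := by
  have hℓ := hp.pos
  have hco : ∀ i, ((C w + C π * X) ^ ℓ : R[X]).coeff i = (w ^ (ℓ - i) * (ℓ.choose i : R)) * π ^ i := by
    intro i
    have h1 : (C w + C π * X : R[X]) ^ ℓ = ((X + C w) ^ ℓ : R[X]).comp (C π * X) := by
      rw [pow_comp, add_comp, C_comp, X_comp, add_comm]
    rw [h1, comp_C_mul_X_coeff, coeff_X_add_C_pow]
  obtain ⟨g, hg⟩ : C (π ^ ℓ) ∣ ((C w + C π * X) ^ ℓ - C u : R[X]) := by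
    rw [C_dvd_iff_dvd_coeff]
    intro i
    rw [coeff_sub, hco]
    rcases Nat.eq_zero_or_pos i with rfl | hi
    · rw [coeff_C_zero, Nat.choose_zero_right, pow_zero, Nat.cast_one, mul_one, mul_one, Nat.sub_zero,
        ← neg_sub, dvd_neg]
      exact hu
    · rw [coeff_C_of_ne_zero hi.ne', sub_zero]
      rcases lt_trichotomy i ℓ with h | rfl | h
      · have h1 : ℓ ∣ ℓ.choose i := hp.dvd_choose_self hi.ne' h
        obtain ⟨c, hc⟩ := h1
        have h2 : π ^ ℓ = π ^ (ℓ - 1) * π := by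
          rw [← pow_succ, Nat.sub_add_cancel hℓ]
        rw [h2, hc, Nat.cast_mul]
        exact mul_dvd_mul ((hπ.mul_right _).mul_left _) (dvd_pow_self π hi.ne')
      · exact Dvd.intro_left _ rfl
      · rw [Nat.choose_eq_zero_of_lt h, Nat.cast_zero, mul_zero, zero_mul]
        exact dvd_zero _
  have hco2 : ∀ i, 0 < i → π ^ ℓ * g.coeff i = (w ^ (ℓ - i) * (ℓ.choose i : R)) * π ^ i := by
    intro i hi
    rw [← coeff_C_mul, ← hg, coeff_sub, hco, coeff_C_of_ne_zero hi.ne', sub_zero]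
  have hπℓ : π ^ ℓ ≠ 0 := pow_ne_zero _ hπ0
  refine ⟨g, ?_, hg.symm⟩
  apply monic_of_natDegree_le_of_coeff_eq_one ℓ
  · rw [natDegree_le_iff_coeff_eq_zero]
    intro i hi
    have h1 := hco2 i (by omega)
    rw [Nat.choose_eq_zero_of_lt hi, Nat.cast_zero, mul_zero, zero_mul] at h1
    exact (mul_eq_zero.1 h1).resolve_left hπℓ
  · have h1 := hco2 ℓ hℓ
    rw [Nat.choose_self, Nat.cast_one, Nat.sub_self, pow_zero, one_mul, one_mul] at h1
    exact mul_left_cancel₀ hπℓ (by rw [h1, mul_one])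

end poly

section hil

variable {ℓ : ℕ} [hp : Fact ℓ.Prime] {K L : Type} [Field K] [NumberField K] [Field L]
  [NumberField L] [Algebra K L] {ζ : K} (hζ : IsPrimitiveRoot ζ ℓ)

include hζ in
lemma tot_complex (hℓ : 2 < ℓ) : IsTotallyComplex K := by
  constructor
  intro v
  rw [← InfinitePlace.not_isReal_iff_isComplex]
  intro hv
  have h1 : (InfinitePlace.embedding_of_isReal hv ζ) ^ ℓ = 1 := by
    rw [← map_pow, hζ.pow_eq_one, map_one]
  have h2 : InfinitePlace.embedding_of_isReal hv ζ = 1 := by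
    have hodd : Odd ℓ := hp.out.odd_of_ne_two (by omega)
    have h3 : (InfinitePlace.embedding_of_isReal hv ζ) ^ ℓ = (1 : ℝ) ^ ℓ := by rw [h1, one_pow]
    exact hodd.strictMono_pow.injective h3
  have h3 : ζ = 1 := by
    apply (InfinitePlace.embedding_of_isReal hv).injective
    rw [h2, map_one]
  exact hζ.ne_one hp.out.one_lt h3

theorem card_places_gen (h1 : IsTotallyComplex K) (hdeg : Module.finrank K L = ℓ) :
    Fintype.card (InfinitePlace L) = ℓ * Fintype.card (InfinitePlace K) := by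
  have h2 : IsTotallyComplex L := isTotallyComplex_of_algebra K L
  have h3 := IsTotallyComplex.finrank K
  have h4 := IsTotallyComplex.finrank L
  have h5 := Module.finrank_mul_finrank ℚ K L
  rw [InfinitePlace.card_eq_nrRealPlaces_add_nrComplexPlaces,
    InfinitePlace.card_eq_nrRealPlaces_add_nrComplexPlaces,
    IsTotallyComplex.nrRealPlaces_eq_zero K, IsTotallyComplex.nrRealPlaces_eq_zero L, zero_add,
    zero_add]
  rw [hdeg, h3, h4] at h5
  have : 2 * (ℓ * InfinitePlace.nrComplexPlaces K) = 2 * InfinitePlace.nrComplexPlaces L := by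
    rw [← h5]; ring
  omega

variable [hG : IsGalois K L] {σ : L ≃ₐ[K] L} (hσ : ∀ τ, τ ∈ Subgroup.zpowers σ)
  (hdeg : Module.finrank K L = ℓ)

include hG hσ hdeg in
theorem ord_sigma_gen : orderOf σ = ℓ := by
  rw [orderOf_eq_card_of_forall_mem_zpowers hσ, IsGalois.card_aut_eq_finrank, hdeg]

include hG hσ hdeg in
theorem prod_aut_gen (x : L) :
    ∏ i ∈ Finset.range ℓ, (σ ^ i) x = algebraMap K L (Algebra.norm K x) := by
  classical
  rw [Algebra.norm_eq_prod_automorphisms]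
  have h1 : (Finset.univ : Finset (L ≃ₐ[K] L)) = (Finset.range ℓ).image (fun i => σ ^ i) := by
    rw [← IsCyclic.image_range_card hσ, IsGalois.card_aut_eq_finrank, hdeg]
  rw [h1, Finset.prod_image]
  intro i hi j hj hij
  have ho := ord_sigma_gen hσ hdeg
  refine pow_injOn_Iio_orderOf ?_ ?_ hij
  · rw [ho]
    exact Finset.mem_range.1 hi
  · rw [ho]
    exact Finset.mem_range.1 hj

include hG hσ hdeg hζ in
theorem card_roots_gen : Nat.card {x : Additive (𝓞 L)ˣ // sl σ x = x ∧ ℓ • x = 0} = ℓ := by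
  have : NeZero ℓ := ⟨hp.out.ne_zero⟩
  have h1 : IsPrimitiveRoot (algebraMap (𝓞 K) (𝓞 L) hζ.toInteger) ℓ :=
    hζ.toInteger_isPrimitiveRoot.map_of_injective (FaithfulSMul.algebraMap_injective _ _)
  refine Eq.trans ?_ h1.card_rootsOfUnity
  refine Nat.card_congr ⟨fun x => ⟨x.1.toMul, ?_⟩, fun x => ⟨Additive.ofMul x.1, ?_, ?_⟩, ?_, ?_⟩
  · exact x.2.2
  · have h2 : (x.1 : 𝓞 L) ^ ℓ = 1 := by
      have := x.2
      rw [mem_rootsOfUnity] at this
      rw [← Units.val_pow_eq_pow_val, this, Units.val_one]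
    obtain ⟨i, _, hi⟩ := h1.eq_pow_of_pow_eq_one h2
    rw [sl_apply]
    congr 1
    apply unit_ext
    rw [su_coe, ← hi]
    change σ (algebraMap (𝓞 L) L (algebraMap (𝓞 K) (𝓞 L) hζ.toInteger ^ i)) =
      algebraMap (𝓞 L) L (algebraMap (𝓞 K) (𝓞 L) hζ.toInteger ^ i)
    rw [← map_pow, ← IsScalarTower.algebraMap_apply, IsScalarTower.algebraMap_apply (𝓞 K) K L]
    exact σ.commutes _
  · exact x.2
  · intro x; rfl
  · intro x; rfl

include hG hσ hdeg hζ in
/-- Hilbert's theorem 92 -/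
theorem exists_rel_unit_gen (htc : IsTotallyComplex K) : ∃ η : (𝓞 L)ˣ, Algebra.norm K ((η : 𝓞 L) : L) = 1 ∧
    ∀ ε : (𝓞 L)ˣ, η ≠ su σ ε / ε := by
  have hc := card_places_gen (K := K) (L := L) htc hdeg
  have hcK : 0 < Fintype.card (InfinitePlace K) := Fintype.card_pos
  have hfin := ord_sigma_gen hσ hdeg
  have hs : sl σ ^ ℓ = 1 := by
    refine LinearMap.ext fun x => ?_
    rw [← ofMul_toMul x, sl_pow, ← hfin, pow_orderOf_eq_one]
    apply congrArg
    apply unit_ext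
    rw [su_coe]
    rfl
  have hA : Module.finrank ℤ (Additive (𝓞 L)ˣ) + 1 = ℓ * (Units.rank K + 1) := by
    rw [Units.finrank_eq]
    unfold Units.rank
    rw [hc]
    have : 0 < ℓ * Fintype.card (InfinitePlace K) := Nat.mul_pos hp.out.pos hcK
    rw [Nat.sub_add_cancel this, Nat.sub_add_cancel hcK]
  have hfix : Module.finrank ℤ (LinearMap.ker (sl σ - 1)) = Units.rank K := by
    rw [← LinearEquiv.finrank_eq (ufix hσ), Units.finrank_eq]
  -- the cyclotomic field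
  have : NeZero ℓ := ⟨hp.out.ne_zero⟩
  have : NeZero ((ℓ : ℕ) : ℚ) := ⟨Nat.cast_ne_zero.2 hp.out.ne_zero⟩
  have hcyc : IsCyclotomicExtension {ℓ} ℚ (CyclotomicField ℓ ℚ) :=
    CyclotomicField.isCyclotomicExtension ℓ ℚ
  have hz := IsCyclotomicExtension.zeta_spec ℓ ℚ (CyclotomicField ℓ ℚ)
  obtain ⟨ε, hε⟩ := IsCyclotomicExtension.Rat.associated_zeta_sub_one_pow_prime ℓ hz
  have hπ : (ℓ : 𝓞 (CyclotomicField ℓ ℚ)) = ε * (hz.toInteger - 1) ^ (ℓ - 1) := by
    rw [← hε, mul_comm]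
  obtain ⟨x, hx1, hx2⟩ := hilb92 (sl σ) hs hA hfix (card_roots_gen hζ hσ hdeg) hπ
    (fun W _ t ht => exists_ringHom hz W t ht)
  refine ⟨x.toMul, ?_, fun ε h => hx2 (Additive.ofMul ε) ?_⟩
  · apply (algebraMap K L).injective
    rw [← prod_aut_gen hσ hdeg, map_one]
    rw [LinearMap.sum_apply] at hx1
    have h1 : ∀ i ∈ Finset.range ℓ, (sl σ ^ i) x = Additive.ofMul (su (σ ^ i) x.toMul) :=
      fun i _ => sl_pow σ i x.toMul
    rw [Finset.sum_congr rfl h1] at hx1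
    have h2 : ∏ i ∈ Finset.range ℓ, su (σ ^ i) x.toMul = 1 := hx1
    have h3 := congrArg (fun u : (𝓞 L)ˣ => algebraMap (𝓞 L) L (u : 𝓞 L)) h2
    simp only [Units.coe_prod, map_prod, Units.val_one, map_one] at h3
    rw [← h3]
    exact Finset.prod_congr rfl fun i _ => (su_coe (σ ^ i) x.toMul).symm
  · change x.toMul = su σ ε / ε
    exact h

include hG hσ hdeg hζ in
/-- **Hilbert's theorem 94** for number fields which contain the `ℓ`-th roots of unity -/
theorem hilb94_gen (htc : IsTotallyComplex K) (hcop : (classNumber K).Coprime ℓ)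
    (hunr : ∀ v : HeightOneSpectrum (𝓞 K), ∃ w : HeightOneSpectrum (𝓞 L), ∀ x : K,
      w.valuation L (algebraMap K L x) = v.valuation K x) : False := by
  classical
  obtain ⟨η, hη1, hη2⟩ := exists_rel_unit_gen hζ hσ hdeg htc
  have hcyc : IsCyclic (L ≃ₐ[K] L) := ⟨σ, hσ⟩
  obtain ⟨α, hα0, hα⟩ := groupCohomology.exists_mul_galRestrict_of_norm_eq_one
    (A := 𝓞 K) (B := 𝓞 L) hσ (η := (η : 𝓞 L)) hη1
  have hαL : algebraMap (𝓞 L) L α ≠ 0 :=
    (map_ne_zero_iff _ (FaithfulSMul.algebraMap_injective (𝓞 L) L)).2 hα0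
  have hα' : algebraMap (𝓞 L) L η * σ (algebraMap (𝓞 L) L α) = algebraMap (𝓞 L) L α := by
    rw [← algebraMap_galRestrict_apply (𝓞 K), ← map_mul, hα]
  have hu : ∀ i : ℕ, ∃ u : (𝓞 L)ˣ, algebraMap (𝓞 L) L α =
      algebraMap (𝓞 L) L u * (σ ^ i) (algebraMap (𝓞 L) L α) := by
    intro i
    induction i with
    | zero => exact ⟨1, by simp⟩
    | succ i ih =>
      obtain ⟨u, hu⟩ := ih
      refine ⟨u * su (σ ^ i) η, ?_⟩
      have h1 := congrArg (σ ^ i) hα'
      rw [map_mul] at h1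
      rw [Units.val_mul, map_mul, mul_assoc]
      have h2 : algebraMap (𝓞 L) L ((su (σ ^ i) η : (𝓞 L)ˣ) : 𝓞 L) =
        (σ ^ i) (algebraMap (𝓞 L) L η) := su_coe (σ ^ i) η
      have h3 : (σ ^ (i + 1)) (algebraMap (𝓞 L) L α) =
          (σ ^ i) (σ (algebraMap (𝓞 L) L α)) := by
        rw [pow_succ]
        rfl
      rw [h2, h3, h1]
      exact hu
  choose u hu using hu
  set a : K := Algebra.norm K (algebraMap (𝓞 L) L α) with ha
  obtain ⟨E, hE⟩ : ∃ E : (𝓞 L)ˣ, algebraMap (𝓞 L) L α ^ ℓ =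
      algebraMap (𝓞 L) L E * algebraMap K L a := by
    refine ⟨∏ i ∈ Finset.range ℓ, u i, ?_⟩
    rw [ha, ← prod_aut_gen hσ hdeg, Units.coe_prod, map_prod, ← Finset.prod_mul_distrib]
    rw [Finset.prod_congr rfl (fun i _ => (hu i).symm), Finset.prod_const, Finset.card_range]
  have ha0 : a ≠ 0 := by
    rw [ha]
    exact Algebra.norm_ne_zero_iff.2 hαL
  obtain ⟨v, k, hk0, hk⟩ := exists_unit_mul_pow hp.out.pos hcop a ha0 (by
    intro v
    obtain ⟨w, hw⟩ := hunr v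
    refine ⟨w.valuation L (algebraMap (𝓞 L) L α), ?_⟩
    rw [← hw, ← map_pow, hE, map_mul, w.valuation_of_algebraMap (E : 𝓞 L), val_unit, one_mul])
  -- `α / k` is a unit
  have hkL : algebraMap K L k ≠ 0 := (_root_.map_ne_zero _).2 hk0
  set y : L := algebraMap (𝓞 L) L α / algebraMap K L k with hy
  obtain ⟨F, hF⟩ : ∃ F : (𝓞 L)ˣ, y ^ ℓ = algebraMap (𝓞 L) L F := by
    refine ⟨E * Units.map (algebraMap (𝓞 K) (𝓞 L) : 𝓞 K →* 𝓞 L) v, ?_⟩
    have h1 : algebraMap (𝓞 L) L (((E * Units.map (algebraMap (𝓞 K) (𝓞 L) : 𝓞 K →* 𝓞 L) v :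
        (𝓞 L)ˣ) : 𝓞 L)) = algebraMap (𝓞 L) L E * algebraMap K L (algebraMap (𝓞 K) K v) := by
      rw [Units.val_mul, map_mul, ← IsScalarTower.algebraMap_apply]
      change algebraMap (𝓞 L) L E * algebraMap (𝓞 L) L (algebraMap (𝓞 K) (𝓞 L) v) = _
      rw [← IsScalarTower.algebraMap_apply]
    rw [h1, hy, div_pow, hE, hk, map_mul, map_pow]
    field_simp
  have i1 : IsIntegral ℤ y := by
    apply IsIntegral.of_pow hp.out.pos
    rw [hF]
    exact RingOfIntegers.isIntegral_coe _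
  have hy0 : y ≠ 0 := div_ne_zero hαL hkL
  have i2 : IsIntegral ℤ y⁻¹ := by
    apply IsIntegral.of_pow hp.out.pos
    rw [inv_pow, hF]
    have h1 : (algebraMap (𝓞 L) L F)⁻¹ = algebraMap (𝓞 L) L ((F⁻¹ : (𝓞 L)ˣ) : 𝓞 L) := by
      rw [eq_comm, ← mul_eq_one_iff_eq_inv₀
        (by rw [← hF]; exact pow_ne_zero _ hy0), ← map_mul, Units.inv_mul, map_one]
    rw [h1]
    exact RingOfIntegers.isIntegral_coe _
  let Y : (𝓞 L)ˣ := ⟨⟨y, i1⟩, ⟨y⁻¹, i2⟩, RingOfIntegers.ext (mul_inv_cancel₀ hy0),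
    RingOfIntegers.ext (inv_mul_cancel₀ hy0)⟩
  apply hη2 Y⁻¹
  apply unit_ext
  have e1 : algebraMap (𝓞 L) L (((su σ Y⁻¹ / Y⁻¹ : (𝓞 L)ˣ) : 𝓞 L)) * σ y = y := by
    have h1 : su σ Y⁻¹ / Y⁻¹ = Y / su σ Y := by
      rw [map_inv, div_eq_mul_inv, inv_inv, div_eq_mul_inv, mul_comm]
    have h2 : algebraMap (𝓞 L) L ((su σ Y : (𝓞 L)ˣ) : 𝓞 L) = σ y := su_coe σ Y
    rw [h1, ← h2, ← map_mul, ← Units.val_mul, div_mul_cancel]
    rfl
  have e2 : algebraMap (𝓞 L) L (η : 𝓞 L) * σ y = y := by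
    rw [hy, map_div₀, σ.commutes, mul_div_assoc', hα']
  have hσy : σ y ≠ 0 := (map_ne_zero_iff σ σ.injective).2 hy0
  exact mul_right_cancel₀ hσy (e2.trans e1.symm)

end hil

section prim

variable {ℓ : ℕ} [hp : Fact ℓ.Prime] {K : Type} [Field K] [NumberField K] {ζ : K}
  (hζ : IsPrimitiveRoot ζ ℓ)

/-- an `ℓ`-th root of a unit is a unit -/
theorem unit_root_gen {ℓ : ℕ} (hℓ : 0 < ℓ) (u : (𝓞 K)ˣ) {b : K}
    (hb : b ^ ℓ = algebraMap (𝓞 K) K u) : ∃ η : (𝓞 K)ˣ, u = η ^ ℓ := by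
  have i1 : IsIntegral ℤ b := by
    apply IsIntegral.of_pow hℓ
    rw [hb]
    exact RingOfIntegers.isIntegral_coe _
  obtain ⟨b', hb'⟩ : ∃ b' : 𝓞 K, algebraMap (𝓞 K) K b' = b := ⟨⟨b, i1⟩, rfl⟩
  have h1 : b' ^ ℓ = (u : 𝓞 K) := by
    apply FaithfulSMul.algebraMap_injective (𝓞 K) K
    rw [map_pow, hb', hb]
  have h2 : IsUnit b' := by
    rw [← isUnit_pow_iff hℓ.ne', h1]
    exact u.isUnit
  refine ⟨h2.unit, ?_⟩
  apply Units.ext
  rw [Units.val_pow_eq_pow_val, IsUnit.unit_spec, h1]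

include hζ in
/-- **Kummer's lemma** for number fields: a unit which is an `ℓ`-th power modulo `(ζ - 1) ^ ℓ` is an
`ℓ`-th power, if the class number is prime to `ℓ`. -/
theorem primary_gen (htc : IsTotallyComplex K) (hcop : (classNumber K).Coprime ℓ) (u : (𝓞 K)ˣ) (w : 𝓞 K)
    (hu : (hζ.toInteger - 1) ^ ℓ ∣ (u : 𝓞 K) - w ^ ℓ) : ∃ η : (𝓞 K)ˣ, u = η ^ ℓ := by
  classical
  by_contra hcon
  have hℓ := hp.out.pos
  have : NeZero ℓ := ⟨hp.out.ne_zero⟩
  have hirr : Irreducible (X ^ ℓ - C (algebraMap (𝓞 K) K u)) :=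
    X_pow_sub_C_irreducible_of_prime hp.out fun b hb => hcon (unit_root_gen hℓ u hb)
  have hne : (primitiveRoots ℓ K).Nonempty := ⟨ζ, (mem_primitiveRoots hℓ).2 hζ⟩
  let L : Type := (X ^ ℓ - C (algebraMap (𝓞 K) K u)).SplittingField
  have hfd : FiniteDimensional K L := inferInstance
  have hchar : CharZero L := charZero_of_injective_algebraMap (algebraMap K L).injective
  have hL : NumberField L :=
    { to_charZero := hchar
      to_finiteDimensional := by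
        have : FiniteDimensional ℚ L := FiniteDimensional.trans ℚ K L
        exact this }
  have hG : IsGalois K L := isGalois_of_isSplittingField_X_pow_sub_C hne hirr L
  have hcyc : IsCyclic (L ≃ₐ[K] L) := isCyclic_of_isSplittingField_X_pow_sub_C hne hirr L
  have hdeg : Module.finrank K L = ℓ := finrank_of_isSplittingField_X_pow_sub_C hne hirr L
  obtain ⟨σ, hσ⟩ := hcyc.exists_generator
  obtain ⟨θ, hθ⟩ : ∃ θ : L, θ ^ ℓ = algebraMap K L (algebraMap (𝓞 K) K u) :=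
    ⟨_, rootOfSplitsXPowSubC_pow (n := ℓ) (a := algebraMap (𝓞 K) K u) L⟩
  have hadj : Algebra.adjoin K {θ} = ⊤ :=
    Algebra.adjoin_root_eq_top_of_isSplittingField hne hirr hθ
  have hπ0 : hζ.toInteger - 1 ≠ 0 := by
    intro h
    have h1 : hζ.toInteger = 1 := sub_eq_zero.1 h
    exact hζ.toInteger_isPrimitiveRoot.ne_one hp.out.one_lt h1
  obtain ⟨ε, hε⟩ := IsCyclotomicExtension.Rat.associated_zeta_sub_one_pow_prime ℓ hζ
  obtain ⟨g, hgm, hg⟩ := exists_poly_gen hp.out hπ0 (Dvd.intro _ hε) hu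
  obtain ⟨π, hπ⟩ : ∃ π : 𝓞 K, π = hζ.toInteger - 1 := ⟨_, rfl⟩
  rw [← hπ] at hπ0 hε hg hu
  have hπL : algebraMap (𝓞 K) L π ≠ 0 :=
    (map_ne_zero_iff _ (FaithfulSMul.algebraMap_injective (𝓞 K) L)).2 hπ0
  obtain ⟨y, hy⟩ : ∃ y : L, y = (θ - algebraMap (𝓞 K) L w) / algebraMap (𝓞 K) L π := ⟨_, rfl⟩
  have hyθ : algebraMap (𝓞 K) L w + algebraMap (𝓞 K) L π * y = θ := by
    rw [hy, mul_div_cancel₀ _ hπL, add_sub_cancel]
  have hgy : aeval y g = 0 := by
    have h1 := congrArg (aeval y) hg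
    simp only [map_mul, aeval_C, map_sub, map_pow, map_add, aeval_X] at h1
    rw [hyθ, hθ, ← IsScalarTower.algebraMap_apply, sub_self] at h1
    exact (mul_eq_zero.1 h1).resolve_left (pow_ne_zero _ hπL)
  have hyint : IsIntegral (𝓞 K) y := ⟨g, hgm, hgy⟩
  have hyZ : IsIntegral ℤ y := isIntegral_trans (R := ℤ) (A := 𝓞 K) y hyint
  let Y : 𝓞 L := ⟨y, hyZ⟩
  have hYy : algebraMap (𝓞 L) L Y = y := rfl
  have hgY : aeval Y g = 0 := by
    apply FaithfulSMul.algebraMap_injective (𝓞 L) L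
    rw [← aeval_algebraMap_apply, hYy, hgy, map_zero]
  have hYtop : Algebra.adjoin K {algebraMap (𝓞 L) L Y} = ⊤ := by
    rw [← top_le_iff, ← hadj]
    apply Algebra.adjoin_le
    rintro _ rfl
    rw [SetLike.mem_coe, ← hyθ, hYy, IsScalarTower.algebraMap_apply (𝓞 K) K L,
      IsScalarTower.algebraMap_apply (𝓞 K) K L]
    exact add_mem (Subalgebra.algebraMap_mem _ _) (mul_mem (Subalgebra.algebraMap_mem _ _)
      (Algebra.subset_adjoin rfl))
  obtain ⟨T, hT⟩ : ∃ T : 𝓞 L, T = algebraMap (𝓞 K) (𝓞 L) w + algebraMap (𝓞 K) (𝓞 L) π * Y :=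
    ⟨_, rfl⟩
  have hTu : IsUnit T := by
    have h1 : T ^ ℓ = algebraMap (𝓞 K) (𝓞 L) u := by
      apply FaithfulSMul.algebraMap_injective (𝓞 L) L
      rw [hT, map_pow, map_add, map_mul, ← IsScalarTower.algebraMap_apply,
        ← IsScalarTower.algebraMap_apply, hYy, hyθ, hθ,
        ← IsScalarTower.algebraMap_apply, ← IsScalarTower.algebraMap_apply]
    rw [← isUnit_pow_iff hℓ.ne', h1]
    exact u.isUnit.map _
  have hder : IsUnit (aeval Y (derivative g)) := by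
    have h0 := congrArg derivative hg
    rw [derivative_C_mul, derivative_sub, derivative_C, sub_zero, derivative_pow, derivative_add,
      derivative_C, zero_add, derivative_C_mul, derivative_X, mul_one] at h0
    have h1 := congrArg (aeval Y) h0
    simp only [map_mul, map_pow, map_add, aeval_C, aeval_X] at h1
    rw [← hT] at h1
    have h2 : aeval Y (derivative g) = algebraMap (𝓞 K) (𝓞 L) ε * T ^ (ℓ - 1) := by
      have hπ' : algebraMap (𝓞 K) (𝓞 L) π ^ ℓ ≠ 0 := pow_ne_zero _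
        ((map_ne_zero_iff _ (FaithfulSMul.algebraMap_injective (𝓞 K) (𝓞 L))).2 hπ0)
      apply mul_left_cancel₀ hπ'
      rw [h1]
      have h3 : (ℓ : 𝓞 L) = algebraMap (𝓞 K) (𝓞 L) π ^ (ℓ - 1) * algebraMap (𝓞 K) (𝓞 L) ε := by
        rw [← map_pow, ← map_mul, hε, map_natCast]
      obtain ⟨m, hm⟩ : ∃ m, ℓ = m + 1 := ⟨ℓ - 1, by omega⟩
      have h4 : algebraMap (𝓞 K) (𝓞 L) π ^ ℓ =
          algebraMap (𝓞 K) (𝓞 L) π ^ (ℓ - 1) * algebraMap (𝓞 K) (𝓞 L) π := by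
        rw [← pow_succ, Nat.sub_add_cancel hℓ]
      have h5 : aeval Y (C (ℓ : 𝓞 K)) = (ℓ : 𝓞 L) := by
        rw [aeval_C, map_natCast]
      rw [h4]
      simp only [map_natCast] at h5 ⊢
      rw [h3]
      ring
    rw [h2]
    exact (ε.isUnit.map _).mul (hTu.pow _)
  exact hilb94_gen hζ hσ hdeg htc hcop (unram_of_unit Y hYtop g hgY hder)

end prim

end Pool.Agent.K9h38.RP
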