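import Pool.Agent.K9h38.RP.GNorm
import Pool.Agent.K9h38.RP.Hil
import Pool.Agent.K9h38.RP.Glo

/-!
# Elements of a number field which are locally `p`-th powers
-/

set_option autoImplicit false
set_option linter.unusedSectionVars false

namespace Pool.Agent.K9h38.RP

open NumberField Pool.Agent.Y715.Nr Pool.Agent.W237.RK Pool.Agent.W292.FM
open UniqueFactorizationMonoid

variable {K : Type} [Field K] [NumberField K] {p : ℕ} [hp : Fact p.Prime]

variable (p) in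
/-- the condition on the auxiliary ideal `Q` -/
def Qc (Q : Ideal (𝓞 K)) : Prop := Q = ⊤ ∨ (Q.IsPrime ∧
  ∀ b : ℚ_[p], b ^ p ≠ (Ideal.absNorm Q : ℚ_[p]) ∧
    (¬ IsTotallyComplex K → b ^ p ≠ -(Ideal.absNorm Q : ℚ_[p])))

/-- the condition on the units -/
def Un {ζ : K} (hζ : IsPrimitiveRoot ζ p) : Prop := ∀ (u : (𝓞 K)ˣ) (w : 𝓞 K),
  (hζ.toInteger - 1) ^ p ∣ (u : 𝓞 K) - w ^ p → ∃ η : (𝓞 K)ˣ, u = η ^ p

lemma od_mul {P : Ideal (𝓞 K)} {x y : 𝓞 K} (hx : x ≠ 0) (hy : y ≠ 0) :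
    od P (x * y) = od P x + od P y := by
  classical
  unfold od
  rw [← Ideal.span_singleton_mul_span_singleton, normalizedFactors_mul (by simpa using hx)
    (by simpa using hy), Multiset.count_add]

lemma od_pow' {P : Ideal (𝓞 K)} {y : 𝓞 K} (c : ℕ) : od P (y ^ c) = c * od P y := by
  classical
  unfold od
  rw [← Ideal.span_singleton_pow, normalizedFactors_pow, Multiset.count_nsmul]

variable {ζ : K} (hζ : IsPrimitiveRoot ζ p)

lemma int_norm_eq (x : 𝓞 K) :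
    (Algebra.norm ℚ (x : K) = ((Algebra.norm ℤ x).natAbs : ℚ)) ∨
      (¬ IsTotallyComplex K ∧ Algebra.norm ℚ (x : K) = -((Algebra.norm ℤ x).natAbs : ℚ)) := by
  by_cases hx : x = 0
  · left
    rw [hx]
    simp
  rcases le_total 0 (Algebra.norm ℤ x) with h2 | h2
  · left
    have h3 : ((Algebra.norm ℤ x).natAbs : ℤ) = Algebra.norm ℤ x := Int.natAbs_of_nonneg h2
    rw [← Algebra.coe_norm_int]
    conv_lhs => rw [← h3]
    rfl
  · right
    have h3 : ((Algebra.norm ℤ x).natAbs : ℤ) = -Algebra.norm ℤ x := Int.ofNat_natAbs_of_nonpos h2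
    constructor
    · intro htc
      have h1 : (0 : ℚ) < Algebra.norm ℚ (x : K) :=
        norm_pos_tc htc ((RingOfIntegers.coe_ne_zero_iff).2 hx)
      rw [← Algebra.coe_norm_int] at h1
      have h4 : 0 < Algebra.norm ℤ x := by exact_mod_cast h1
      omega
    · rw [← Algebra.coe_norm_int]
      have h4 : Algebra.norm ℤ x = -((Algebra.norm ℤ x).natAbs : ℤ) := by omega
      conv_lhs => rw [h4]
      rw [Int.cast_neg, Int.cast_natCast]

/-- the order at the auxiliary prime ideal of an element which is a local `p`-th power -/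
theorem od_dvd (hreg : (classNumber K).Coprime p) (hU : Uq K p)
    (φ : K →+* PadicAlgCl p) {Q : Ideal (𝓞 K)} (hQ : Q.IsPrime) (hQb : Q ≠ ⊥)
    (hQN : ∀ b : ℚ_[p], b ^ p ≠ (Ideal.absNorm Q : ℚ_[p]) ∧
      (¬ IsTotallyComplex K → b ^ p ≠ -(Ideal.absNorm Q : ℚ_[p]))) {x : 𝓞 K} (hx0 : x ≠ 0)
    {s : PadicAlgCl p} (hs : s ^ p = ev φ x) (hF : Fx φ s)
    (hord : ∀ P : Ideal (𝓞 K), P.IsPrime → P ≠ ⊥ → P ≠ Q → p ∣ od P x) : p ∣ od Q x := by
  classical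
  obtain ⟨β, hβ⟩ := pow_principal Q hQb
  set h := classNumber K with hh
  have hh0 : h ≠ 0 := classNumber_ne_zero K
  have hβ0 : β ≠ 0 := by
    rintro rfl
    rw [Ideal.span_singleton_eq_bot.2 (rfl : (0 : 𝓞 K) = 0)] at hβ
    exact pow_ne_zero h (show Q ≠ 0 from hQb) hβ
  have hQm : Q.IsMaximal := hQ.isMaximal hQb
  have hoQ : od Q β = h := by
    apply od_eq hQb hβ0 (J := ⊤)
    · rw [Ideal.mul_top, hβ]
    · intro h1
      exact hQ.ne_top (eq_top_iff.2 (Ideal.dvd_iff_le.1 h1))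
  have hoP : ∀ P : Ideal (𝓞 K), P.IsPrime → P ≠ ⊥ → P ≠ Q → od P β = 0 := by
    intro P hP hPb hPQ
    apply od_eq hPb hβ0 (J := Q ^ h)
    · rw [pow_zero, one_mul, hβ]
    · intro h1
      have h2 := (Ideal.prime_of_isPrime hPb hP).dvd_of_dvd_pow h1
      exact hPQ (hQm.eq_of_le hP.ne_top (Ideal.dvd_iff_le.1 h2)).symm
  -- the exponent
  obtain ⟨c, hc⟩ : ∃ c : ℕ, p ∣ od Q x + c * h := by
    refine ⟨((-(od Q x : ZMod p)) * (h : ZMod p)⁻¹).val, ?_⟩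
    have hhp : (h : ZMod p) ≠ 0 := by
      intro h1
      rw [ZMod.natCast_eq_zero_iff] at h1
      exact (Nat.Prime.coprime_iff_not_dvd hp.out).1 hreg.symm h1
    rw [← ZMod.natCast_eq_zero_iff]
    push_cast
    rw [ZMod.natCast_val, ZMod.cast_id', id_eq]
    field_simp
    ring
  have hβc : β ^ c ≠ 0 := pow_ne_zero c hβ0
  obtain ⟨u, γ, huγ⟩ := exists_unit_mul hp.out.ne_zero hreg (mul_ne_zero hx0 hβc) fun P hP hPb => by
    rw [od_mul hx0 hβc, od_pow']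
    by_cases hPQ : P = Q
    · rw [hPQ, hoQ]
      exact hc
    · rw [hoP P hP hPb hPQ, mul_zero, add_zero]
      exact hord P hP hPb hPQ
  have hφx : ev φ x ≠ 0 := (map_ne_zero_iff _ (ev_inj φ)).2 hx0
  have hu0 : ((u⁻¹ : (𝓞 K)ˣ) : 𝓞 K) ≠ 0 := Units.ne_zero _
  have hφx' : ((s ^ p : PadicAlgCl p)) ≠ 0 := by rw [hs]; exact hφx
  obtain ⟨b, hb⟩ := norm_local hU φ (x := ((β ^ c * ((u⁻¹ : (𝓞 K)ˣ) : 𝓞 K) : 𝓞 K) : K))
    (s := ev φ γ / s) (by
    rw [div_pow, div_eq_iff hφx', hs, ← map_pow]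
    change ev φ (γ ^ p) = ev φ (β ^ c * ((u⁻¹ : (𝓞 K)ˣ) : 𝓞 K)) * ev φ x
    rw [← map_mul]
    congr 1
    have h1 : (u : 𝓞 K) * ((u⁻¹ : (𝓞 K)ˣ) : 𝓞 K) = 1 := Units.mul_inv u
    linear_combination (-((u⁻¹ : (𝓞 K)ˣ) : 𝓞 K)) * huγ - γ ^ p * h1) (fun τ hτ => by
    rw [map_div₀, hF τ hτ]
    congr 1
    exact hτ _)
  have hn : (Algebra.norm ℤ β).natAbs = Ideal.absNorm Q ^ h := by
    rw [← Ideal.absNorm_span_singleton, ← hβ, map_pow]
  have hnu : (Algebra.norm ℤ ((u⁻¹ : (𝓞 K)ˣ) : 𝓞 K)).natAbs = 1 :=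
    Int.isUnit_iff_natAbs_eq.1 ((Units.isUnit _).map (Algebra.norm ℤ))
  have hab : (Algebra.norm ℤ (β ^ c * ((u⁻¹ : (𝓞 K)ˣ) : 𝓞 K))).natAbs =
      Ideal.absNorm Q ^ (c * h) := by
    rw [map_mul, map_pow, Int.natAbs_mul, Int.natAbs_pow, hn, hnu, mul_one, ← pow_mul, mul_comm h c]
  have hN := int_norm_eq (β ^ c * ((u⁻¹ : (𝓞 K)ˣ) : 𝓞 K))
  rw [hab] at hN
  by_contra hcon
  have hpc : ¬ p ∣ c := fun h1 => hcon ((Nat.dvd_add_left (h1.mul_right h)).1 hc)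
  have hph : ¬ p ∣ h := (Nat.Prime.coprime_iff_not_dvd hp.out).1 hreg.symm
  have hpch : ¬ p ∣ c * h := fun h1 => by
    rcases (Nat.Prime.dvd_mul hp.out).1 h1 with h2 | h2
    · exact hpc h2
    · exact hph h2
  have hQ0 : (Ideal.absNorm Q : ℚ_[p]) ≠ 0 := by
    intro h1
    exact (hQN 0).1 (by rw [zero_pow hp.out.ne_zero, h1])
  rcases hN with hN | ⟨htc, hN⟩
  · rw [hN] at hb
    push_cast at hb
    obtain ⟨b', hb'⟩ := pth_of_pow hQ0 hpch hb
    exact (hQN b').1 hb'.symm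
  · rw [hN] at hb
    push_cast at hb
    rcases hp.out.eq_two_or_odd' with hp2 | hodd
    · -- `p = 2`
      have hoc : Odd (c * h) := by
        rw [← Nat.not_even_iff_odd, even_iff_two_dvd, ← hp2]
        exact hpch
      rw [← hoc.neg_pow] at hb
      obtain ⟨b', hb'⟩ := pth_of_pow (neg_ne_zero.2 hQ0) hpch hb
      exact (hQN b').2 htc hb'.symm
    · have hb2 : (Ideal.absNorm Q : ℚ_[p]) ^ (c * h) = (-b) ^ p := by
        rw [hodd.neg_pow, ← hb, neg_neg]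
      obtain ⟨b', hb'⟩ := pth_of_pow hQ0 hpch hb2
      exact (hQN b').1 hb'.symm

include hζ in
/-- **Local `p`-th powers are `p`-th powers.** -/
theorem mem_of_local_gen (hun : Un hζ) (hreg : (classNumber K).Coprime p) (hU : Uq K p)
    {Q : Ideal (𝓞 K)} (hQ : Qc p Q) {Ω : Type*} [Field Ω] (j : K →+* Ω)
    (ι : Ω →+* PadicAlgCl p) {t : Ω} (ht : t ≠ 0) {a : K} (hta : t ^ p = j a)
    (hloc : ∀ τ : Au p, (∀ x : K, τ (ι (j x)) = ι (j x)) → τ (ι t) = ι t)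
    (hur : ∀ (ℓ : ℕ) [Fact ℓ.Prime] (φ : K →+* PadicAlgCl ℓ), ℓ ≠ p → pr φ ≠ Q →
      ∃ a' : K, a' ≠ 0 ∧ ‖φ a‖ = ‖φ a'‖ ^ p) : ∃ b : K, t = j b := by
  classical
  have ha0 : a ≠ 0 := by
    rintro rfl
    rw [map_zero] at hta
    exact ht ((pow_eq_zero_iff hp.out.ne_zero).1 hta)
  -- an integral multiple
  obtain ⟨x₀, y₀, hy₀, hxy⟩ := IsFractionRing.div_surjective (A := 𝓞 K) a
  have hy0 : y₀ ≠ 0 := nonZeroDivisors.ne_zero hy₀
  set y : K := algebraMap (𝓞 K) K y₀ with hy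
  have hyn : y ≠ 0 := by
    rw [hy]
    exact (map_ne_zero_iff _ RingOfIntegers.coe_injective).2 hy0
  set x : 𝓞 K := x₀ * y₀ ^ (p - 1) with hx
  have hxa : algebraMap (𝓞 K) K x = a * y ^ p := by
    rw [hx, map_mul, map_pow, ← hxy, ← hy]
    have : y ^ p = y * y ^ (p - 1) := by rw [← pow_succ', Nat.sub_add_cancel hp.out.one_le]
    rw [this]
    field_simp
  have hx0 : x ≠ 0 := by
    intro h
    rw [h, map_zero] at hxa
    exact mul_ne_zero ha0 (pow_ne_zero p hyn) hxa.symm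
  set T : Ω := t * j y with hT
  have hTx : T ^ p = j (algebraMap (𝓞 K) K x) := by
    rw [hT, mul_pow, hta, hxa, map_mul, map_pow]
  have hT0 : T ≠ 0 := mul_ne_zero ht ((map_ne_zero j).2 hyn)
  set φ : K →+* PadicAlgCl p := ι.comp j with hφ
  have hTfix : Fx φ (ι T) := by
    intro τ hτ
    rw [hT, map_mul, map_mul, hloc τ hτ]
    congr 1
    exact hτ y
  have hφe : ∀ z : 𝓞 K, Fx φ (ev φ z) := fun z τ hτ => hτ z
  have hιT : (ι T) ^ p = ev φ x := by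
    rw [← map_pow, hTx]
    rfl
  -- the orders
  have hord : ∀ P : Ideal (𝓞 K), P.IsPrime → P ≠ ⊥ → P ≠ Q → p ∣ od P x := by
    intro P hP hPb hPQ
    obtain ⟨ℓ, hℓ, hℓP⟩ := exists_prime_mem hP hPb
    have : Fact ℓ.Prime := ⟨hℓ⟩
    by_cases hℓp : ℓ = p
    · subst hℓp
      have h1 : P = pr φ := hU _ _ hP inferInstance hℓP (ell_mem φ)
      rw [h1]
      obtain ⟨a', ha', hae⟩ := val_mem hTfix ((map_ne_zero ι).2 hT0)
      refine od_pow φ hx0 ha' ?_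
      rw [← hιT, norm_pow, hae]
    · obtain ⟨ψ, hψ⟩ := exists_emb_gen hℓP
      obtain ⟨a', ha', hae⟩ := hur ℓ ψ hℓp (by rw [hψ]; exact hPQ)
      rw [← hψ]
      refine od_pow ψ hx0 (a := a' * y) (mul_ne_zero ha' hyn) ?_
      rw [ev_apply]
      change ‖ψ (algebraMap (𝓞 K) K x)‖ = _
      rw [hxa, map_mul, map_mul, map_pow, norm_mul, norm_mul, norm_pow, hae, mul_pow]
  have hord' : ∀ P : Ideal (𝓞 K), P.IsPrime → P ≠ ⊥ → p ∣ od P x := by
    intro P hP hPb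
    by_cases hPQ : P = Q
    · rcases hQ with rfl | ⟨hQ1, hQ2⟩
      · exact absurd hPQ hP.ne_top
      · rw [hPQ]
        rw [hPQ] at hPb
        exact od_dvd hreg hU φ hQ1 hPb hQ2 hx0 hιT hTfix hord
    · exact hord P hP hPb hPQ
  obtain ⟨u, γ, hxe⟩ := exists_unit_mul hp.out.ne_zero hreg hx0 hord'
  have hγ0 : γ ≠ 0 := by
    rintro rfl
    rw [zero_pow hp.out.ne_zero, mul_zero] at hxe
    exact hx0 hxe
  have hφγ : ev φ γ ≠ 0 := (map_ne_zero_iff _ (ev_inj φ)).2 hγ0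
  obtain ⟨n', hn'⟩ := loc_pow_gen hζ hU φ (x := (u : 𝓞 K)) (s := ι T / ev φ γ) (by
    rw [div_pow, hιT, hxe, map_mul, map_pow (ev φ) γ, mul_div_assoc,
      div_self (pow_ne_zero p hφγ), mul_one]) (fun τ hτ => by
    rw [map_div₀, hTfix τ hτ, hφe γ τ hτ])
  obtain ⟨η, hη⟩ := hun u n' hn'
  -- the end
  set w : 𝓞 K := η * γ with hw
  have hxw : x = w ^ p := by
    rw [hxe, hη, hw, Units.val_pow_eq_pow_val]
    ring
  have hw0 : w ≠ 0 := by
    rintro h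
    rw [h, zero_pow hp.out.ne_zero] at hxw
    exact hx0 hxw
  set W : K := algebraMap (𝓞 K) K w with hW
  have hW0 : W ≠ 0 := (map_ne_zero_iff _ RingOfIntegers.coe_injective).2 hw0
  have hjW : j W ≠ 0 := (map_ne_zero j).2 hW0
  have hμ : (T / j W) ^ p = 1 := by
    rw [div_pow, hTx, hxw, map_pow, map_pow, div_self (pow_ne_zero p hjW)]
  have : NeZero p := ⟨hp.out.ne_zero⟩
  obtain ⟨i, -, hi⟩ := (hζ.map_of_injective j.injective).eq_pow_of_pow_eq_one hμ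
  refine ⟨ζ ^ i * W / y, ?_⟩
  rw [map_div₀, map_mul, map_pow, hi, div_mul_cancel₀ _ hjW, hT,
    mul_div_cancel_right₀ _ ((map_ne_zero j).2 hyn)]

end Pool.Agent.K9h38.RP
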