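import Pool.Agent.K9h38.RP.Pr
import Pool.Agent.Y715.Nr

/-!
# The completions of a number field: density, values, unramified extensions
-/

set_option autoImplicit false
set_option linter.unusedSectionVars false

namespace Pool.Agent.K9h38.RP

open NumberField Pool.Agent.Y715.Nr Pool.Agent.W237.RK Pool.Agent.W292.FM

section approx

variable {K : Type*} [Field K] [NumberField K] {ℓ : ℕ} [hℓ : Fact ℓ.Prime]

/-- `s` is fixed by the automorphisms which fix the image of `φ` -/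
def Fx (φ : K →+* PadicAlgCl ℓ) (s : PadicAlgCl ℓ) : Prop :=
  ∀ τ : Au ℓ, (∀ x, τ (φ x) = φ x) → τ s = s

theorem approx {φ : K →+* PadicAlgCl ℓ} {s : PadicAlgCl ℓ} (h : Fx φ s) {ε : ℝ} (hε : 0 < ε) :
    ∃ a : K, ‖s - φ a‖ < ε := by
  have h1 : s ∈ IntermediateField.adjoin ℚ_[ℓ] (Set.range φ) := by
    rw [← InfiniteGalois.fixedField_fixingSubgroup (IntermediateField.adjoin ℚ_[ℓ] (Set.range φ)),
      IntermediateField.mem_fixedField_iff]
    intro τ hτ
    refine h τ fun x => ?_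
    exact (IntermediateField.mem_fixingSubgroup_iff _ _).1 hτ _
      (IntermediateField.subset_adjoin _ _ ⟨x, rfl⟩)
  have h2 : s ∈ Algebra.adjoin ℚ_[ℓ] (Set.range φ) := by
    have halg : ∀ x ∈ Set.range φ, IsAlgebraic ℚ_[ℓ] x := fun x _ =>
      Algebra.IsAlgebraic.isAlgebraic x
    rw [← IntermediateField.adjoin_toSubalgebra_of_isAlgebraic halg]
    exact h1
  have h3 : ∀ x ∈ Algebra.adjoin ℚ_[ℓ] (Set.range φ), x ∈ φ.range.topologicalClosure := by
    intro x hx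
    induction hx using Algebra.adjoin_induction with
    | mem x hx => exact subset_closure hx
    | algebraMap r =>
      change algebraMap ℚ_[ℓ] (PadicAlgCl ℓ) r ∈ closure (φ.range : Set (PadicAlgCl ℓ))
      rw [Metric.mem_closure_iff]
      intro ε hε
      obtain ⟨q, hq⟩ := Padic.rat_dense ℓ r hε
      refine ⟨φ (q : K), ⟨_, rfl⟩, ?_⟩
      rw [dist_eq_norm, map_ratCast]
      have e : algebraMap ℚ_[ℓ] (PadicAlgCl ℓ) r - (q : PadicAlgCl ℓ) =
          algebraMap ℚ_[ℓ] (PadicAlgCl ℓ) (r - q) := by rw [map_sub, map_ratCast]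
      rw [e]
      exact (PadicAlgCl.norm_extends ℓ _).trans_lt hq
    | add x y _ _ hx hy => exact add_mem hx hy
    | mul x y _ _ hx hy => exact mul_mem hx hy
  have h4 : s ∈ closure (φ.range : Set (PadicAlgCl ℓ)) := h3 s h2
  rw [Metric.mem_closure_iff] at h4
  obtain ⟨_, ⟨a, rfl⟩, ha⟩ := h4 ε hε
  exact ⟨a, by rwa [dist_eq_norm] at ha⟩

theorem val_mem {φ : K →+* PadicAlgCl ℓ} {s : PadicAlgCl ℓ} (h : Fx φ s) (hs : s ≠ 0) :
    ∃ a : K, a ≠ 0 ∧ ‖s‖ = ‖φ a‖ := by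
  have hs0 : 0 < ‖s‖ := norm_pos_iff.2 hs
  obtain ⟨a, ha⟩ := approx h hs0
  have h1 : ‖φ a‖ = ‖s‖ := by
    have e : φ a = s - (s - φ a) := by ring
    rw [e]
    have := IsUltrametricDist.norm_add_eq_max_of_norm_ne_norm (x := s) (y := -(s - φ a))
      (by rw [norm_neg]; exact ha.ne')
    rw [sub_eq_add_neg, this, norm_neg, max_eq_left ha.le]
  refine ⟨a, ?_, h1.symm⟩
  rintro rfl
  rw [map_zero, norm_zero] at h1
  exact hs0.ne h1

/-- the order is divisible by `p` if the absolute value is a `p`-th power of a value -/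
theorem od_pow (φ : K →+* PadicAlgCl ℓ) {x : 𝓞 K} (hx : x ≠ 0) {p : ℕ} {a : K} (ha : a ≠ 0)
    (h : ‖ev φ x‖ = ‖φ a‖ ^ p) : p ∣ od (pr φ) x := by
  obtain ⟨x₀, y₀, hy₀, rfl⟩ := IsFractionRing.div_surjective (A := 𝓞 K) a
  have hy0 : y₀ ≠ 0 := nonZeroDivisors.ne_zero hy₀
  have hx0 : x₀ ≠ 0 := by
    rintro rfl
    rw [map_zero, zero_div] at ha
    exact ha rfl
  obtain ⟨γ, hγ⟩ := pow_principal (pr φ) (pr_ne_bot φ)
  set n := classNumber K with hn
  have hn0 : n ≠ 0 := classNumber_ne_zero K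
  have hγm : γ ∈ pr φ := by
    have : γ ∈ pr φ ^ n := by rw [hγ]; exact Ideal.mem_span_singleton_self _
    exact Ideal.pow_le_self hn0 this
  have hγ0 : γ ≠ 0 := by
    rintro rfl
    rw [Ideal.span_singleton_eq_bot.2 (rfl : (0 : 𝓞 K) = 0)] at hγ
    exact pow_ne_zero n (show pr φ ≠ 0 from pr_ne_bot φ) hγ
  have hg1 : ‖ev φ γ‖ < 1 := hγm
  have hg0 : 0 < ‖ev φ γ‖ := by
    rw [norm_pos_iff]
    exact (map_ne_zero_iff _ (ev_inj φ)).2 hγ0
  have h1 := norm_pow_od φ hγ hx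
  have h2 := norm_pow_od φ hγ hx0
  have h3 := norm_pow_od φ hγ hy0
  have hyn : ‖ev φ y₀‖ ≠ 0 := norm_ne_zero_iff.2 ((map_ne_zero_iff _ (ev_inj φ)).2 hy0)
  have h4 : ‖ev φ x‖ * ‖ev φ y₀‖ ^ p = ‖ev φ x₀‖ ^ p := by
    rw [h, map_div₀, norm_div, div_pow]
    exact div_mul_cancel₀ _ (pow_ne_zero p hyn)
  have h5 : ‖ev φ γ‖ ^ (od (pr φ) x + p * od (pr φ) y₀) = ‖ev φ γ‖ ^ (p * od (pr φ) x₀) := by
    rw [pow_add, mul_comm p, mul_comm p, pow_mul, pow_mul, ← h1, ← h2, ← h3, ← pow_mul, mul_comm n p,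
      pow_mul, ← mul_pow, h4, ← pow_mul, ← pow_mul, mul_comm]
  have h6 := pow_right_injective₀ hg0 hg1.ne h5
  have h7 : p ∣ od (pr φ) x + p * od (pr φ) y₀ := by rw [h6]; exact dvd_mul_right _ _
  exact (Nat.dvd_add_left (dvd_mul_right _ _)).1 h7

end approx

section kur

open Polynomial

variable {ℓ : ℕ} [hℓ : Fact ℓ.Prime]

lemma coeff_mul_le {P Q : (PadicAlgCl ℓ)[X]} {a b : ℝ} (ha : 0 ≤ a) (hb : 0 ≤ b)
    (hP : ∀ n, ‖P.coeff n‖ ≤ a) (hQ : ∀ n, ‖Q.coeff n‖ ≤ b) (n : ℕ) : ‖(P * Q).coeff n‖ ≤ a * b := by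
  rw [coeff_mul]
  refine IsUltrametricDist.norm_sum_le_of_forall_le_of_nonneg (by positivity) fun x _ => ?_
  rw [norm_mul]
  exact mul_le_mul (hP _) (hQ _) (norm_nonneg _) ha

lemma coeff_prod_le {ι : Type*} (s : Finset ι) (f : ι → (PadicAlgCl ℓ)[X])
    (h : ∀ i ∈ s, ∀ n, ‖(f i).coeff n‖ ≤ 1) (n : ℕ) : ‖(∏ i ∈ s, f i).coeff n‖ ≤ 1 := by
  classical
  induction s using Finset.induction_on generalizing n with
  | empty =>
    rw [Finset.prod_empty, coeff_one]
    split_ifs <;> simp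
  | insert i s hi ih =>
    rw [Finset.prod_insert hi]
    have := coeff_mul_le zero_le_one zero_le_one (h i (Finset.mem_insert_self _ _))
      (fun n => ih (fun j hj => h j (Finset.mem_insert_of_mem hj)) n) n
    rwa [mul_one] at this

/-- roots of unity of order prime to `ℓ` have distance one -/
lemma root_dist {M : ℕ} (hM : ¬ ℓ ∣ M) {z w : PadicAlgCl ℓ} (hz : z ^ M = 1) (hw : w ^ M = 1)
    (hne : z ≠ w) : ‖z - w‖ = 1 := by
  have hM0 : M ≠ 0 := by rintro rfl; exact hM (dvd_zero _)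
  have hnz : ‖z‖ = 1 := by
    have : ‖z‖ ^ M = 1 := by rw [← norm_pow, hz, norm_one]
    exact (pow_eq_one_iff_of_nonneg (norm_nonneg _) hM0).1 this
  have hnw : ‖w‖ = 1 := by
    have : ‖w‖ ^ M = 1 := by rw [← norm_pow, hw, norm_one]
    exact (pow_eq_one_iff_of_nonneg (norm_nonneg _) hM0).1 this
  have hw0 : w ≠ 0 := by
    rintro rfl
    rw [norm_zero] at hnw
    exact zero_ne_one hnw
  have hle : ‖z - w‖ ≤ 1 := by
    rw [sub_eq_add_neg]
    refine (IsUltrametricDist.norm_add_le_max _ _).trans (max_le hnz.le ?_)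
    rw [norm_neg]
    exact hnw.le
  refine le_antisymm hle ?_
  by_contra hlt
  push Not at hlt
  -- `u = z / w` is a root of unity of order prime to `ℓ` near `1`
  set u := z / w with hu
  have hu1 : u ≠ 1 := by
    intro h
    rw [hu, div_eq_one_iff_eq hw0] at h
    exact hne h
  have hud : ‖u - 1‖ < 1 := by
    have e : u - 1 = (z - w) / w := by rw [hu]; field_simp
    rw [e, norm_div, hnw, div_one]
    exact hlt
  have huM : u ^ M = 1 := by rw [hu, div_pow, hz, hw, div_one]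
  -- `∑ u ^ i = 0`, while `∑ u ^ i` is near `M`
  have h1 : ∑ i ∈ Finset.range M, u ^ i = 0 := by
    have := geom_sum_mul u M
    rw [huM, sub_self] at this
    exact (mul_eq_zero.1 this).resolve_right (sub_ne_zero.2 hu1)
  have h2 : ‖(M : PadicAlgCl ℓ)‖ < 1 := by
    have e : (M : PadicAlgCl ℓ) = ∑ i ∈ Finset.range M, (1 - u ^ i) := by
      rw [Finset.sum_sub_distrib, h1, Finset.sum_const, Finset.card_range]
      simp
    rw [e]
    have hub : ∀ i ∈ Finset.range M, ‖1 - u ^ i‖ ≤ ‖u - 1‖ := by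
      intro i _
      have hnu : ‖u‖ ≤ 1 := by rw [hu, norm_div, hnz, hnw, div_one]
      rw [← norm_neg, neg_sub, ← geom_sum_mul, norm_mul]
      refine mul_le_of_le_one_left (norm_nonneg _) ?_
      refine IsUltrametricDist.norm_sum_le_of_forall_le_of_nonneg zero_le_one fun j _ => ?_
      rw [norm_pow]
      exact pow_le_one₀ (norm_nonneg _) hnu
    exact (IsUltrametricDist.norm_sum_le_of_forall_le_of_nonneg (norm_nonneg _) hub).trans_lt hud
  rw [norm_natCast_alg, ← Int.cast_natCast, Padic.norm_intCast_lt_one_iff] at h2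
  exact hM (by exact_mod_cast h2)

variable {K : Type*} [Field K] [NumberField K]

/-- **The value group of the maximal unramified extension of the completion.** -/
theorem kur_val {φ : K →+* PadicAlgCl ℓ} {s : PadicAlgCl ℓ} (hs : s ≠ 0)
    (h : ∀ τ : Au ℓ, (∀ x, τ (φ x) = φ x) → (∀ x ∈ kur ℓ, τ x = x) → τ s = s) :
    ∃ a : K, a ≠ 0 ∧ ‖s‖ = ‖φ a‖ := by
  classical
  set S : Set (PadicAlgCl ℓ) := Set.range φ ∪ {x | ∃ M : ℕ, ¬ ℓ ∣ M ∧ x ^ M = 1} with hS
  have h1 : s ∈ IntermediateField.adjoin ℚ_[ℓ] S := by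
    rw [← InfiniteGalois.fixedField_fixingSubgroup (IntermediateField.adjoin ℚ_[ℓ] S),
      IntermediateField.mem_fixedField_iff]
    intro τ hτ
    have hτ' := (IntermediateField.mem_fixingSubgroup_iff _ _).1 hτ
    refine h τ (fun x => ?_) (fun x hx => ?_)
    · exact hτ' _ (IntermediateField.subset_adjoin _ _ (Or.inl ⟨x, rfl⟩))
    · refine hτ' x ?_
      exact IntermediateField.adjoin.mono _ _ _ Set.subset_union_right hx
  obtain ⟨T, hTS, hsT⟩ := IntermediateField.exists_finset_of_mem_adjoin h1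
  -- the exponents
  have hex : ∀ x : PadicAlgCl ℓ, ∃ M : ℕ, ¬ ℓ ∣ M ∧ (x ∈ {x | ∃ M : ℕ, ¬ ℓ ∣ M ∧ x ^ M = 1} → x ^ M = 1) := by
    intro x
    by_cases hx : x ∈ {x : PadicAlgCl ℓ | ∃ M : ℕ, ¬ ℓ ∣ M ∧ x ^ M = 1}
    · obtain ⟨M, hM, hx'⟩ := hx
      exact ⟨M, hM, fun _ => hx'⟩
    · exact ⟨1, hℓ.out.one_lt.ne' ∘ Nat.dvd_one.1, fun hx' => absurd hx' hx⟩
  choose m hm hm' using hex
  set M : ℕ := ∏ x ∈ T, m x with hM
  have hMℓ : ¬ ℓ ∣ M := by
    intro hd
    obtain ⟨x, _, hx⟩ := (hℓ.out.prime.dvd_finsetProd_iff _).1 hd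
    exact hm x hx
  have hM0 : M ≠ 0 := by intro h0; rw [h0] at hMℓ; exact hMℓ (dvd_zero _)
  have : NeZero M := ⟨hM0⟩
  have : NeZero ((M : ℕ) : PadicAlgCl ℓ) := ⟨Nat.cast_ne_zero.2 hM0⟩
  obtain ⟨z, hz⟩ := HasEnoughRootsOfUnity.exists_primitiveRoot (PadicAlgCl ℓ) M
  -- the group
  have hfixz : ∀ τ : Au ℓ, (∀ x, τ (φ x) = φ x) → τ z = z → τ s = s := by
    intro τ hτ hτz
    have h2 : ∀ x ∈ IntermediateField.adjoin ℚ_[ℓ] (T : Set (PadicAlgCl ℓ)), τ x = x := by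
      have h3 : IntermediateField.adjoin ℚ_[ℓ] (T : Set (PadicAlgCl ℓ)) ≤
          IntermediateField.fixedField (Subgroup.zpowers τ) := by
        rw [IntermediateField.adjoin_le_iff]
        intro x hx
        have hτx : τ x = x := by
          rcases hTS hx with ⟨y, rfl⟩ | hx'
          · exact hτ y
          · have h4 : x ^ M = 1 := by
              obtain ⟨c, hc⟩ := Finset.dvd_prod_of_mem m (Finset.mem_coe.1 hx)
              rw [hM, hc, pow_mul, hm' x hx', one_pow]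
            obtain ⟨i, -, hi⟩ := hz.eq_pow_of_pow_eq_one h4
            rw [← hi, map_pow, hτz]
        rw [SetLike.mem_coe, IntermediateField.mem_fixedField_iff]
        rintro σ ⟨k, rfl⟩
        have hst : τ ∈ MulAction.stabilizer (Au ℓ) x := hτx
        exact zpow_mem hst k
      intro x hx
      exact (IntermediateField.mem_fixedField_iff _ _).1 (h3 hx) τ (Subgroup.mem_zpowers τ)
    exact h2 s hsT
  -- the orbit of `z`
  set G : Subgroup (Au ℓ) :=
    { carrier := {τ | ∀ x, τ (φ x) = φ x}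
      mul_mem' := by
        intro σ τ hσ hτ x
        rw [AlgEquiv.mul_apply, hτ, hσ]
      one_mem' := fun x => rfl
      inv_mem' := by
        intro σ hσ x
        conv_lhs => rw [← hσ x]
        rw [← AlgEquiv.mul_apply, inv_mul_cancel, AlgEquiv.one_apply] } with hG
  have hGm : ∀ {τ : Au ℓ}, τ ∈ G ↔ ∀ x, τ (φ x) = φ x := Iff.rfl
  have hfin : {w : PadicAlgCl ℓ | ∃ τ ∈ G, τ z = w}.Finite := by
    refine Set.Finite.subset (Finset.finite_toSet (nthRootsFinset M (1 : PadicAlgCl ℓ))) ?_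
    rintro w ⟨τ, -, rfl⟩
    rw [Finset.mem_coe, mem_nthRootsFinset (Nat.pos_of_ne_zero hM0), ← map_pow, hz.pow_eq_one,
      map_one]
  set O : Finset (PadicAlgCl ℓ) := hfin.toFinset with hO
  have hOm : ∀ {w}, w ∈ O ↔ ∃ τ ∈ G, τ z = w := by
    intro w
    rw [hO, Set.Finite.mem_toFinset]
    rfl
  have hf : ∀ w : PadicAlgCl ℓ, ∃ y : PadicAlgCl ℓ, ∀ τ ∈ G, τ z = w → τ s = y := by
    intro w
    by_cases hw : ∃ τ ∈ G, τ z = w
    · obtain ⟨τ, hτ, hτw⟩ := hw
      refine ⟨τ s, fun σ hσ hσw => ?_⟩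
      have h2 : (τ⁻¹ * σ) ∈ G := mul_mem (inv_mem hτ) hσ
      have h3 : (τ⁻¹ * σ) z = z := by
        rw [AlgEquiv.mul_apply, hσw, ← hτw, ← AlgEquiv.mul_apply, inv_mul_cancel,
          AlgEquiv.one_apply]
      have h4 := hfixz _ (hGm.1 h2) h3
      rw [AlgEquiv.mul_apply] at h4
      have h5 := congrArg τ h4
      rw [← AlgEquiv.mul_apply, mul_inv_cancel, AlgEquiv.one_apply] at h5
      exact h5
    · exact ⟨0, fun τ hτ hτw => absurd ⟨τ, hτ, hτw⟩ hw⟩
  choose f hf using hf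
  set P : (PadicAlgCl ℓ)[X] := Lagrange.interpolate O id f with hP
  have hinj : Set.InjOn (id : PadicAlgCl ℓ → PadicAlgCl ℓ) O := Set.injOn_id _
  have hPe : ∀ w ∈ O, P.eval w = f w := fun w hw => Lagrange.eval_interpolate_at_node f hinj hw
  have hPd : P.degree < O.card := Lagrange.degree_interpolate_lt f hinj
  -- the coefficients are invariant
  have hinv : ∀ τ ∈ G, ∀ n, τ (P.coeff n) = P.coeff n := by
    intro τ hτ n
    have h2 : P.map (τ : PadicAlgCl ℓ →+* PadicAlgCl ℓ) = P := by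
      rw [hP]
      refine Lagrange.eq_interpolate_of_eval_eq f hinj ?_ ?_
      · rw [← hP]
        exact (degree_map_le).trans_lt hPd
      · intro w hw
        rw [← hP]
        obtain ⟨σ, hσ, hσw⟩ := hOm.1 hw
        have h3 : τ⁻¹ w ∈ O := hOm.2 ⟨τ⁻¹ * σ, mul_mem (inv_mem hτ) hσ, by
          rw [AlgEquiv.mul_apply, hσw]⟩
        have h4 : w = τ (τ⁻¹ w) := by
          rw [← AlgEquiv.mul_apply, mul_inv_cancel, AlgEquiv.one_apply]
        have h5 : (P.map (τ : PadicAlgCl ℓ →+* PadicAlgCl ℓ)).eval w =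
            τ (P.eval (τ⁻¹ w)) := by
          conv_lhs => rw [h4]
          exact eval_map_apply (τ : PadicAlgCl ℓ →+* PadicAlgCl ℓ) (τ⁻¹ w)
        show (P.map (τ : PadicAlgCl ℓ →+* PadicAlgCl ℓ)).eval w = f w
        rw [h5, hPe _ h3, ← hf w σ hσ hσw,
          ← hf (τ⁻¹ w) (τ⁻¹ * σ) (mul_mem (inv_mem hτ) hσ) (by rw [AlgEquiv.mul_apply, hσw]),
          ← AlgEquiv.mul_apply, mul_inv_cancel_left]
    have h6 := congrArg (fun Q : (PadicAlgCl ℓ)[X] => Q.coeff n) h2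
    simp only [coeff_map] at h6
    exact h6
  -- the coefficients are bounded
  have hfs : ∀ w ∈ O, ‖f w‖ = ‖s‖ := by
    intro w hw
    obtain ⟨σ, hσ, hσw⟩ := hOm.1 hw
    rw [← hf w σ hσ hσw, nrm]
  have hroot : ∀ w ∈ O, w ^ M = 1 := by
    intro w hw
    obtain ⟨σ, hσ, rfl⟩ := hOm.1 hw
    rw [← map_pow, hz.pow_eq_one, map_one]
  have hbd : ∀ n, ‖P.coeff n‖ ≤ ‖s‖ := by
    intro n
    rw [hP, Lagrange.interpolate_apply, finsetSum_coeff]
    refine IsUltrametricDist.norm_sum_le_of_forall_le_of_nonneg (norm_nonneg _) fun w hw => ?_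
    rw [coeff_C_mul, norm_mul, hfs w hw]
    refine mul_le_of_le_one_right (norm_nonneg _) ?_
    unfold Lagrange.basis
    refine coeff_prod_le _ _ (fun w' hw' n => ?_) n
    unfold Lagrange.basisDivisor
    have hne : w ≠ w' := (Finset.ne_of_mem_erase hw').symm
    have hd := root_dist hMℓ (hroot w hw) (hroot w' (Finset.mem_of_mem_erase hw')) hne
    rw [coeff_C_mul, norm_mul, norm_inv]
    simp only [id_eq]
    rw [hd, inv_one, one_mul, coeff_sub, coeff_X, coeff_C]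
    have hw1 : ‖w'‖ = 1 := by
      have : ‖w'‖ ^ M = 1 := by
        rw [← norm_pow, hroot w' (Finset.mem_of_mem_erase hw'), norm_one]
      exact (pow_eq_one_iff_of_nonneg (norm_nonneg _) hM0).1 this
    split_ifs with h1 h2 h2
    · omega
    · simp
    · rw [zero_sub, norm_neg, hw1]
    · simp
  have hzO : z ∈ O := hOm.2 ⟨1, one_mem _, rfl⟩
  have hsP : s = ∑ n ∈ Finset.range (P.natDegree + 1), P.coeff n * z ^ n := by
    rw [← eval_eq_sum_range, hPe z hzO, ← hf z 1 (one_mem _) rfl, AlgEquiv.one_apply]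
  have hz1 : ‖z‖ = 1 := by
    have : ‖z‖ ^ M = 1 := by rw [← norm_pow, hz.pow_eq_one, norm_one]
    exact (pow_eq_one_iff_of_nonneg (norm_nonneg _) hM0).1 this
  obtain ⟨n, hn, hmax⟩ := IsUltrametricDist.exists_norm_finsetSum_le_of_nonempty
    (Finset.nonempty_range_iff.2 (Nat.succ_ne_zero P.natDegree)) (fun n => P.coeff n * z ^ n)
  rw [Nat.succ_eq_add_one, ← hsP, norm_mul, norm_pow, hz1, one_pow, mul_one] at hmax
  have heq : ‖P.coeff n‖ = ‖s‖ := le_antisymm (hbd n) hmax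
  have hne : P.coeff n ≠ 0 := by
    intro h0
    rw [h0, norm_zero] at heq
    exact hs (norm_eq_zero.1 heq.symm)
  obtain ⟨a, ha, hae⟩ := val_mem (φ := φ) (fun τ hτ => hinv τ hτ n) hne
  exact ⟨a, ha, by rw [← heq, hae]⟩

end kur

end Pool.Agent.K9h38.RP
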