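import Pool.Agent.N817.DensTwo

/-!
# Group theory for the density of the decomposition group, odd residue characteristic
-/

set_option autoImplicit false
set_option linter.unusedSectionVars false

namespace Pool.Agent.K9h38.RP

open Pool.Agent.Z384
open IsLocalRing Matrix

/-- a proper subgroup of a finite `p`-group is killed by a nonzero character of order `p` -/
lemma exists_char {P : Type*} [Group P] [Finite P] {p a : ℕ} [hp : Fact p.Prime]
    (hP : Nat.card P = p ^ a) {Q : Subgroup P} (hQ : Q ≠ ⊤) :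
    ∃ f : P → ZMod p, (∀ x y, f (x * y) = f x + f y) ∧ (∀ x ∈ Q, f x = 0) ∧ ∃ x, f x ≠ 0 := by
  obtain ⟨m, hm, hQm⟩ := (Nat.dvd_prime_pow hp.out).1 (hP ▸ Subgroup.card_subgroup_dvd_card Q)
  have hma : m ≠ a := by
    rintro rfl
    exact hQ (Subgroup.eq_top_of_card_eq Q (by rw [hQm, hP]))
  obtain ⟨b, rfl⟩ : ∃ b, a = b + 1 := ⟨a - 1, by omega⟩
  obtain ⟨K, hK, hQK⟩ := Sylow.exists_subgroup_card_pow_prime_le (G := P) p (n := m) (m := b)
    (by rw [hP]; exact pow_dvd_pow _ (by omega)) Q hQm (by omega)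
  have hidx : K.index = p := by
    have h1 := K.card_mul_index
    rw [hK, hP, pow_succ] at h1
    exact Nat.eq_of_mul_eq_mul_left (pow_pos hp.out.pos _) h1
  have hn : K.Normal := by
    apply Subgroup.normal_of_index_eq_minFac_card
    rw [hidx, hP, Nat.Prime.pow_minFac hp.out (by omega)]
  have hcard : Nat.card (P ⧸ K) = p := hidx
  have hcyc : IsCyclic (P ⧸ K) := isCyclic_of_prime_card hcard
  have e : Multiplicative (ZMod p) ≃* (P ⧸ K) := by
    have := zmodCyclicMulEquiv hcyc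
    rwa [hcard] at this
  refine ⟨fun x => Multiplicative.toAdd (e.symm (QuotientGroup.mk x)), fun x y => ?_, fun x hx => ?_, ?_⟩
  · show Multiplicative.toAdd (e.symm (QuotientGroup.mk (x * y))) = _
    rw [QuotientGroup.mk_mul, map_mul, toAdd_mul]
  · show Multiplicative.toAdd (e.symm (QuotientGroup.mk x)) = 0
    rw [(QuotientGroup.eq_one_iff x).2 (hQK hx), map_one, toAdd_one]
  · by_contra hcon
    push Not at hcon
    have h1 : K = ⊤ := by
      refine eq_top_iff.2 fun x _ => ?_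
      have h2 : e.symm (QuotientGroup.mk x) = 1 := by
        apply Multiplicative.toAdd.injective
        rw [toAdd_one]
        exact hcon x
      exact (QuotientGroup.eq_one_iff x).1 ((map_eq_one_iff _ e.symm.injective).1 h2)
    rw [h1, Subgroup.index_top] at hidx
    exact hp.out.one_lt.ne hidx

section abs

variable {G : Type*} [Group G] [TopologicalSpace G] [IsTopologicalGroup G]

/-- **Surjectivity**, by the theorem of Burnside -/
theorem surj_abs {p : ℕ} [hp : Fact p.Prime] (D : Subgroup G) {G₁ U : Subgroup G}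
    (hUn : U.Normal) (hUf : U.FiniteIndex) (hUo : IsOpen (U : Set G))
    (hpow : ∀ g ∈ G₁, ∃ k : ℕ, g ^ p ^ k ∈ U)
    (hD : ∀ g : G, ∃ δ ∈ D, δ⁻¹ * g ∈ G₁)
    (hkey : ∀ h : G₁ → ZMod p, IsLocallyConstant h → (∀ σ τ, h (σ * τ) = h σ + h τ) →
      (∀ σ : G₁, (σ : G) ∈ U → h σ = 0) → (∀ σ : G₁, (σ : G) ∈ D → h σ = 0) → ∀ σ, h σ = 0)
    (g : G) : ∃ δ ∈ D, δ⁻¹ * g ∈ U := by
  classical
  set U₁ : Subgroup G₁ := U.subgroupOf G₁ with hU₁
  have hn : U₁.Normal := inferInstance
  have hfi : U₁.FiniteIndex := inferInstance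
  have hfin : Finite (G₁ ⧸ U₁) := Subgroup.finite_quotient_of_finiteIndex
  have hp1 : IsPGroup p (G₁ ⧸ U₁) := by
    intro x
    obtain ⟨y, rfl⟩ := QuotientGroup.mk_surjective x
    obtain ⟨k, hk⟩ := hpow y y.2
    refine ⟨k, ?_⟩
    rw [← QuotientGroup.mk_pow]
    exact (QuotientGroup.eq_one_iff _).2 (Subgroup.mem_subgroupOf.2 (by simpa using hk))
  obtain ⟨a, ha⟩ := IsPGroup.iff_card.1 hp1
  set Q : Subgroup (G₁ ⧸ U₁) := (D.subgroupOf G₁).map (QuotientGroup.mk' U₁) with hQ
  have hQt : Q = ⊤ := by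
    by_contra hne
    obtain ⟨f, hf, hfQ, x, hx⟩ := exists_char (p := p) ha hne
    obtain ⟨y, rfl⟩ := QuotientGroup.mk'_surjective U₁ x
    apply hx
    refine hkey (fun σ => f (QuotientGroup.mk' U₁ σ)) ?_ ?_ ?_ ?_ y
    · refine IsLocallyConstant.iff_exists_open _ |>.2 fun σ => ?_
      have hop : IsOpen (U₁ : Set G₁) := hUo.preimage continuous_subtype_val
      refine ⟨(fun τ => σ⁻¹ * τ) ⁻¹' (U₁ : Set G₁),
        hop.preimage (continuous_const.mul continuous_id), by simp, fun τ hτ => ?_⟩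
      have e : QuotientGroup.mk' U₁ τ = QuotientGroup.mk' U₁ σ := (QuotientGroup.eq.2 hτ).symm
      show f (QuotientGroup.mk' U₁ τ) = _
      rw [e]
    · intro σ τ
      show f (QuotientGroup.mk' U₁ (σ * τ)) = _
      rw [map_mul, hf]
    · intro σ hσ
      have h1 : f 1 = 0 := by
        have := hf 1 1
        rw [mul_one] at this
        exact left_eq_add.1 this
      have e : QuotientGroup.mk' U₁ σ = 1 :=
        (QuotientGroup.eq_one_iff σ).2 (Subgroup.mem_subgroupOf.2 hσ)
      show f (QuotientGroup.mk' U₁ σ) = 0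
      rw [e, h1]
    · intro σ hσ
      exact hfQ _ ⟨σ, Subgroup.mem_subgroupOf.2 hσ, rfl⟩
  obtain ⟨δ, hδ, hδg⟩ := hD g
  have h1 : QuotientGroup.mk' U₁ ⟨δ⁻¹ * g, hδg⟩ ∈ Q := by rw [hQt]; trivial
  obtain ⟨δ', hδ', h2⟩ := h1
  have h3 := QuotientGroup.eq.1 h2
  refine ⟨δ * δ', mul_mem hδ (Subgroup.mem_subgroupOf.1 hδ'), ?_⟩
  have h4 := Subgroup.mem_subgroupOf.1 h3
  have e : ((δ'⁻¹ * ⟨δ⁻¹ * g, hδg⟩ : G₁) : G) = (δ * δ')⁻¹ * g := by
    push_cast
    group
  rwa [← e]

end abs

section mat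

variable {A : Type*} [CommRing A] {n : ℕ} [IsLocalRing A] {p : ℕ} [hp : Fact p.Prime]

lemma liftp (h2 : (p : A) ∈ maximalIdeal A) {X : Matrix (Fin n) (Fin n) A}
    (hX : InI (maximalIdeal A) (X - 1)) (m : ℕ) :
    InI (maximalIdeal A ^ (m + 1)) (X ^ p ^ m - 1) := by
  induction m with
  | zero => simpa using hX
  | succ m ih =>
    set Y := X ^ p ^ m with hY
    have hmon : InI (maximalIdeal A) (Y - 1) := by
      refine ih.mono ?_
      conv_rhs => rw [← pow_one (maximalIdeal A)]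
      exact Ideal.pow_le_pow_right (by omega)
    have hg : InI (maximalIdeal A) (∑ i ∈ Finset.range p, Y ^ i) := by
      have e : ∑ i ∈ Finset.range p, Y ^ i =
          (p : A) • (1 : Matrix (Fin n) (Fin n) A) + ∑ i ∈ Finset.range p, (Y ^ i - 1) := by
        rw [Finset.sum_sub_distrib, Finset.sum_const, Finset.card_range]
        rw [Nat.cast_smul_eq_nsmul]
        abel
      rw [e]
      refine InI.add (fun i j => ?_) (fun i j => ?_)
      · rw [Matrix.smul_apply, smul_eq_mul]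
        exact Ideal.mul_mem_right _ _ h2
      · rw [Matrix.sum_apply]
        refine Ideal.sum_mem _ fun k _ => ?_
        have e2 : Y ^ k - 1 = (∑ i ∈ Finset.range k, Y ^ i) * (Y - 1) := (geom_sum_mul Y k).symm
        rw [e2]
        exact hmon.mulL _ i j
    have e : X ^ p ^ (m + 1) - 1 = (Y - 1) * ∑ i ∈ Finset.range p, Y ^ i := by
      rw [mul_geom_sum, hY, ← pow_mul, ← pow_succ]
    rw [e, pow_succ (maximalIdeal A) (m + 1)]
    exact ih.mul hg

lemma liftp1 (h2 : (p : A) ∈ maximalIdeal A) {X : Matrix (Fin n) (Fin n) A} {N : ℕ}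
    (hX : InI (maximalIdeal A) ((X - 1) ^ N)) : InI (maximalIdeal A) (X ^ p ^ N - 1) := by
  set f : Matrix (Fin n) (Fin n) A →+* Matrix (Fin n) (Fin n) (ResidueField A) :=
    (residue A).mapMatrix with hf
  have hz : ∀ Z : Matrix (Fin n) (Fin n) A, InI (maximalIdeal A) Z ↔ f Z = 0 := by
    intro Z
    constructor
    · intro h
      ext i j
      exact (residue_eq_zero_iff _).2 (h i j)
    · intro h i j
      exact (residue_eq_zero_iff _).1 (congrFun (congrFun h i) j)
  have hc : CharP (ResidueField A) p := by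
    have h3 : ((p : ℕ) : ResidueField A) = 0 := by
      have : residue A (p : A) = 0 := (residue_eq_zero_iff _).2 h2
      rwa [map_natCast] at this
    exact ringChar.of_eq (CharP.ringChar_of_prime_eq_zero hp.out h3)
  rw [hz] at hX ⊢
  have hc2 : CharP (Matrix (Fin n) (Fin n) (ResidueField A)) p ∨ n = 0 := by
    rcases Nat.eq_zero_or_pos n with h | h
    · exact Or.inr h
    · have : Nonempty (Fin n) := ⟨⟨0, h⟩⟩
      exact Or.inl inferInstance
  rcases hc2 with hc2 | hn
  · rw [map_sub, map_pow, map_one] at *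
    have h3 : (f X - 1) ^ p ^ N = f X ^ p ^ N - 1 := by
      have := sub_pow_char_pow_of_commute p N (Commute.one_right (f X))
      rwa [one_pow] at this
    rw [← h3]
    obtain ⟨k, hk⟩ : ∃ k, p ^ N = N + k :=
      ⟨p ^ N - N, by have := Nat.lt_pow_self (n := N) hp.out.one_lt; omega⟩
    rw [hk, pow_add]
    have h4 : (f X - 1) ^ N = 0 := by
      have := hX
      rwa [map_sub, map_one] at this
    rw [h4, zero_mul]
  · subst hn
    exact Subsingleton.elim _ _

end mat

section rep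

variable {A : Type*} [CommRing A] [IsLocalRing A] [IsNoetherianRing A] {n : ℕ}
variable {G : Type*} [Group G] {p : ℕ} [hp : Fact p.Prime]

lemma cong_fin (hfin : Finite (ResidueField A)) (ρ : G →* GL (Fin n) A) (m : ℕ) :
    (cong ρ m).FiniteIndex := by
  have hf1 : Finite (A ⧸ maximalIdeal A) := hfin
  have hf2 : Finite (A ⧸ maximalIdeal A ^ m) :=
    Ideal.finite_quotient_pow (IsNoetherian.noetherian (maximalIdeal A)) m
  have hf3 : Finite (Matrix (Fin n) (Fin n) (A ⧸ maximalIdeal A ^ m)) := inferInstance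
  have hf4 : Finite (GL (Fin n) (A ⧸ maximalIdeal A ^ m)) := Finite.of_injective
    (fun u : GL (Fin n) (A ⧸ maximalIdeal A ^ m) =>
      (u : Matrix (Fin n) (Fin n) (A ⧸ maximalIdeal A ^ m))) Units.val_injective
  unfold cong
  infer_instance

lemma pow_mem_cong (h2 : (p : A) ∈ maximalIdeal A) (ρ : G →* GL (Fin n) A) {g : G} {N : ℕ}
    (hN : InI (maximalIdeal A) (((ρ g : Matrix (Fin n) (Fin n) A) - 1) ^ N)) (m : ℕ) :
    g ^ p ^ (N + m) ∈ cong ρ m := by
  refine mem_cong.2 ?_
  have h3 := liftp h2 (liftp1 h2 hN) m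
  have e : (ρ (g ^ p ^ (N + m)) : Matrix (Fin n) (Fin n) A) =
      ((ρ g : Matrix (Fin n) (Fin n) A) ^ p ^ N) ^ p ^ m := by
    rw [map_pow, Units.val_pow_eq_pow_val, ← pow_mul, ← pow_add]
  rw [e]
  exact h3.mono (Ideal.pow_le_pow_right (by omega))

end rep

end Pool.Agent.K9h38.RP
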