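import Mathlib

/-!
# Kummer theory for characters of order `p` of an open subgroup of a Galois group
-/

set_option autoImplicit false
set_option linter.unusedSectionVars false

namespace Pool.Agent.K9h38.RP

variable {K Ω : Type*} [Field K] [Field Ω] [Algebra K Ω] [IsGalois K Ω]

/-- A locally constant character of order `p` comes from a `p`-th root. -/
theorem exists_root {p : ℕ} [hp : Fact p.Prime] (hp0 : (p : Ω) ≠ 0) {ζ : Ω}
    (hζ : IsPrimitiveRoot ζ p) {G₁ : Subgroup (Ω ≃ₐ[K] Ω)} (hG : IsOpen (G₁ : Set (Ω ≃ₐ[K] Ω)))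
    (hfix : ∀ σ ∈ G₁, σ ζ = ζ) (h : G₁ → ZMod p)
    (hmul : ∀ σ τ, h (σ * τ) = h σ + h τ) (hc : IsLocallyConstant h) :
    ∃ s : Ω, s ≠ 0 ∧ ∀ σ : G₁, (σ : Ω ≃ₐ[K] Ω) s = ζ ^ (h σ).val * s := by
  have hpos : 0 < p := hp.out.pos
  have hζp : ζ ^ p = 1 := hζ.pow_eq_one
  have hζ0 : ζ ≠ 0 := hζ.ne_zero hp.out.ne_zero
  have hmod : ∀ n : ℕ, ζ ^ n = ζ ^ (((n : ZMod p)).val) := by
    intro n
    rw [ZMod.val_natCast]
    conv_lhs => rw [← Nat.mod_add_div n p]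
    rw [pow_add, pow_mul, hζp, one_pow, mul_one]
  have hone : h 1 = 0 := by
    have := hmul 1 1
    rw [mul_one] at this
    exact left_eq_add.1 this
  have hpw : ∀ (σ : G₁) (n : ℕ), h (σ ^ n) = n * h σ := by
    intro σ n
    induction n with
    | zero => rw [pow_zero, hone, Nat.cast_zero, zero_mul]
    | succ n ih => rw [pow_succ, hmul, ih]; push_cast; ring
  by_cases htriv : ∀ σ, h σ = 0
  · exact ⟨1, one_ne_zero, fun σ => by rw [htriv σ, map_one, ZMod.val_zero, pow_zero, one_mul]⟩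
  push Not at htriv
  obtain ⟨τ, hτ⟩ : ∃ τ, h τ = 1 := by
    obtain ⟨τ, hτ⟩ := htriv
    refine ⟨τ ^ ((h τ)⁻¹).val, ?_⟩
    rw [hpw, ZMod.natCast_zmod_val, inv_mul_cancel₀ hτ]
  have hinv : ∀ σ, h σ⁻¹ = -h σ := by
    intro σ
    have := hmul σ⁻¹ σ
    rw [inv_mul_cancel, hone] at this
    linear_combination -this
  -- the kernel
  let H₁ : Subgroup G₁ :=
    { carrier := {σ | h σ = 0}
      mul_mem' := by
        intro a b ha hb
        show h (a * b) = 0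
        rw [hmul, show h a = 0 from ha, show h b = 0 from hb, add_zero]
      one_mem' := hone
      inv_mem' := by
        intro a ha
        show h a⁻¹ = 0
        rw [hinv, show h a = 0 from ha, neg_zero] }
  have hH1 : IsOpen (H₁ : Set G₁) := hc.isOpen_fiber 0
  let H : Subgroup (Ω ≃ₐ[K] Ω) := H₁.map G₁.subtype
  have hHo : IsOpen (H : Set (Ω ≃ₐ[K] Ω)) := hG.isOpenEmbedding_subtypeVal.isOpenMap _ hH1
  let Hc : ClosedSubgroup (Ω ≃ₐ[K] Ω) := ⟨H, H.isClosed_of_isOpen hHo⟩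
  have hfx := InfiniteGalois.fixingSubgroup_fixedField Hc
  have hτn : (τ : Ω ≃ₐ[K] Ω) ∉
      (IntermediateField.fixedField (Hc : Subgroup (Ω ≃ₐ[K] Ω))).fixingSubgroup := by
    rw [hfx]
    rintro ⟨t, ht1, ht2⟩
    have e : t = τ := Subtype.ext ht2
    rw [e] at ht1
    have h2 : h τ = 0 := ht1
    rw [hτ] at h2
    exact one_ne_zero h2
  rw [IntermediateField.mem_fixingSubgroup_iff] at hτn
  push Not at hτn
  obtain ⟨x, hx, hx'⟩ := hτn
  have hxH : ∀ σ : G₁, h σ = 0 → (σ : Ω ≃ₐ[K] Ω) x = x := by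
    intro σ hσ
    exact hx ⟨σ, ⟨σ, hσ, rfl⟩⟩
  -- elements fixed by `H`
  have hcong : ∀ (t : ℕ) (σ : G₁), h σ = 0 →
      (σ : Ω ≃ₐ[K] Ω) (((τ : Ω ≃ₐ[K] Ω) ^ t) x) = ((τ : Ω ≃ₐ[K] Ω) ^ t) x := by
    intro t σ hσ
    have h3 : h ((τ ^ t)⁻¹ * σ * τ ^ t) = 0 := by
      rw [hmul, hmul, hσ, hinv]
      ring
    have h4 := hxH _ h3
    have h5 := congrArg ((τ : Ω ≃ₐ[K] Ω) ^ t) h4
    rw [← AlgEquiv.mul_apply] at h5
    have e : (τ : Ω ≃ₐ[K] Ω) ^ t * (((τ ^ t)⁻¹ * σ * τ ^ t : G₁) : Ω ≃ₐ[K] Ω) =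
        (σ : Ω ≃ₐ[K] Ω) * (τ : Ω ≃ₐ[K] Ω) ^ t := by
      push_cast
      group
    rw [e, AlgEquiv.mul_apply] at h5
    exact h5
  have hτp : ((τ : Ω ≃ₐ[K] Ω) ^ p) x = x := by
    have := hxH (τ ^ p) (by rw [hpw, CharP.cast_eq_zero, zero_mul])
    simpa using this
  -- the resolvents
  set S : ℕ → Ω := fun c => ∑ i ∈ Finset.range p, (ζ ^ c) ^ i * ((τ : Ω ≃ₐ[K] Ω) ^ i) x with hS
  have hτζ : (τ : Ω ≃ₐ[K] Ω) ζ = ζ := hfix _ τ.2
  have hSτ : ∀ c, ζ ^ c * (τ : Ω ≃ₐ[K] Ω) (S c) = S c := by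
    intro c
    have e1 : ζ ^ c * (τ : Ω ≃ₐ[K] Ω) (S c) =
        ∑ i ∈ Finset.range p, (ζ ^ c) ^ (i + 1) * ((τ : Ω ≃ₐ[K] Ω) ^ (i + 1)) x := by
      rw [hS]
      simp only
      rw [map_sum, Finset.mul_sum]
      refine Finset.sum_congr rfl fun i _ => ?_
      rw [map_mul, map_pow, map_pow, hτζ, pow_succ' (τ : Ω ≃ₐ[K] Ω), AlgEquiv.mul_apply]
      ring
    rw [e1]
    have e2 := Finset.sum_range_succ' (fun i => (ζ ^ c) ^ i * ((τ : Ω ≃ₐ[K] Ω) ^ i) x) p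
    rw [Finset.sum_range_succ] at e2
    have e3 : (ζ ^ c) ^ p * ((τ : Ω ≃ₐ[K] Ω) ^ p) x = (ζ ^ c) ^ 0 * ((τ : Ω ≃ₐ[K] Ω) ^ 0) x := by
      rw [hτp, ← pow_mul, mul_comm c p, pow_mul, hζp, one_pow, pow_zero, pow_zero]
      rfl
    rw [e3] at e2
    exact (add_right_cancel e2).symm
  have hSsum : ∑ c ∈ Finset.range p, S c = p * x := by
    rw [hS]
    simp only
    rw [Finset.sum_comm]
    have e1 : ∀ i ∈ Finset.range p, ∑ c ∈ Finset.range p, (ζ ^ c) ^ i * ((τ : Ω ≃ₐ[K] Ω) ^ i) x =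
        if i = 0 then p * x else 0 := by
      intro i hi
      rw [← Finset.sum_mul]
      split_ifs with h0
      · subst h0
        simp
      · have e2 : ∑ c ∈ Finset.range p, (ζ ^ c) ^ i = ∑ c ∈ Finset.range p, (ζ ^ i) ^ c :=
          Finset.sum_congr rfl fun c _ => by rw [← pow_mul, ← pow_mul, mul_comm]
        have h1 : IsPrimitiveRoot (ζ ^ i) p := by
          apply hζ.pow_of_coprime
          rw [Nat.coprime_comm]
          exact (Nat.Prime.coprime_iff_not_dvd hp.out).2 fun h2 =>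
            absurd (Nat.le_of_dvd (Nat.pos_of_ne_zero h0) h2) (not_le.2 (Finset.mem_range.1 hi))
        rw [e2, h1.geom_sum_eq_zero hp.out.one_lt, zero_mul]
    rw [Finset.sum_congr rfl e1, Finset.sum_ite_eq' (Finset.range p) 0, if_pos (Finset.mem_range.2 hpos)]
  obtain ⟨c, hcr, hc0, hSc⟩ : ∃ c ∈ Finset.range p, c ≠ 0 ∧ S c ≠ 0 := by
    by_contra hcon
    push Not at hcon
    have e1 : ∑ c ∈ Finset.range p, S c = S 0 := by
      refine Finset.sum_eq_single_of_mem 0 (Finset.mem_range.2 hpos) fun c hc hne => hcon c hc hne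
    rw [hSsum] at e1
    have e2 := hSτ 0
    rw [pow_zero, one_mul, ← e1, map_mul, map_natCast] at e2
    exact hx' (mul_left_cancel₀ hp0 e2)
  have hcp : ((c : ℕ) : ZMod p) ≠ 0 := by
    intro h0
    rw [ZMod.natCast_eq_zero_iff] at h0
    exact absurd (Nat.le_of_dvd (Nat.pos_of_ne_zero hc0) h0) (not_le.2 (Finset.mem_range.1 hcr))
  set e : ℕ := (-((c : ZMod p)⁻¹)).val with he
  set s : Ω := (S c) ^ e with hs
  have hs0 : s ≠ 0 := pow_ne_zero _ hSc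
  have hsτ : (τ : Ω ≃ₐ[K] Ω) s = ζ * s := by
    have e1 : (ζ ^ c) ^ e * (τ : Ω ≃ₐ[K] Ω) s = s := by
      rw [hs, map_pow, ← mul_pow, hSτ]
    have e2 : ζ * (ζ ^ c) ^ e = 1 := by
      rw [← pow_mul, ← pow_succ', hmod]
      have : ((c * e + 1 : ℕ) : ZMod p) = 0 := by
        push_cast
        rw [he, ZMod.natCast_zmod_val, mul_neg, mul_inv_cancel₀ hcp, neg_add_cancel]
      rw [this, ZMod.val_zero, pow_zero]
    calc (τ : Ω ≃ₐ[K] Ω) s = (ζ * (ζ ^ c) ^ e) * (τ : Ω ≃ₐ[K] Ω) s := by rw [e2, one_mul]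
      _ = ζ * ((ζ ^ c) ^ e * (τ : Ω ≃ₐ[K] Ω) s) := by ring
      _ = ζ * s := by rw [e1]
  have hsH : ∀ σ : G₁, h σ = 0 → (σ : Ω ≃ₐ[K] Ω) s = s := by
    intro σ hσ
    rw [hs, map_pow, hS]
    simp only
    rw [map_sum]
    congr 1
    refine Finset.sum_congr rfl fun i _ => ?_
    rw [map_mul, map_pow, map_pow, hfix _ σ.2, hcong i σ hσ]
  have hpow : ∀ n : ℕ, ((τ : Ω ≃ₐ[K] Ω) ^ n) s = ζ ^ n * s := by
    intro n
    induction n with
    | zero => rw [pow_zero, pow_zero, AlgEquiv.one_apply, one_mul]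
    | succ n ih =>
      rw [pow_succ', AlgEquiv.mul_apply, ih, map_mul, map_pow, hτζ, hsτ]
      ring
  refine ⟨s, hs0, fun σ => ?_⟩
  have hn : h (τ ^ (h σ).val) = h σ := by
    rw [hpw, hτ, mul_one, ZMod.natCast_zmod_val]
  have h9 := hsH ((τ ^ (h σ).val)⁻¹ * σ) (by rw [hmul, hinv, hn, neg_add_cancel])
  have h10 := congrArg ((τ : Ω ≃ₐ[K] Ω) ^ (h σ).val) h9
  rw [← AlgEquiv.mul_apply, hpow] at h10
  have e3 : (τ : Ω ≃ₐ[K] Ω) ^ (h σ).val * (((τ ^ (h σ).val)⁻¹ * σ : G₁) : Ω ≃ₐ[K] Ω) =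
      (σ : Ω ≃ₐ[K] Ω) := by
    push_cast
    group
  rw [e3] at h10
  exact h10

end Pool.Agent.K9h38.RP
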