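import Pool.Agent.K9h38.RP.Glo
import Pool.Agent.K9h38.RP.Kum
import Pool.Agent.K9h38.RP.Grp

/-!
# Density of the decomposition group at an odd regular prime number `p`
-/

set_option autoImplicit false
set_option linter.unusedSectionVars false

namespace Pool.Agent.K9h38.RP

open Pool.Agent.N817 Pool.Agent.Z384
open Pool.Agent.Y715.Red Pool.Agent.Y715.Nr Pool.Agent.W237.RK
open Pool.Agent.Y715.Gi (QB)
open IsLocalRing Matrix NumberField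

/-- the decomposition group in the absolute Galois group of `ℚ` -/
def Dp {p : ℕ} [Fact p.Prime] (ι : QB →ₐ[ℚ] PadicAlgCl p) : Subgroup GQ where
  carrier := {σ | ∃ τ : Au p, ∀ x, τ (ι x) = ι (σ x)}
  mul_mem' := by
    rintro σ σ' ⟨τ, h⟩ ⟨τ', h'⟩
    refine ⟨τ * τ', fun x => ?_⟩
    rw [AlgEquiv.mul_apply, AlgEquiv.mul_apply, h', h]
  one_mem' := ⟨1, fun _ => rfl⟩
  inv_mem' := by
    rintro σ ⟨τ, h⟩
    refine ⟨τ⁻¹, fun x => ?_⟩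
    have h5 := h (σ⁻¹ x)
    rw [← AlgEquiv.mul_apply σ σ⁻¹, mul_inv_cancel, AlgEquiv.one_apply] at h5
    rw [← h5, ← AlgEquiv.mul_apply τ⁻¹ τ, inv_mul_cancel, AlgEquiv.one_apply]

/-- the automorphisms which fix `z` -/
def Gz (z : QB) : Subgroup GQ where
  carrier := {σ | σ z = z}
  mul_mem' := by
    intro σ τ hσ hτ
    show (σ * τ) z = z
    rw [AlgEquiv.mul_apply, show τ z = z from hτ, show σ z = z from hσ]
  one_mem' := rfl
  inv_mem' := by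
    intro σ hσ
    show σ⁻¹ z = z
    conv_lhs => rw [← show σ z = z from hσ]
    rw [← AlgEquiv.mul_apply, inv_mul_cancel, AlgEquiv.one_apply]

lemma mem_Gz {z : QB} {σ : GQ} : σ ∈ Gz z ↔ σ z = z := Iff.rfl

lemma fix_le_Gz (z : QB) : (IntermediateField.adjoin ℚ {z}).fixingSubgroup ≤ Gz z := by
  intro σ hσ
  exact (IntermediateField.mem_fixingSubgroup_iff _ _).1 hσ z
    (IntermediateField.mem_adjoin_simple_self _ _)

lemma int_QB (z : QB) : IsIntegral ℚ z :=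
  (Algebra.IsAlgebraic.isAlgebraic (R := ℚ) (A := QB) z).isIntegral

lemma Gz_open (z : QB) : IsOpen (Gz z : Set GQ) := by
  have := IntermediateField.adjoin.finiteDimensional (int_QB z)
  exact Subgroup.isOpen_mono (fix_le_Gz z)
    (IntermediateField.fixingSubgroup_isOpen (IntermediateField.adjoin ℚ {z}))

lemma conj_mem_Gz {p : ℕ} [hp : Fact p.Prime] {z : QB} (hz : IsPrimitiveRoot z p) {σ : GQ}
    (hσ : σ ∈ Gz z) (r : GQ) : r * σ * r⁻¹ ∈ Gz z := by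
  have : NeZero p := ⟨hp.out.ne_zero⟩
  have h1 : (r⁻¹ z) ^ p = 1 := by rw [← map_pow, hz.pow_eq_one, map_one]
  obtain ⟨i, -, hi⟩ := hz.eq_pow_of_pow_eq_one h1
  rw [mem_Gz, AlgEquiv.mul_apply, AlgEquiv.mul_apply, ← hi, map_pow, mem_Gz.1 hσ, hi,
    ← AlgEquiv.mul_apply, mul_inv_cancel, AlgEquiv.one_apply]

lemma range_of_fix {K : Type} [Field K] [Algebra ℚ K] (j : K →ₐ[ℚ] QB) (ζ : K) {x : QB}
    (hx : ∀ σ ∈ Gz (j ζ), σ x = x) : ∃ a : K, x = j a := by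
  have h1 : x ∈ IntermediateField.adjoin ℚ {j ζ} := by
    rw [← InfiniteGalois.fixedField_fixingSubgroup (IntermediateField.adjoin ℚ {j ζ}),
      IntermediateField.mem_fixedField_iff]
    intro σ hσ
    exact hx σ (fix_le_Gz _ hσ)
  have h2 : IntermediateField.adjoin ℚ {j ζ} ≤ j.fieldRange := by
    rw [IntermediateField.adjoin_simple_le_iff]
    exact ⟨ζ, rfl⟩
  obtain ⟨a, ha⟩ := h2 h1
  exact ⟨a, ha.symm⟩

section cyc

variable {K : Type} [Field K] [NumberField K] {p : ℕ} [hp : Fact p.Prime]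
  [hK : IsCyclotomicExtension {p} ℚ K] {ζ : K} (hζ : IsPrimitiveRoot ζ p)

include hK hζ in
lemma fix_range {j : K →ₐ[ℚ] QB} {σ : GQ} (h : σ (j ζ) = j ζ) (x : K) : σ (j x) = j x := by
  have : NeZero p := ⟨hp.out.ne_zero⟩
  have h1 : (σ : QB →ₐ[ℚ] QB).comp j = j := by
    apply (hζ.powerBasis ℚ).algHom_ext
    rw [IsPrimitiveRoot.powerBasis_gen]
    exact h
  exact congrArg (fun k : K →ₐ[ℚ] QB => k x) h1

/-- extension of embeddings -/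
lemma exists_ext {ℓ : ℕ} [Fact ℓ.Prime] (j : K →ₐ[ℚ] QB) (φ : K →+* PadicAlgCl ℓ) :
    ∃ ι : QB →ₐ[ℚ] PadicAlgCl ℓ, ∀ x, ι (j x) = φ x := by
  let _ : Algebra K QB := j.toRingHom.toAlgebra
  let _ : Algebra K (PadicAlgCl ℓ) := φ.toAlgebra
  have hst : IsScalarTower ℚ K QB :=
    IsScalarTower.of_algebraMap_eq (fun x => (j.commutes x).symm)
  have halg : Algebra.IsAlgebraic K QB := Algebra.IsAlgebraic.tower_top (K := ℚ) K
  let ι : QB →ₐ[K] PadicAlgCl ℓ := IsAlgClosed.lift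
  exact ⟨RingHom.toRatAlgHom ι.toRingHom, fun x => ι.commutes x⟩

include hK hζ in
/-- **The key.** -/
theorem key (hp2 : 2 < p) (hreg : (classNumber K).Coprime p) {q : ℕ} (hq : q.Prime)
    (hqo : orderOf (q : ZMod (p ^ 2)) = p * (p - 1)) (j : K →ₐ[ℚ] QB) {W : Subgroup GQ}
    (hram : ∀ (ℓ : ℕ) [Fact ℓ.Prime] (ι : QB →ₐ[ℚ] PadicAlgCl ℓ), ℓ ≠ p → ℓ ≠ q →
      ∀ σ ∈ IQ ι, σ ∈ W)
    (ι₀ : QB →ₐ[ℚ] PadicAlgCl p) (h : Gz (j ζ) → ZMod p) (hc : IsLocallyConstant h)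
    (hm : ∀ σ τ, h (σ * τ) = h σ + h τ)
    (hW : ∀ σ : Gz (j ζ), (σ : GQ) ∈ W → h σ = 0)
    (hD : ∀ σ : Gz (j ζ), (σ : GQ) ∈ Dp ι₀ → h σ = 0) (σ : Gz (j ζ)) : h σ = 0 := by
  have hpr : IsPrimitiveRoot (j ζ) p := hζ.map_of_injective j.injective
  have : NeZero p := ⟨hp.out.ne_zero⟩
  obtain ⟨s, hs0, hs⟩ := exists_root (K := ℚ) (Ω := QB) (p := p)
    (Nat.cast_ne_zero.2 hp.out.ne_zero) hpr (Gz_open _) (fun σ hσ => hσ) h hm hc
  have hfix : ∀ σ : Gz (j ζ), h σ = 0 → (σ : GQ) s = s := by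
    intro σ h0
    rw [hs, h0, ZMod.val_zero, pow_zero, one_mul]
  obtain ⟨a, ha⟩ := range_of_fix j ζ (x := s ^ p) (fun τ hτ => by
    have h1 := hs ⟨τ, hτ⟩
    rw [map_pow]
    change (τ s) ^ p = s ^ p
    have h2 : τ s = (j ζ) ^ (h ⟨τ, hτ⟩).val * s := h1
    rw [h2, mul_pow, ← pow_mul, mul_comm _ p, pow_mul, hpr.pow_eq_one, one_pow, one_mul])
  have hgal : ∀ τ : Au p, τ (ι₀ (j ζ)) = ι₀ (j ζ) → τ (ι₀ s) = ι₀ s := by
    intro τ hτ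
    obtain ⟨σ, hσ⟩ := exists_cmpQ ι₀ τ
    have h1 : σ (j ζ) = j ζ := by
      apply ι₀.injective
      show ι₀ (σ (j ζ)) = ι₀ (j ζ)
      rw [← hσ, hτ]
    rw [hσ, hfix ⟨σ, h1⟩ (hD _ ⟨τ, hσ⟩)]
  obtain ⟨b, hb⟩ := mem_of_local hζ hp2 hreg hq hqo (j : K →+* QB) (ι₀ : QB →+* PadicAlgCl p) hs0
    (a := a) ha hgal (fun ℓ _ φ hℓp hℓq y hy => by
      obtain ⟨ι, hι⟩ := exists_ext j φ
      have hT0 : s * j y ≠ 0 := mul_ne_zero hs0 ((map_ne_zero j).2 hy)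
      have hmem : ι (s * j y) ∈ kur ℓ := mem_kur fun τ hτ => by
        obtain ⟨σ, hσ⟩ := exists_cmpQ ι τ
        have h1 : ι (j ζ) ∈ kur ℓ := by
          apply IntermediateField.subset_adjoin
          refine ⟨p, fun h4 => ?_, ?_⟩
          · exact hℓp ((Nat.prime_dvd_prime_iff_eq Fact.out hp.out).1 h4)
          · rw [← map_pow, hpr.pow_eq_one, map_one]
        have h2 : σ (j ζ) = j ζ := by
          apply ι.injective
          show ι (σ (j ζ)) = ι (j ζ)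
          rw [← hσ, hτ _ h1]
        have h3 : σ ∈ W := hram ℓ ι hℓp hℓq σ ⟨τ, hσ, inert_of_kur hτ⟩
        have h4 : σ s = s := hfix ⟨σ, h2⟩ (hW _ h3)
        rw [hσ, map_mul, h4, fix_range hζ h2]
      obtain ⟨m, hm⟩ := norm_ne ((map_ne_zero ι).2 hT0) hmem
      refine ⟨m, ?_⟩
      have e : φ (a * y ^ p) = (ι (s * j y)) ^ p := by
        rw [← hι, map_mul, map_pow, ← ha, ← mul_pow, map_pow]
      rw [e, norm_pow, hm, mul_comm, _root_.zpow_mul, zpow_natCast])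
  have h1 : (σ : GQ) s = s := by
    rw [hb]
    exact fix_range hζ σ.2 b
  rw [hs] at h1
  have h2 : (j ζ) ^ (h σ).val = 1 := mul_right_cancel₀ hs0 (by rw [h1, one_mul])
  have h3 := hpr.dvd_of_pow_eq_one _ h2
  have h4 : (h σ).val < p := ZMod.val_lt _
  have h5 : (h σ).val = 0 := Nat.eq_zero_of_dvd_of_lt h3 h4
  exact (ZMod.val_eq_zero _).1 h5

end cyc

/-- **Surjectivity** of the decomposition group. -/
theorem surjW {p : ℕ} [hp : Fact p.Prime] (hp2 : 2 < p)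
    (hreg : (classNumber (CyclotomicField p ℚ)).Coprime p) {q : ℕ} (hq : q.Prime)
    (hqo : orderOf (q : ZMod (p ^ 2)) = p * (p - 1)) {z : QB} (hz : IsPrimitiveRoot z p)
    {W : Subgroup GQ} (hWn : W.Normal) (hWf : W.FiniteIndex) (hWo : IsOpen (W : Set GQ))
    (hpow : ∀ g ∈ Gz z, ∃ k : ℕ, g ^ p ^ k ∈ W)
    (hram : ∀ (ℓ : ℕ) [Fact ℓ.Prime] (ι : QB →ₐ[ℚ] PadicAlgCl ℓ), ℓ ≠ p → ℓ ≠ q →
      ∀ σ ∈ IQ ι, σ ∈ W)
    (ι₀ : QB →ₐ[ℚ] PadicAlgCl p) (g : GQ) : ∃ δ ∈ Dp ι₀, δ⁻¹ * g ∈ W := by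
  have : NeZero p := ⟨hp.out.ne_zero⟩
  have : NeZero ((p : ℕ) : ℚ) := ⟨Nat.cast_ne_zero.2 hp.out.ne_zero⟩
  have hcyc : IsCyclotomicExtension {p} ℚ (CyclotomicField p ℚ) :=
    CyclotomicField.isCyclotomicExtension p ℚ
  obtain ⟨j, ζ, hζ, hjz⟩ : ∃ (j : CyclotomicField p ℚ →ₐ[ℚ] QB) (ζ : CyclotomicField p ℚ),
      IsPrimitiveRoot ζ p ∧ j ζ = z := by
    let j : CyclotomicField p ℚ →ₐ[ℚ] QB := IsAlgClosed.lift
    have h1 := IsCyclotomicExtension.zeta_spec p ℚ (CyclotomicField p ℚ)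
    obtain ⟨i, -, hi, hi'⟩ := ((h1.map_of_injective j.injective).isPrimitiveRoot_iff).1 hz
    refine ⟨j, (IsCyclotomicExtension.zeta p ℚ (CyclotomicField p ℚ)) ^ i, h1.pow_of_coprime i hi, ?_⟩
    rw [map_pow]
    exact hi'
  subst hjz
  refine surj_abs (p := p) (Dp ι₀) (G₁ := Gz (j ζ)) hWn hWf hWo hpow ?_ ?_ g
  · intro g
    have h1 : IsPrimitiveRoot (ι₀ (g (j ζ))) p :=
      (hz.map_of_injective g.injective).map_of_injective ι₀.injective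
    obtain ⟨τ, hτ⟩ := exists_aut (hz.map_of_injective ι₀.injective) h1
    obtain ⟨σ, hσ⟩ := exists_cmpQ ι₀ τ
    refine ⟨σ, ⟨τ, hσ⟩, ?_⟩
    have h2 : σ (j ζ) = g (j ζ) := by
      apply ι₀.injective
      show ι₀ (σ (j ζ)) = ι₀ (g (j ζ))
      rw [← hσ]
      exact hτ
    rw [mem_Gz, AlgEquiv.mul_apply, ← h2, ← AlgEquiv.mul_apply, inv_mul_cancel, AlgEquiv.one_apply]
  · intro h hc hm hW hD σ
    exact key hζ hp2 hreg hq hqo j hram ι₀ h hc hm hW hD σ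

lemma mem_of_pows {G : Type*} [Group G] {W : Subgroup G} {w : G} {a b : ℕ} (hab : a.Coprime b)
    (ha : w ^ a ∈ W) (hb : w ^ b ∈ W) : w ∈ W := by
  have h1 := Nat.gcd_eq_gcd_ab a b
  rw [hab] at h1
  have h2 : w = (w ^ a) ^ (Nat.gcdA a b) * (w ^ b) ^ (Nat.gcdB a b) := by
    conv_lhs => rw [← zpow_one w]
    rw [Nat.cast_one] at h1
    rw [h1, _root_.zpow_add, _root_.zpow_mul, _root_.zpow_mul, zpow_natCast, zpow_natCast]
  rw [h2]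
  exact mul_mem (zpow_mem ha _) (zpow_mem hb _)

variable {A : Type*} [CommRing A] [IsLocalRing A] [IsNoetherianRing A] [TopologicalSpace A] {n : ℕ}

/-- **The decomposition group at `p` is dense in the image.** -/
theorem denseHp {p : ℕ} [hp : Fact p.Prime] (hp2 : 2 < p)
    (hreg : (classNumber (CyclotomicField p ℚ)).Coprime p) {q : ℕ} (hq : q.Prime)
    (hqo : orderOf (q : ZMod (p ^ 2)) = p * (p - 1)) {z : QB} (hz : IsPrimitiveRoot z p)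
    {H N : Subgroup GQ} (hNH : N ≤ H) (hNz : N ≤ Gz z) (hNf : N.FiniteIndex)
    (hNo : IsOpen (N : Set GQ)) (hNp : ∀ g ∈ Gz z, ∃ k : ℕ, g ^ p ^ k ∈ N)
    (hur : ∀ (ℓ : ℕ) [Fact ℓ.Prime] (ι : QB →ₐ[ℚ] PadicAlgCl ℓ), ℓ ≠ p → ℓ ≠ q →
      ∀ σ ∈ IQ ι, σ ∈ N)
    (hA : IsAdic (maximalIdeal A)) (hfin : Finite (ResidueField A)) (h2 : (p : A) ∈ maximalIdeal A)
    {ρ : H →* GL (Fin n) A}
    (hρ : ∀ i j, Continuous fun σ => (ρ σ : Matrix (Fin n) (Fin n) A) i j)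
    (hres : ∀ σ : H, (σ : GQ) ∈ Gz z →
      ∃ M : ℕ, InI (maximalIdeal A) (((ρ σ : Matrix (Fin n) (Fin n) A) - 1) ^ M))
    (hu : ∀ (ℓ : ℕ) [Fact ℓ.Prime] (ι : QB →ₐ[ℚ] PadicAlgCl ℓ), ℓ ≠ p → ℓ ≠ q →
      ∀ σ : H, (σ : GQ) ∈ IQ ι → ρ σ = 1)
    (ι₀ : QB →ₐ[ℚ] PadicAlgCl p) (m : ℕ) (h : H) :
    ∃ δ ∈ (Dp ι₀).subgroupOf H, δ⁻¹ * h ∈ cong ρ m := by
  have hHf : H.FiniteIndex := Subgroup.finiteIndex_of_le hNH
  have hHo : IsOpen (H : Set GQ) := Subgroup.isOpen_mono hNH hNo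
  set U := cong ρ m with hU
  have hUf : U.FiniteIndex := cong_fin hfin ρ m
  have hUo : IsOpen (U : Set H) := cong_open hA hρ m
  set W : Subgroup GQ := U.map H.subtype ⊓ N with hW
  have hWo : IsOpen (W : Set GQ) := by
    refine IsOpen.inter ?_ hNo
    exact hHo.isOpenEmbedding_subtypeVal.isOpenMap _ hUo
  have hmf : (U.map H.subtype).FiniteIndex := ⟨by
    rw [Subgroup.index_map_subtype]
    exact mul_ne_zero hUf.index_ne_zero hHf.index_ne_zero⟩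
  have hWf : W.FiniteIndex := inferInstance
  have hCf : W.normalCore.FiniteIndex := inferInstance
  have hWc : IsClosed (W : Set GQ) := Subgroup.isClosed_of_isOpen _ hWo
  have hCo : IsOpen (W.normalCore : Set GQ) :=
    Subgroup.isOpen_of_isClosed_of_finiteIndex _ (W.normalCore_isClosed hWc)
  have hCn : W.normalCore.Normal := W.normalCore_normal
  -- powers
  have hpw : ∀ w ∈ Gz z, ∃ k : ℕ, w ^ p ^ k ∈ W := by
    intro w hw
    obtain ⟨k, hk⟩ := hNp w hw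
    set v : H := ⟨w ^ p ^ k, hNH hk⟩ with hv
    obtain ⟨M, hM⟩ := hres v (hNz hk)
    have h3 := pow_mem_cong h2 ρ hM m
    refine ⟨k + (M + m), ?_, ?_⟩
    · refine ⟨v ^ p ^ (M + m), h3, ?_⟩
      show (w ^ p ^ k) ^ p ^ (M + m) = _
      rw [← pow_mul, ← pow_add]
    · rw [pow_add, pow_mul]
      exact pow_mem hk _
  have hpow : ∀ g ∈ Gz z, ∃ k : ℕ, g ^ p ^ k ∈ W.normalCore := by
    intro g hg
    have hfinQ : Finite (GQ ⧸ W.normalCore) := Subgroup.finite_quotient_of_finiteIndex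
    have ho : orderOf (QuotientGroup.mk g : GQ ⧸ W.normalCore) ≠ 0 :=
      (orderOf_pos _).ne'
    obtain ⟨e, o, hpo, heo⟩ := Nat.exists_eq_pow_mul_and_not_dvd ho p hp.out.ne_one
    refine ⟨e, ?_⟩
    have h5 : g ^ (p ^ e * o) ∈ W.normalCore := by
      rw [← heo, ← QuotientGroup.eq_one_iff, QuotientGroup.mk_pow]
      exact pow_orderOf_eq_one _
    intro r
    have h6 : r * g ^ p ^ e * r⁻¹ ∈ Gz z := conj_mem_Gz hz (pow_mem hg _) r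
    obtain ⟨k, hk⟩ := hpw _ h6
    refine mem_of_pows (a := o) (b := p ^ k) ?_ ?_ hk
    · exact Nat.Coprime.pow_right _ ((Nat.Prime.coprime_iff_not_dvd hp.out).2 hpo).symm
    · rw [conj_pow, ← pow_mul]
      exact W.normalCore_le (hCn.conj_mem _ h5 r)
  have hram : ∀ (ℓ : ℕ) [Fact ℓ.Prime] (ι : QB →ₐ[ℚ] PadicAlgCl ℓ), ℓ ≠ p → ℓ ≠ q →
      ∀ σ ∈ IQ ι, σ ∈ W.normalCore := by
    intro ℓ _ ι hℓ hℓq σ hσ r
    have h1 : r * σ * r⁻¹ ∈ IQ (ι.comp (r⁻¹ : GQ).toAlgHom) := by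
      have := IQ_conj hσ r⁻¹
      rwa [inv_inv] at this
    have h2' : r * σ * r⁻¹ ∈ N := hur ℓ _ hℓ hℓq _ h1
    refine ⟨⟨⟨r * σ * r⁻¹, hNH h2'⟩, ?_, rfl⟩, h2'⟩
    show GeneralLinearGroup.map (n := Fin n) (Ideal.Quotient.mk (maximalIdeal A ^ m)) (ρ _) = 1
    rw [hu ℓ _ hℓ hℓq _ h1, map_one]
  obtain ⟨δ, hδ, hδU⟩ := surjW hp2 hreg hq hqo hz hCn hCf hCo hpow hram ι₀ (h : GQ)
  have h3 : δ⁻¹ * (h : GQ) ∈ W := W.normalCore_le hδU
  obtain ⟨⟨u, hu1, hu2⟩, h4⟩ := h3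
  have hu2' : (u : GQ) = δ⁻¹ * h := hu2
  have hδH : δ = h * (u : GQ)⁻¹ := by rw [hu2']; group
  refine ⟨⟨δ, by rw [hδH]; exact mul_mem h.2 (inv_mem u.2)⟩, hδ, ?_⟩
  have e : (⟨δ, by rw [hδH]; exact mul_mem h.2 (inv_mem u.2)⟩ : H)⁻¹ * h = u :=
    Subtype.ext hu2'.symm
  rw [e]
  exact hu1

end Pool.Agent.K9h38.RP
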