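import Pool.Agent.K9h38.RP.Grp

/-!
# Two-dimensional representations and dense subgroups
-/

set_option autoImplicit false
set_option linter.unusedSectionVars false

namespace Pool.Agent.K9h38.RP

open Pool.Agent.N817 Pool.Agent.Z384
open IsLocalRing Matrix

variable {A : Type*} [CommRing A] [IsLocalRing A] [IsNoetherianRing A]
variable {G : Type*} [Group G]
variable {F : Type*} [Field F] [Algebra A F] [IsFractionRing A F]

/-- the stabilizer of the line in the dihedral case -/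
lemma stb_index [TopologicalSpace G] [IsTopologicalGroup G] [TopologicalSpace A]
    (hA : IsAdic (maximalIdeal A)) {ρ : G →* GL (Fin 2) A}
    (hρ : ∀ i j, Continuous fun σ => (ρ σ : Matrix (Fin 2) (Fin 2) A) i j) {D D' : Subgroup G}
    (happ : ∀ (m : ℕ) (g : G), ∃ δ ∈ D, δ⁻¹ * g ∈ cong ρ m)
    {R : Set G} (hRf : R.Finite) (hR : ∀ δ ∈ D, ∃ r ∈ R, r⁻¹ * δ ∈ D')
    (hirr : Irr F ρ)
    {v : Fin 2 → F} (hv : v ≠ 0) (hD' : ∀ δ ∈ D', ∃ c : F, act F ρ δ v = c • v)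
    (hdist : ∃ δ ∈ D', ∀ k : ℕ, 0 < k → ∀ c : F, act F ρ (δ ^ k) v = c • v →
      c ^ 2 ≠ algebraMap A F ((ρ (δ ^ k) : Matrix (Fin 2) (Fin 2) A).det)) :
    (stb ρ (Submodule.span F {v})).index = 2 ∧ IsOpen (stb ρ (Submodule.span F {v}) : Set G) := by
  obtain ⟨T, hT2, hTo, hT⟩ := dih_of_line hA hρ happ hRf hR hirr hv hD' hdist
  set S := stb ρ (Submodule.span F {v}) with hS
  have hTS : T ≤ S := by
    intro σ hσ w
    constructor
    · intro hw
      obtain ⟨a, rfl⟩ := Submodule.mem_span_singleton.1 hw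
      obtain ⟨c, hc⟩ := hT σ hσ
      rw [map_smul, hc]
      exact Submodule.smul_mem _ _ (Submodule.smul_mem _ _ (Submodule.mem_span_singleton_self v))
    · intro hw
      obtain ⟨a, ha⟩ := Submodule.mem_span_singleton.1 hw
      obtain ⟨c, hc⟩ := hT σ⁻¹ (inv_mem hσ)
      have h1 : w = act F ρ σ⁻¹ (act F ρ σ w) := by
        rw [← act_mul, inv_mul_cancel, act_one]
      rw [h1, ← ha, map_smul, hc]
      exact Submodule.smul_mem _ _ (Submodule.smul_mem _ _ (Submodule.mem_span_singleton_self v))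
  have hne : S ≠ ⊤ := by
    intro h
    rcases hirr (Submodule.span F {v}) (fun g w hw => by
      have hg : g ∈ S := by rw [h]; trivial
      exact (hg w).1 hw) with h1 | h1
    · exact hv (Submodule.span_singleton_eq_bot.1 h1)
    · have h2 : Module.finrank F (Submodule.span F {v}) = 1 := finrank_span_singleton hv
      rw [h1, finrank_top, Module.finrank_fin_fun] at h2
      omega
  refine ⟨?_, Subgroup.isOpen_mono hTS hTo⟩
  have h1 : S.index ∣ 2 := hT2 ▸ Subgroup.index_dvd_of_le hTS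
  rcases (Nat.dvd_prime Nat.prime_two).1 h1 with h2 | h2
  · exact absurd (Subgroup.index_eq_one.1 h2) hne
  · exact h2

/-- elements with `p`-power approximations to `1`, `p` odd, are in the closed subgroups of index two -/
lemma mem_stb_of_pow {p : ℕ} [hp : Fact p.Prime] (hp2 : 2 < p) {ρ : G →* GL (Fin 2) A}
    {W : Submodule F (Fin 2 → F)} (hW : (stb ρ W).index = 2) {σ : G}
    (hσ : ∀ m : ℕ, ∃ k : ℕ, σ ^ p ^ k ∈ cong ρ m) : σ ∈ stb ρ W := by
  refine stb_of_lim ρ W le_rfl fun m => ?_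
  obtain ⟨k, hk⟩ := hσ m
  have hn : (stb ρ W).Normal := Subgroup.normal_of_index_eq_two hW
  have h2 : σ ^ 2 ∈ stb ρ W := by
    have := Subgroup.pow_index_mem (stb ρ W) σ
    rwa [hW] at this
  have hodd : Odd (p ^ k) := (hp.out.odd_of_ne_two (by omega)).pow
  obtain ⟨t, ht⟩ := hodd
  refine ⟨σ ^ (p ^ k + 1), ?_, ?_⟩
  · rw [ht, show 2 * t + 1 + 1 = 2 * (t + 1) by ring, pow_mul]
    exact pow_mem h2 _
  · rw [pow_succ, _root_.mul_inv_rev, mul_assoc]
    have h3 : σ⁻¹ * ((σ ^ p ^ k)⁻¹ * σ) = (σ ^ p ^ k)⁻¹ := by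
      have : Commute σ⁻¹ (σ ^ p ^ k)⁻¹ := ((Commute.refl σ).pow_right _).inv_inv
      rw [← mul_assoc, this.eq, mul_assoc, inv_mul_cancel, mul_one]
    rw [h3]
    exact inv_mem hk

lemma det_of_eig {M : Matrix (Fin 2) (Fin 2) F} {v w : Fin 2 → F} {c d : F}
    (hv : M *ᵥ v = c • v) (hw : M *ᵥ w = d • w) (h : v 0 * w 1 - w 0 * v 1 ≠ 0) :
    M.det = c * d := by
  have h0 := congrFun hv 0
  have h1 := congrFun hv 1
  have h2 := congrFun hw 0
  have h3 := congrFun hw 1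
  simp only [mulVec, dotProduct, Fin.sum_univ_two, Pi.smul_apply, smul_eq_mul] at h0 h1 h2 h3
  rw [Matrix.det_fin_two]
  apply mul_right_cancel₀ h
  have e : (M 0 0 * M 1 1 - M 0 1 * M 1 0) * (v 0 * w 1 - w 0 * v 1) =
      (M 0 0 * v 0 + M 0 1 * v 1) * (M 1 0 * w 0 + M 1 1 * w 1) -
        (M 0 0 * w 0 + M 0 1 * w 1) * (M 1 0 * v 0 + M 1 1 * v 1) := by ring
  rw [e, h0, h1, h2, h3]
  ring

/-- **An irreducible representation is not potentially ordinary on a dense subgroup.** -/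
theorem not_ord [TopologicalSpace G] [IsTopologicalGroup G] [TopologicalSpace A]
    (hA : IsAdic (maximalIdeal A)) {ρ : G →* GL (Fin 2) A}
    (hρ : ∀ i j, Continuous fun σ => (ρ σ : Matrix (Fin 2) (Fin 2) A) i j) {D D' I C : Subgroup G}
    (happ : ∀ (m : ℕ) (g : G), ∃ δ ∈ D, δ⁻¹ * g ∈ cong ρ m)
    {R : Set G} (hRf : R.Finite) (hR : ∀ δ ∈ D, ∃ r ∈ R, r⁻¹ * δ ∈ D')
    (hirr : Irr F ρ) (hID : I ≤ D) (hI : ∀ δ ∈ D, ∀ d ∈ I, δ⁻¹ * d * δ ∈ I)
    (hC : ∀ δ ∈ D, ∀ d ∈ I, δ⁻¹ * d * δ * d⁻¹ ∈ C)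
    {v : Fin 2 → F} (hv : v ≠ 0) (hD' : ∀ δ ∈ D', ∃ c : F, act F ρ δ v = c • v)
    (hcyc : ∀ δ ∈ D', δ ∈ I → δ ∈ C → ∀ c : F, act F ρ δ v = c • v →
      c ^ 2 = algebraMap A F ((ρ δ : Matrix (Fin 2) (Fin 2) A).det))
    (hdist : ∃ δ ∈ D', δ ∈ I ∧ ∀ k : ℕ, 0 < k → ∀ c : F, act F ρ (δ ^ k) v = c • v →
      c ^ 2 ≠ algebraMap A F ((ρ (δ ^ k) : Matrix (Fin 2) (Fin 2) A).det)) : False := by
  obtain ⟨d, hdD', hdI, hd⟩ := hdist
  obtain ⟨hS2, hSo⟩ := stb_index hA hρ happ hRf hR hirr hv hD' ⟨d, hdD', hd⟩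
  set W := Submodule.span F {v} with hW
  set S := stb ρ W with hS
  have hn : S.Normal := Subgroup.normal_of_index_eq_two hS2
  have hSe : ∀ σ : S, ∃ c : F, act F ρ (σ : G) v = c • v := by
    intro σ
    obtain ⟨c, hc⟩ := Submodule.mem_span_singleton.1
      ((σ.2 v).1 (Submodule.mem_span_singleton_self v))
    exact ⟨c, hc.symm⟩
  choose χ hχ using hSe
  have huniq : ∀ {a b : F}, a • v = b • v → a = b := by
    intro a b h
    have h1 : (a - b) • v = 0 := by rw [sub_smul, h, sub_self]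
    exact sub_eq_zero.1 ((smul_eq_zero.1 h1).resolve_right hv)
  have hmul : ∀ σ τ : S, χ (σ * τ) = χ σ * χ τ := by
    intro σ τ
    apply huniq
    rw [← hχ, Subgroup.coe_mul, act_mul, hχ τ, map_smul, hχ σ, smul_smul, mul_comm]
  have hone : χ 1 = 1 := by
    apply huniq
    rw [← hχ, one_smul]
    exact act_one ρ v
  have hne : ∀ σ : S, χ σ ≠ 0 := by
    intro σ h
    have h1 := hmul σ σ⁻¹
    rw [mul_inv_cancel, hone, h, zero_mul] at h1
    exact one_ne_zero h1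
  have hpow : ∀ (σ : S) (k : ℕ), χ (σ ^ k) = χ σ ^ k := by
    intro σ k
    induction k with
    | zero => rw [pow_zero, pow_zero, hone]
    | succ k ih => rw [pow_succ, hmul, ih, pow_succ]
  have hD'S : D' ≤ S := by
    intro σ hσ w
    constructor
    · intro hw
      obtain ⟨a, rfl⟩ := Submodule.mem_span_singleton.1 hw
      obtain ⟨c, hc⟩ := hD' σ hσ
      rw [map_smul, hc]
      exact Submodule.smul_mem _ _ (Submodule.smul_mem _ _ (Submodule.mem_span_singleton_self v))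
    · intro hw
      obtain ⟨a, ha⟩ := Submodule.mem_span_singleton.1 hw
      obtain ⟨c, hc⟩ := hD' σ⁻¹ (inv_mem hσ)
      have h1 : w = act F ρ σ⁻¹ (act F ρ σ w) := by
        rw [← act_mul, inv_mul_cancel, act_one]
      rw [h1, ← ha, map_smul, hc]
      exact Submodule.smul_mem _ _ (Submodule.smul_mem _ _ (Submodule.mem_span_singleton_self v))
  -- an element of `D` which moves the line
  obtain ⟨δ₀, hδ₀, hδS⟩ : ∃ δ₀ ∈ D, δ₀ ∉ S := by
    by_contra hcon
    push Not at hcon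
    have hall : S = ⊤ := eq_top_iff.2 fun g _ => stb_of_lim ρ W (D' := D) hcon fun m => happ m g
    rw [hall, Subgroup.index_top] at hS2
    omega
  set w : Fin 2 → F := act F ρ δ₀ v with hw
  have hwW : w ∉ W := fun h => hδS (mem_stb_line ρ hv h)
  have hdetvw : v 0 * w 1 - w 0 * v 1 ≠ 0 := by
    intro h
    apply hwW
    by_cases h0 : v 0 = 0
    · have h1 : v 1 ≠ 0 := by
        intro h1
        apply hv
        funext i
        fin_cases i
        · exact h0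
        · exact h1
      have h2 : w 0 = 0 := by
        rw [h0, zero_mul, zero_sub, neg_eq_zero] at h
        exact (mul_eq_zero.1 h).resolve_right h1
      refine Submodule.mem_span_singleton.2 ⟨w 1 / v 1, ?_⟩
      funext i
      fin_cases i
      · simp [h0, h2]
      · simp [h1]
    · refine Submodule.mem_span_singleton.2 ⟨w 0 / v 0, ?_⟩
      funext i
      fin_cases i
      · simp [h0]
      · show w 0 / v 0 * v 1 = w 1
        field_simp
        linear_combination -h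
  -- the other character
  have hcj : ∀ σ : S, δ₀⁻¹ * (σ : G) * δ₀ ∈ S := by
    intro σ
    have := hn.conj_mem _ σ.2 δ₀⁻¹
    rwa [inv_inv] at this
  let cj : S → S := fun σ => ⟨δ₀⁻¹ * (σ : G) * δ₀, hcj σ⟩
  have hcjmul : ∀ σ τ, cj (σ * τ) = cj σ * cj τ := by
    intro σ τ
    apply Subtype.ext
    show δ₀⁻¹ * ((σ : G) * τ) * δ₀ = (δ₀⁻¹ * (σ : G) * δ₀) * (δ₀⁻¹ * (τ : G) * δ₀)
    group
  have hwe : ∀ σ : S, act F ρ (σ : G) w = χ (cj σ) • w := by
    intro σ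
    rw [hw, ← act_mul]
    have e : (σ : G) * δ₀ = δ₀ * (cj σ : G) := by
      show (σ : G) * δ₀ = δ₀ * (δ₀⁻¹ * (σ : G) * δ₀)
      group
    rw [e, act_mul, hχ, map_smul]
  have hdet : ∀ σ : S, algebraMap A F ((ρ (σ : G) : Matrix (Fin 2) (Fin 2) A).det) =
      χ σ * χ (cj σ) := by
    intro σ
    rw [RingHom.map_det]
    exact det_of_eig (hχ σ) (hwe σ) hdetvw
  have hcj2 : ∀ σ : S, χ (cj (cj σ)) = χ σ := by
    intro σ
    have h2 : δ₀ * δ₀ ∈ S := by
      have := Subgroup.pow_index_mem S δ₀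
      rwa [hS2, pow_two] at this
    have e : cj (cj σ) = (⟨δ₀ * δ₀, h2⟩ : S)⁻¹ * σ * ⟨δ₀ * δ₀, h2⟩ := by
      apply Subtype.ext
      show δ₀⁻¹ * (δ₀⁻¹ * (σ : G) * δ₀) * δ₀ = (δ₀ * δ₀)⁻¹ * (σ : G) * (δ₀ * δ₀)
      group
    have h3 := hmul (⟨δ₀ * δ₀, h2⟩ : S)⁻¹ ⟨δ₀ * δ₀, h2⟩
    rw [inv_mul_cancel, hone] at h3
    rw [e, hmul, hmul]
    linear_combination (-χ σ) * h3
  -- the commutator
  set ds : S := ⟨d, hD'S hdD'⟩ with hds
  set f : S := cj ds * ds⁻¹ with hf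
  have hfI : (f : G) ∈ I := by
    show δ₀⁻¹ * d * δ₀ * d⁻¹ ∈ I
    exact mul_mem (hI δ₀ hδ₀ d hdI) (inv_mem hdI)
  have hfC : (f : G) ∈ C := hC δ₀ hδ₀ d hdI
  -- a power in `D'`
  obtain ⟨m, hm0, hm⟩ : ∃ m : ℕ, 0 < m ∧ (f : G) ^ m ∈ D' := by
    have : Finite R := hRf
    choose r hr hr' using fun k : ℕ => hR ((f : G) ^ k) (pow_mem (hID hfI) k)
    obtain ⟨i, j, hij, hrij⟩ := Finite.exists_ne_map_eq_of_infinite (fun k : ℕ => (⟨r k, hr k⟩ : R))
    have hrij' : r i = r j := congrArg Subtype.val hrij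
    have key : ∀ i j : ℕ, i < j → r i = r j → ∃ m : ℕ, 0 < m ∧ (f : G) ^ m ∈ D' := by
      intro i j hlt hr3
      refine ⟨j - i, by omega, ?_⟩
      have h1 := mul_mem (inv_mem (hr' i)) (hr' j)
      rw [hr3] at h1
      have e : ((r j)⁻¹ * (f : G) ^ i)⁻¹ * ((r j)⁻¹ * (f : G) ^ j) = (f : G) ^ (j - i) := by
        obtain ⟨t, rfl⟩ := Nat.exists_eq_add_of_lt hlt
        have : i + t + 1 - i = t + 1 := by omega
        rw [this, show i + t + 1 = i + (t + 1) by ring, pow_add]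
        group
      rwa [e] at h1
    rcases lt_or_gt_of_ne hij with h | h
    · exact key i j h hrij'
    · exact key j i h hrij'.symm
  have h1 := hcyc _ hm (pow_mem hfI m) (pow_mem hfC m) (χ (f ^ m)) (by
    have := hχ (f ^ m)
    rwa [Subgroup.coe_pow] at this)
  have h2 := hdet (f ^ m)
  rw [Subgroup.coe_pow] at h2
  rw [h2, pow_two] at h1
  have h3 : χ (f ^ m) = χ (cj (f ^ m)) := mul_left_cancel₀ (hne _) h1
  have hcjpow : ∀ k : ℕ, cj (f ^ k) = cj f ^ k := by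
    intro k
    induction k with
    | zero =>
      rw [pow_zero, pow_zero]
      apply Subtype.ext
      show δ₀⁻¹ * (1 : G) * δ₀ = 1
      group
    | succ k ih => rw [pow_succ, hcjmul, ih, pow_succ]
  rw [hcjpow, hpow, hpow] at h3
  -- the values
  have hinv : ∀ σ : S, χ σ⁻¹ = (χ σ)⁻¹ := by
    intro σ
    have h4 := hmul σ⁻¹ σ
    rw [inv_mul_cancel, hone] at h4
    exact eq_inv_of_mul_eq_one_left h4.symm
  have hcjinv : ∀ σ : S, cj σ⁻¹ = (cj σ)⁻¹ := by
    intro σ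
    apply Subtype.ext
    show δ₀⁻¹ * (σ : G)⁻¹ * δ₀ = (δ₀⁻¹ * (σ : G) * δ₀)⁻¹
    group
  have e1 : χ f = χ (cj ds) * (χ ds)⁻¹ := by rw [hf, hmul, hinv]
  have e2 : χ (cj f) = χ ds * (χ (cj ds))⁻¹ := by
    rw [hf, hcjmul, hmul, hcj2, hcjinv, hinv]
  rw [e1, e2, mul_pow, mul_pow, inv_pow, inv_pow] at h3
  have hx := pow_ne_zero m (hne ds)
  have hy := pow_ne_zero m (hne (cj ds))
  have h4 : χ (cj ds) ^ m * χ (cj ds) ^ m = χ ds ^ m * χ ds ^ m := by
    field_simp at h3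
    linear_combination h3
  refine hd (2 * m) (by omega) (χ (ds ^ (2 * m))) ?_ ?_
  · have := hχ (ds ^ (2 * m))
    rwa [Subgroup.coe_pow] at this
  · have h5 := hdet (ds ^ (2 * m))
    rw [Subgroup.coe_pow] at h5
    have hcjpow' : ∀ k : ℕ, cj (ds ^ k) = cj ds ^ k := by
      intro k
      induction k with
      | zero =>
        rw [pow_zero, pow_zero]
        apply Subtype.ext
        show δ₀⁻¹ * (1 : G) * δ₀ = 1
        group
      | succ k ih => rw [pow_succ, hcjmul, ih, pow_succ]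
    rw [h5, hcjpow', hpow, hpow, two_mul, pow_add, pow_add]
    rw [h4]
    ring

end Pool.Agent.K9h38.RP
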