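import Pool.Agent.K9h38.RP.GGlo
import Pool.Agent.K9h38.RP.Main
import Pool.Agent.K9h38.RP.Ord

/-!
# Density of the decomposition group at `p`: number fields with exactly one prime ideal above `p`
-/

set_option autoImplicit false
set_option linter.unusedSectionVars false

namespace Pool.Agent.K9h38.RP

open Pool.Agent.N817 Pool.Agent.Z384
open Pool.Agent.Y715.Red Pool.Agent.Y715.Nr Pool.Agent.W237.RK
open Pool.Agent.Y715.Gi (QB)
open IsLocalRing Matrix NumberField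

section abs

variable {G : Type*} [Group G] [TopologicalSpace G] [IsTopologicalGroup G]

/-- **Surjectivity**, by the theorem of Burnside -/
theorem surj_abs' {p : ℕ} [hp : Fact p.Prime] (D : Subgroup G) {G₁ : Subgroup G} {U₁ : Subgroup G₁}
    (hn : U₁.Normal) (hfi : U₁.FiniteIndex) (hop : IsOpen (U₁ : Set G₁))
    (hpow : ∀ g : G₁, ∃ k : ℕ, g ^ p ^ k ∈ U₁)
    (hkey : ∀ h : G₁ → ZMod p, IsLocallyConstant h → (∀ σ τ, h (σ * τ) = h σ + h τ) →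
      (∀ σ ∈ U₁, h σ = 0) → (∀ σ : G₁, (σ : G) ∈ D → h σ = 0) → ∀ σ, h σ = 0)
    (g : G₁) : ∃ δ : G₁, (δ : G) ∈ D ∧ δ⁻¹ * g ∈ U₁ := by
  classical
  have hfin : Finite (G₁ ⧸ U₁) := Subgroup.finite_quotient_of_finiteIndex
  have hp1 : IsPGroup p (G₁ ⧸ U₁) := by
    intro x
    obtain ⟨y, rfl⟩ := QuotientGroup.mk_surjective x
    obtain ⟨k, hk⟩ := hpow y
    refine ⟨k, ?_⟩
    rw [← QuotientGroup.mk_pow]
    exact (QuotientGroup.eq_one_iff _).2 hk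
  obtain ⟨a, ha⟩ := IsPGroup.iff_card.1 hp1
  set Q : Subgroup (G₁ ⧸ U₁) := (D.subgroupOf G₁).map (QuotientGroup.mk' U₁) with hQ
  have hQt : Q = ⊤ := by
    by_contra hne
    obtain ⟨f, hf, hfQ, x, hx⟩ := exists_char (p := p) ha hne
    obtain ⟨y, rfl⟩ := QuotientGroup.mk'_surjective U₁ x
    apply hx
    refine hkey (fun σ => f (QuotientGroup.mk' U₁ σ)) ?_ ?_ ?_ ?_ y
    · refine IsLocallyConstant.iff_exists_open _ |>.2 fun σ => ?_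
      refine ⟨(fun τ => σ⁻¹ * τ) ⁻¹' (U₁ : Set G₁),
        hop.preimage (continuous_const.mul continuous_id), by simp, fun τ hτ => ?_⟩
      have e : QuotientGroup.mk' U₁ τ = QuotientGroup.mk' U₁ σ := (QuotientGroup.eq.2 hτ).symm
      show f (QuotientGroup.mk' U₁ τ) = _
      rw [e]
    · intro σ τ
      show f (QuotientGroup.mk' U₁ (σ * τ)) = _
      rw [map_mul, hf]
    · intro σ hσ
      have h1 : f 1 = 0 := by
        have := hf 1 1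
        rw [mul_one] at this
        exact left_eq_add.1 this
      have e : QuotientGroup.mk' U₁ σ = 1 := (QuotientGroup.eq_one_iff σ).2 hσ
      show f (QuotientGroup.mk' U₁ σ) = 0
      rw [e, h1]
    · intro σ hσ
      exact hfQ _ ⟨σ, Subgroup.mem_subgroupOf.2 hσ, rfl⟩
  have h1 : QuotientGroup.mk' U₁ g ∈ Q := by rw [hQt]; trivial
  obtain ⟨δ', hδ', h2⟩ := h1
  exact ⟨δ', Subgroup.mem_subgroupOf.1 hδ', QuotientGroup.eq.1 h2⟩

end abs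

section base

variable (E : IntermediateField ℚ QB)

/-- the restriction of an embedding to `E` -/
noncomputable def rs {ℓ : ℕ} [Fact ℓ.Prime] (ι : QB →ₐ[ℚ] PadicAlgCl ℓ) : E →+* PadicAlgCl ℓ :=
  (ι : QB →+* PadicAlgCl ℓ).comp (algebraMap E QB)

lemma rs_apply {ℓ : ℕ} [Fact ℓ.Prime] (ι : QB →ₐ[ℚ] PadicAlgCl ℓ) (x : E) :
    rs E ι x = ι (x : QB) := rfl

variable {E}

lemma mem_fix {σ : GQ} : σ ∈ E.fixingSubgroup ↔ ∀ x : E, σ (x : QB) = x :=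
  ⟨fun h x => (IntermediateField.mem_fixingSubgroup_iff _ _).1 h x x.2,
    fun h => (IntermediateField.mem_fixingSubgroup_iff _ _).2 fun x hx => h ⟨x, hx⟩⟩

lemma mem_of_fixE {x : QB} (hx : ∀ σ ∈ E.fixingSubgroup, σ x = x) : x ∈ E := by
  rw [← InfiniteGalois.fixedField_fixingSubgroup E, IntermediateField.mem_fixedField_iff]
  exact hx

/-- extension of embeddings -/
lemma exists_ext' {ℓ : ℕ} [Fact ℓ.Prime] (φ : E →+* PadicAlgCl ℓ) :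
    ∃ ι : QB →ₐ[ℚ] PadicAlgCl ℓ, ∀ x : E, ι (x : QB) = φ x := by
  let _ : Algebra E (PadicAlgCl ℓ) := φ.toAlgebra
  have halg : Algebra.IsAlgebraic E QB := Algebra.IsAlgebraic.tower_top (K := ℚ) E
  let ι : QB →ₐ[E] PadicAlgCl ℓ := IsAlgClosed.lift
  exact ⟨RingHom.toRatAlgHom ι.toRingHom, fun x => ι.commutes x⟩

variable [NumberField E] {p : ℕ} [hp : Fact p.Prime]

/-- every automorphism agrees on `E` with an element of the decomposition group -/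
lemma exists_dec (hU : Uq E p) (ι₀ : QB →ₐ[ℚ] PadicAlgCl p) (g : GQ) :
    ∃ δ ∈ Dp ι₀, δ⁻¹ * g ∈ E.fixingSubgroup := by
  set φ := rs E ι₀ with hφ
  set ψ := rs E (ι₀.comp (g : QB →ₐ[ℚ] QB)) with hψ
  have h1 : pr φ = pr ψ := hU _ _ inferInstance inferInstance (ell_mem φ) (ell_mem ψ)
  obtain ⟨τ, hτ⟩ := exists_aut_emb h1
  obtain ⟨σ, hσ⟩ := exists_cmpQ ι₀ τ
  refine ⟨σ, ⟨τ, hσ⟩, mem_fix.2 fun x => ?_⟩
  have h2 : σ (x : QB) = g (x : QB) := by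
    apply ι₀.injective
    show ι₀ (σ (x : QB)) = ι₀ (g (x : QB))
    rw [← hσ]
    exact hτ x
  rw [AlgEquiv.mul_apply, ← h2, ← AlgEquiv.mul_apply, inv_mul_cancel, AlgEquiv.one_apply]

/-- **The key.** -/
theorem key_gen {ζ : E} (hζ : IsPrimitiveRoot ζ p) (hun : Un hζ) (hreg : (classNumber E).Coprime p)
    (hU : Uq E p) {Q : Ideal (𝓞 E)} (hQ : Qc p Q) {W : Subgroup E.fixingSubgroup}
    (hram : ∀ (ℓ : ℕ) [Fact ℓ.Prime] (ι : QB →ₐ[ℚ] PadicAlgCl ℓ), ℓ ≠ p → pr (rs E ι) ≠ Q →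
      ∀ σ : E.fixingSubgroup, (σ : GQ) ∈ IQ ι → σ ∈ W)
    (ι₀ : QB →ₐ[ℚ] PadicAlgCl p) (h : E.fixingSubgroup → ZMod p) (hc : IsLocallyConstant h)
    (hm : ∀ σ τ, h (σ * τ) = h σ + h τ) (hW : ∀ σ ∈ W, h σ = 0)
    (hD : ∀ σ : E.fixingSubgroup, (σ : GQ) ∈ Dp ι₀ → h σ = 0) (σ : E.fixingSubgroup) :
    h σ = 0 := by
  have hpr : IsPrimitiveRoot (ζ : QB) p := hζ.map_of_injective (algebraMap E QB).injective
  have : NeZero p := ⟨hp.out.ne_zero⟩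
  have hEo : IsOpen (E.fixingSubgroup : Set GQ) := by
    have hfd : @FiniteDimensional ℚ E _ _ (IntermediateField.algebra' E).toModule :=
      fin_fix E rfl Module.finrank_pos
    exact E.fixingSubgroup_isOpen
  obtain ⟨s, hs0, hs⟩ := exists_root (K := ℚ) (Ω := QB) (p := p)
    (Nat.cast_ne_zero.2 hp.out.ne_zero) hpr hEo (fun σ hσ => mem_fix.1 hσ ζ) h hm hc
  have hfix : ∀ σ : E.fixingSubgroup, h σ = 0 → (σ : GQ) s = s := by
    intro σ h0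
    rw [hs, h0, ZMod.val_zero, pow_zero, one_mul]
  have haE : s ^ p ∈ E := mem_of_fixE fun τ hτ => by
    have h1 := hs ⟨τ, hτ⟩
    rw [map_pow]
    have h2 : τ s = (ζ : QB) ^ (h ⟨τ, hτ⟩).val * s := h1
    rw [h2, mul_pow, ← pow_mul, mul_comm _ p, pow_mul, hpr.pow_eq_one, one_pow, one_mul]
  set a : E := ⟨s ^ p, haE⟩ with ha
  have hgal : ∀ τ : Au p, (∀ x : E, τ (ι₀ (x : QB)) = ι₀ (x : QB)) → τ (ι₀ s) = ι₀ s := by
    intro τ hτ
    obtain ⟨σ, hσ⟩ := exists_cmpQ ι₀ τ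
    have h1 : σ ∈ E.fixingSubgroup := mem_fix.2 fun x => by
      apply ι₀.injective
      show ι₀ (σ (x : QB)) = ι₀ (x : QB)
      rw [← hσ, hτ]
    rw [hσ, hfix ⟨σ, h1⟩ (hD _ ⟨τ, hσ⟩)]
  obtain ⟨b, hb⟩ := mem_of_local_gen hζ hun hreg hU hQ (algebraMap E QB)
    (ι₀ : QB →+* PadicAlgCl p) hs0 (a := a) rfl hgal (fun ℓ _ φ hℓp hφQ => by
      obtain ⟨ι, hι⟩ := exists_ext' φ
      have hrs : rs E ι = φ := RingHom.ext hι
      obtain ⟨a', ha', hae⟩ := kur_val (φ := φ) (s := ι s) ((map_ne_zero ι).2 hs0) fun τ hτ hτ' => by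
        obtain ⟨σ, hσ⟩ := exists_cmpQ ι τ
        have h1 : σ ∈ E.fixingSubgroup := mem_fix.2 fun x => by
          apply ι.injective
          show ι (σ (x : QB)) = ι (x : QB)
          rw [← hσ, hι, hτ]
        have h3 := hram ℓ ι hℓp (by rw [hrs]; exact hφQ) ⟨σ, h1⟩ ⟨τ, hσ, inert_of_kur hτ'⟩
        rw [hσ, hfix ⟨σ, h1⟩ (hW _ h3)]
      refine ⟨a', ha', ?_⟩
      rw [← hae, ← norm_pow, ← map_pow, ← hι])
  have h1 : (σ : GQ) s = s := by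
    rw [hb]
    exact mem_fix.1 σ.2 b
  rw [hs] at h1
  have h2 : (ζ : QB) ^ (h σ).val = 1 := mul_right_cancel₀ hs0 (by rw [h1, one_mul])
  have h3 := hpr.dvd_of_pow_eq_one _ h2
  have h4 : (h σ).val < p := ZMod.val_lt _
  have h5 : (h σ).val = 0 := Nat.eq_zero_of_dvd_of_lt h3 h4
  exact (ZMod.val_eq_zero _).1 h5

variable {A : Type*} [CommRing A] [IsLocalRing A] [IsNoetherianRing A] [TopologicalSpace A] {n : ℕ}

/-- **The decomposition group at `p` is dense in the image.** -/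
theorem dense_gen {ζ : E} (hζ : IsPrimitiveRoot ζ p) (hun : Un hζ)
    (hreg : (classNumber E).Coprime p) (hEU : Uq E p) {Q : Ideal (𝓞 E)} (hQ : Qc p Q)
    {H N : Subgroup GQ} (hNH : N ≤ H) (hNf : N.FiniteIndex)
    (hNo : IsOpen (N : Set GQ)) (hNp : ∀ g ∈ E.fixingSubgroup, ∃ k : ℕ, g ^ p ^ k ∈ N)
    (hur : ∀ (ℓ : ℕ) [Fact ℓ.Prime] (ι : QB →ₐ[ℚ] PadicAlgCl ℓ), ℓ ≠ p → pr (rs E ι) ≠ Q →
      ∀ σ ∈ IQ ι, σ ∈ E.fixingSubgroup → σ ∈ N)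
    (hA : IsAdic (maximalIdeal A)) (hfin : Finite (ResidueField A)) (h2 : (p : A) ∈ maximalIdeal A)
    {ρ : H →* GL (Fin n) A}
    (hρ : ∀ i j, Continuous fun σ => (ρ σ : Matrix (Fin n) (Fin n) A) i j)
    (hres : ∀ σ : H, (σ : GQ) ∈ N →
      ∃ M : ℕ, InI (maximalIdeal A) (((ρ σ : Matrix (Fin n) (Fin n) A) - 1) ^ M))
    (hu : ∀ (ℓ : ℕ) [Fact ℓ.Prime] (ι : QB →ₐ[ℚ] PadicAlgCl ℓ), ℓ ≠ p → pr (rs E ι) ≠ Q →
      ∀ σ : H, (σ : GQ) ∈ IQ ι → (σ : GQ) ∈ N → ρ σ = 1)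
    (ι₀ : QB →ₐ[ℚ] PadicAlgCl p) (m : ℕ) (h : H) :
    ∃ δ ∈ (Dp ι₀).subgroupOf H, δ⁻¹ * h ∈ cong ρ m := by
  have hHf : H.FiniteIndex := Subgroup.finiteIndex_of_le hNH
  have hHo : IsOpen (H : Set GQ) := Subgroup.isOpen_mono hNH hNo
  set U := cong ρ m with hU
  have hUf : U.FiniteIndex := cong_fin hfin ρ m
  have hUo : IsOpen (U : Set H) := cong_open hA hρ m
  set W : Subgroup GQ := U.map H.subtype ⊓ N with hW
  have hWo : IsOpen (W : Set GQ) := by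
    refine IsOpen.inter ?_ hNo
    exact hHo.isOpenEmbedding_subtypeVal.isOpenMap _ hUo
  have hmf : (U.map H.subtype).FiniteIndex := ⟨by
    rw [Subgroup.index_map_subtype]
    exact mul_ne_zero hUf.index_ne_zero hHf.index_ne_zero⟩
  have hWf : W.FiniteIndex := inferInstance
  -- the core in `G_E`
  set W₁ : Subgroup E.fixingSubgroup := W.subgroupOf E.fixingSubgroup with hW₁
  have hW₁f : W₁.FiniteIndex := inferInstance
  have hW₁o : IsOpen (W₁ : Set E.fixingSubgroup) := hWo.preimage continuous_subtype_val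
  have hCf : W₁.normalCore.FiniteIndex := inferInstance
  have hWc : IsClosed (W₁ : Set E.fixingSubgroup) := Subgroup.isClosed_of_isOpen _ hW₁o
  have hCo : IsOpen (W₁.normalCore : Set E.fixingSubgroup) :=
    Subgroup.isOpen_of_isClosed_of_finiteIndex _ (W₁.normalCore_isClosed hWc)
  have hCn : W₁.normalCore.Normal := W₁.normalCore_normal
  -- powers
  have hpw : ∀ w : E.fixingSubgroup, ∃ k : ℕ, w ^ p ^ k ∈ W₁ := by
    intro w
    obtain ⟨k, hk⟩ := hNp w w.2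
    set v : H := ⟨(w : GQ) ^ p ^ k, hNH hk⟩ with hv
    obtain ⟨M, hM⟩ := hres v hk
    have h3 := pow_mem_cong h2 ρ hM m
    refine ⟨k + (M + m), Subgroup.mem_subgroupOf.2 ⟨?_, ?_⟩⟩
    · refine ⟨v ^ p ^ (M + m), h3, ?_⟩
      show ((w : GQ) ^ p ^ k) ^ p ^ (M + m) = _
      rw [← pow_mul, ← pow_add]
      rfl
    · rw [Subgroup.coe_pow, pow_add, pow_mul]
      exact pow_mem hk _
  have hpow : ∀ g : E.fixingSubgroup, ∃ k : ℕ, g ^ p ^ k ∈ W₁.normalCore := by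
    intro g
    have hfinQ : Finite (E.fixingSubgroup ⧸ W₁.normalCore) := Subgroup.finite_quotient_of_finiteIndex
    have ho : orderOf (QuotientGroup.mk g : E.fixingSubgroup ⧸ W₁.normalCore) ≠ 0 :=
      (orderOf_pos _).ne'
    obtain ⟨e, o, hpo, heo⟩ := Nat.exists_eq_pow_mul_and_not_dvd ho p hp.out.ne_one
    refine ⟨e, ?_⟩
    have h5 : g ^ (p ^ e * o) ∈ W₁.normalCore := by
      rw [← heo, ← QuotientGroup.eq_one_iff, QuotientGroup.mk_pow]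
      exact pow_orderOf_eq_one _
    intro r
    obtain ⟨k, hk⟩ := hpw (r * g ^ p ^ e * r⁻¹)
    refine mem_of_pows (a := o) (b := p ^ k) ?_ ?_ hk
    · exact Nat.Coprime.pow_right _ ((Nat.Prime.coprime_iff_not_dvd hp.out).2 hpo).symm
    · rw [conj_pow, ← pow_mul]
      exact W₁.normalCore_le (hCn.conj_mem _ h5 r)
  have hram : ∀ (ℓ : ℕ) [Fact ℓ.Prime] (ι : QB →ₐ[ℚ] PadicAlgCl ℓ), ℓ ≠ p → pr (rs E ι) ≠ Q →
      ∀ σ : E.fixingSubgroup, (σ : GQ) ∈ IQ ι → σ ∈ W₁.normalCore := by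
    intro ℓ _ ι hℓ hιQ σ hσ r
    have h1 : (r : GQ) * σ * (r : GQ)⁻¹ ∈ IQ (ι.comp (((r : GQ)⁻¹ : GQ)).toAlgHom) := by
      have := IQ_conj hσ ((r : GQ)⁻¹)
      rwa [inv_inv] at this
    have hrs : rs E (ι.comp (((r : GQ)⁻¹ : GQ)).toAlgHom) = rs E ι := by
      refine RingHom.ext fun x => ?_
      show ι (((r : GQ)⁻¹ : GQ) (x : QB)) = ι (x : QB)
      rw [mem_fix.1 (inv_mem r.2) x]
    have h2' : (r : GQ) * σ * (r : GQ)⁻¹ ∈ N :=
      hur ℓ _ hℓ (by rw [hrs]; exact hιQ) _ h1 (mul_mem (mul_mem r.2 σ.2) (inv_mem r.2))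
    refine Subgroup.mem_subgroupOf.2 ⟨⟨⟨(r : GQ) * σ * (r : GQ)⁻¹, hNH h2'⟩, ?_, rfl⟩, h2'⟩
    show GeneralLinearGroup.map (n := Fin n) (Ideal.Quotient.mk (maximalIdeal A ^ m)) (ρ _) = 1
    rw [hu ℓ _ hℓ (by rw [hrs]; exact hιQ) _ h1 h2', map_one]
  obtain ⟨δ₁, hδ₁, hδ₁E⟩ := exists_dec hEU ι₀ (h : GQ)
  obtain ⟨δ₂, hδ₂, hδ₂W⟩ := surj_abs' (p := p) (Dp ι₀) hCn hCf hCo hpow
    (fun h' hc hm hW hD σ => key_gen hζ hun hreg hEU hQ hram ι₀ h' hc hm hW hD σ)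
    ⟨δ₁⁻¹ * h, hδ₁E⟩
  have h3 : (δ₁ * (δ₂ : GQ))⁻¹ * (h : GQ) ∈ W := by
    have := Subgroup.mem_subgroupOf.1 (W₁.normalCore_le hδ₂W)
    have e : (((δ₂⁻¹ * ⟨δ₁⁻¹ * h, hδ₁E⟩ : E.fixingSubgroup)) : GQ) = (δ₁ * (δ₂ : GQ))⁻¹ * (h : GQ) := by
      push_cast
      group
    rwa [e] at this
  set δ : GQ := δ₁ * (δ₂ : GQ) with hδ
  have hδD : δ ∈ Dp ι₀ := mul_mem hδ₁ hδ₂
  obtain ⟨⟨u, hu1, hu2⟩, h4⟩ := h3
  have hu2' : (u : GQ) = δ⁻¹ * h := hu2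
  have hδH : δ = h * (u : GQ)⁻¹ := by rw [hu2']; group
  refine ⟨⟨δ, by rw [hδH]; exact mul_mem h.2 (inv_mem u.2)⟩, hδD, ?_⟩
  have e : (⟨δ, by rw [hδH]; exact mul_mem h.2 (inv_mem u.2)⟩ : H)⁻¹ * h = u :=
    Subtype.ext hu2'.symm
  rw [e]
  exact hu1

end base

end Pool.Agent.K9h38.RP
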