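import Pool.Agent.K9h38.RP.GEmb

/-!
# Norms of elements which are local `p`-th powers
-/

set_option autoImplicit false
set_option linter.unusedSectionVars false

namespace Pool.Agent.K9h38.RP

open NumberField Pool.Agent.Y715.Nr Pool.Agent.W237.RK Pool.Agent.W292.FM
open scoped ComplexConjugate

section tc

variable {K : Type*} [Field K] [NumberField K]

/-- norms from totally complex fields are positive -/
theorem norm_pos_tc (htc : IsTotallyComplex K) {x : K} (hx : x ≠ 0) : 0 < Algebra.norm ℚ x := by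
  classical
  have h1 : ((Algebra.norm ℚ x : ℚ) : ℂ) = ∏ w : InfinitePlace K, ((w x : ℝ) : ℂ) ^ 2 := by
    have h2 := Algebra.norm_eq_prod_embeddings ℚ ℂ x
    rw [eq_ratCast] at h2
    rw [h2, ← Fintype.prod_equiv (RingHom.equivRatAlgHom K ℂ) (fun f => f x)
      (fun φ => φ x) fun _ => by simp [RingHom.equivRatAlgHom_apply],
      ← Finset.prod_fiberwise Finset.univ InfinitePlace.mk (fun φ => φ x)]
    refine Finset.prod_congr rfl fun w _ => ?_
    have hne : w.embedding ≠ ComplexEmbedding.conjugate w.embedding := by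
      have hw := htc.isComplex w
      rw [← InfinitePlace.not_isReal_iff_isComplex, InfinitePlace.isReal_iff,
        ComplexEmbedding.isReal_iff] at hw
      exact fun h => hw h.symm
    have e : (Finset.univ.filter fun φ : K →+* ℂ => InfinitePlace.mk φ = w) =
        {w.embedding, ComplexEmbedding.conjugate w.embedding} := by
      ext φ
      simp only [Finset.mem_filter, Finset.mem_univ, true_and, Finset.mem_insert,
        Finset.mem_singleton]
      constructor
      · intro h
        rw [← InfinitePlace.mk_embedding w, InfinitePlace.mk_eq_iff] at h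
        rcases h with h | h
        · exact Or.inl h
        · right
          rw [← h]
          ext y
          simp [ComplexEmbedding.conjugate_coe_eq]
      · rintro (h | h)
        · rw [h, InfinitePlace.mk_embedding]
        · rw [h, InfinitePlace.mk_conjugate_eq, InfinitePlace.mk_embedding]
    rw [e, Finset.prod_pair hne, ComplexEmbedding.conjugate_coe_eq, Complex.mul_conj,
      ← InfinitePlace.norm_embedding_eq w x, Complex.normSq_eq_norm_sq]
    push_cast
    rfl
  have h3 : ((Algebra.norm ℚ x : ℚ) : ℝ) = ∏ w : InfinitePlace K, (w x) ^ 2 := by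
    have h4 : (((Algebra.norm ℚ x : ℚ) : ℝ) : ℂ) = ((∏ w : InfinitePlace K, (w x) ^ 2 : ℝ) : ℂ) := by
      push_cast
      exact h1
    exact_mod_cast h4
  have h5 : (0 : ℝ) < ∏ w : InfinitePlace K, (w x) ^ 2 :=
    Finset.prod_pos fun w _ => pow_pos (InfinitePlace.pos_iff.2 hx) 2
  rw [← h3] at h5
  exact_mod_cast h5

end tc

section loc

variable {K : Type} [Field K] [NumberField K] {p : ℕ} [hp : Fact p.Prime]

/-- **The norm of a local `p`-th power is a `p`-th power**, if only one prime ideal contains `p`. -/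
theorem norm_local (hU : Uq K p) (φ : K →+* PadicAlgCl p) {x : K} {s : PadicAlgCl p}
    (hs : s ^ p = φ x) (hF : Fx φ s) : ∃ b : ℚ_[p], ((Algebra.norm ℚ x : ℚ) : ℚ_[p]) = b ^ p := by
  classical
  have hex : ∀ σ : K →ₐ[ℚ] PadicAlgCl p, ∃ τ : Au p, ∀ y, τ (φ y) = σ y := fun σ =>
    exists_aut_emb (φ := φ) (ψ := (σ : K →+* PadicAlgCl p))
      (hU _ _ inferInstance inferInstance (ell_mem _) (ell_mem _))
  choose t ht using hex
  -- the action of `τ` on the embeddings
  let e : Au p → (K →ₐ[ℚ] PadicAlgCl p) → (K →ₐ[ℚ] PadicAlgCl p) := fun τ σ =>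
    RingHom.toRatAlgHom ((τ : PadicAlgCl p →+* PadicAlgCl p).comp (σ : K →+* PadicAlgCl p))
  have he : ∀ τ σ y, e τ σ y = τ (σ y) := fun _ _ _ => rfl
  have hinv : ∀ τ σ, e τ (e τ⁻¹ σ) = σ := by
    intro τ σ
    ext y
    rw [he, he, ← AlgEquiv.mul_apply, mul_inv_cancel, AlgEquiv.one_apply]
  have hbij : ∀ τ, Function.Bijective (e τ) := by
    intro τ
    refine Function.bijective_iff_has_inverse.2 ⟨e τ⁻¹, fun σ => ?_, fun σ => hinv τ σ⟩
    have := hinv τ⁻¹ σ
    rwa [inv_inv] at this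
  have key : ∀ τ σ, τ (t σ s) = t (e τ σ) s := by
    intro τ σ
    have h1 : ((t (e τ σ))⁻¹ * τ * t σ) s = s := hF _ fun y => by
      rw [AlgEquiv.mul_apply, AlgEquiv.mul_apply, ht, ← he τ σ y, ← ht (e τ σ) y,
        ← AlgEquiv.mul_apply, inv_mul_cancel, AlgEquiv.one_apply]
    have h2 := congrArg (t (e τ σ)) h1
    rw [← AlgEquiv.mul_apply, mul_assoc, mul_inv_cancel_left, AlgEquiv.mul_apply] at h2
    exact h2
  obtain ⟨b, hb⟩ := fix_mem (x := ∏ σ : K →ₐ[ℚ] PadicAlgCl p, t σ s) fun τ => by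
    rw [map_prod]
    simp only [key]
    exact (hbij τ).prod_comp (fun σ => t σ s)
  refine ⟨b, ?_⟩
  apply (algebraMap ℚ_[p] (PadicAlgCl p)).injective
  rw [map_pow, hb, map_ratCast, ← Finset.prod_pow]
  have h1 := Algebra.norm_eq_prod_embeddings ℚ (PadicAlgCl p) x
  rw [eq_ratCast] at h1
  rw [h1]
  refine Finset.prod_congr rfl fun σ _ => ?_
  rw [← map_pow, hs, ht]

/-- powers which are `p`-th powers -/
lemma pth_of_pow {F : Type*} [Field F] {N b : F} (hN : N ≠ 0) {c : ℕ} (hc : ¬ p ∣ c)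
    (h : N ^ c = b ^ p) : ∃ b' : F, N = b' ^ p := by
  have h1 := Nat.gcd_eq_gcd_ab c p
  have hcop : c.Coprime p := ((Nat.Prime.coprime_iff_not_dvd hp.out).2 hc).symm
  rw [hcop, Nat.cast_one] at h1
  have hb : b ≠ 0 := by
    rintro rfl
    rw [zero_pow hp.out.ne_zero] at h
    exact pow_ne_zero c hN h
  refine ⟨b ^ (Nat.gcdA c p) * N ^ (Nat.gcdB c p), ?_⟩
  calc N = N ^ (1 : ℤ) := (zpow_one N).symm
    _ = N ^ ((c : ℤ) * Nat.gcdA c p + p * Nat.gcdB c p) := by rw [← h1]
    _ = (N ^ c) ^ (Nat.gcdA c p) * (N ^ (Nat.gcdB c p)) ^ p := by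
        rw [zpow_add₀ hN, zpow_mul, zpow_natCast, mul_comm (p : ℤ), zpow_mul, zpow_natCast]
    _ = (b ^ (Nat.gcdA c p) * N ^ (Nat.gcdB c p)) ^ p := by
        rw [h, mul_pow]
        congr 1
        rw [← zpow_natCast, ← zpow_natCast, ← zpow_mul, ← zpow_mul, mul_comm]

end loc

end Pool.Agent.K9h38.RP
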