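import Pool.Agent.K9h38.RP.GTwo

/-!
# Potentially stable subspaces and the ordinary case in any dimension
-/

set_option autoImplicit false
set_option linter.unusedSectionVars false

namespace Pool.Agent.K9h38.RP

open Pool.Agent.N817 Pool.Agent.Z384
open Pool.Agent.Y715.Red Pool.Agent.Y715.Nr Pool.Agent.W237.RK
open Pool.Agent.Y715.Gi (QB)
open IsLocalRing Matrix NumberField

section abs

variable {A : Type*} [CommRing A] [IsLocalRing A] [IsNoetherianRing A] {n : ℕ}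
variable {G : Type*} [Group G]
variable {F : Type*} [Field F] [Algebra A F] [IsFractionRing A F]

/-- **The closure of a subgroup `D'` of finite index.** -/
theorem dens_index [TopologicalSpace G] [IsTopologicalGroup G] [TopologicalSpace A]
    (hA : IsAdic (maximalIdeal A)) {ρ : G →* GL (Fin n) A}
    (hρ : ∀ i j, Continuous fun σ => (ρ σ : Matrix (Fin n) (Fin n) A) i j) {D D' : Subgroup G}
    (happ : ∀ (m : ℕ) (g : G), ∃ δ ∈ D, δ⁻¹ * g ∈ cong ρ m)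
    {R : Finset G} (hR : ∀ δ ∈ D, ∃ r ∈ R, r⁻¹ * δ ∈ D') :
    ∃ S : Subgroup G, IsOpen (S : Set G) ∧ 0 < S.index ∧ S.index ≤ R.card ∧
      ∀ σ ∈ S, ∀ m : ℕ, ∃ δ ∈ D', δ⁻¹ * σ ∈ cong ρ m := by
  let S : Subgroup G :=
    { carrier := {σ | ∀ m : ℕ, ∃ δ ∈ D', δ⁻¹ * σ ∈ cong ρ m}
      mul_mem' := by
        intro a b ha hb m
        obtain ⟨δ, hδ, h1⟩ := ha m
        obtain ⟨δ', hδ', h2⟩ := hb m
        refine ⟨δ * δ', mul_mem hδ hδ', ?_⟩
        have e : (δ * δ')⁻¹ * (a * b) = (δ'⁻¹ * (δ⁻¹ * a) * (δ'⁻¹)⁻¹) * (δ'⁻¹ * b) := by group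
        rw [e]
        exact mul_mem ((cong_normal ρ m).conj_mem _ h1 δ'⁻¹) h2
      one_mem' := fun m => ⟨1, one_mem _, by rw [inv_one, one_mul]; exact one_mem _⟩
      inv_mem' := by
        intro a ha m
        obtain ⟨δ, hδ, h1⟩ := ha m
        refine ⟨δ⁻¹, inv_mem hδ, ?_⟩
        have := (cong_normal ρ m).conj_mem _ (inv_mem h1) δ
        convert this using 1
        group }
  have hSm : ∀ {σ : G}, σ ∈ S ↔ ∀ m : ℕ, ∃ δ ∈ D', δ⁻¹ * σ ∈ cong ρ m := Iff.rfl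
  have hsur : ∀ g : G, ∃ r : R, (r : G)⁻¹ * g ∈ S := by
    intro g
    choose δ hδ hu using fun m => happ m g
    choose r hr hr' using fun m => hR (δ m) (hδ m)
    obtain ⟨y, hy⟩ := Finite.exists_infinite_fiber (fun m : ℕ => (⟨r m, hr m⟩ : R))
    have hy' : ((fun m : ℕ => (⟨r m, hr m⟩ : R)) ⁻¹' {y}).Infinite := Set.infinite_coe_iff.1 hy
    refine ⟨y, fun m => ?_⟩
    obtain ⟨m', hm', hmm⟩ := hy'.exists_gt m
    have hym : r m' = y := congrArg Subtype.val hm'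
    refine ⟨(y : G)⁻¹ * δ m', ?_, ?_⟩
    · rw [← hym]
      exact hr' m'
    · have h1 : ((y : G)⁻¹ * δ m')⁻¹ * ((y : G)⁻¹ * g) = (δ m')⁻¹ * g := by group
      rw [h1]
      exact mem_cong.2 ((mem_cong.1 (hu m')).mono (Ideal.pow_le_pow_right hmm.le))
  have hsurj : Function.Surjective (fun r : R => (QuotientGroup.mk (r : G) : G ⧸ S)) := by
    intro x
    obtain ⟨g, rfl⟩ := QuotientGroup.mk_surjective x
    obtain ⟨r, hr⟩ := hsur g
    exact ⟨r, QuotientGroup.eq.2 hr⟩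
  have hfin : Finite (G ⧸ S) := Finite.of_surjective _ hsurj
  have hfi : S.FiniteIndex := Subgroup.finiteIndex_of_finite_quotient
  have hcl : IsClosed (S : Set G) := by
    refine isClosed_of_closure_subset fun g hg m => ?_
    have hopen : IsOpen ((fun x => x⁻¹ * g) ⁻¹' (cong ρ m : Set G)) :=
      (cong_open hA hρ m).preimage (continuous_inv.mul continuous_const)
    obtain ⟨x, hx1, hx2⟩ := mem_closure_iff.1 hg _ hopen (by
      show g⁻¹ * g ∈ cong ρ m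
      rw [inv_mul_cancel]
      exact one_mem _)
    obtain ⟨δ, hδ, h1⟩ := hSm.1 hx2 m
    refine ⟨δ, hδ, ?_⟩
    have e : δ⁻¹ * g = (δ⁻¹ * x) * (x⁻¹ * g) := by group
    rw [e]
    exact mul_mem h1 hx1
  refine ⟨S, Subgroup.isOpen_of_isClosed_of_finiteIndex _ hcl,
    Nat.pos_of_ne_zero hfi.index_ne_zero, ?_, fun σ hσ => hσ⟩
  have h1 := Nat.card_le_card_of_surjective _ hsurj
  have h2 : Nat.card R = R.card := by rw [Nat.card_eq_fintype_card, Fintype.card_coe]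
  rwa [h2] at h1

lemma sub_of_cong {ρ : G →* GL (Fin n) A} {m : ℕ} {δ σ : G} (h : δ⁻¹ * σ ∈ cong ρ m) (i j : Fin n) :
    (ρ σ : Matrix (Fin n) (Fin n) A) i j - (ρ δ : Matrix (Fin n) (Fin n) A) i j ∈
      maximalIdeal A ^ m := by
  have e : (ρ σ : Matrix (Fin n) (Fin n) A) - (ρ δ : Matrix (Fin n) (Fin n) A) =
      (ρ δ : Matrix (Fin n) (Fin n) A) * ((ρ (δ⁻¹ * σ) : Matrix (Fin n) (Fin n) A) - 1) := by
    rw [mul_sub, mul_one, ← Units.val_mul, ← map_mul, mul_inv_cancel_left]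
  have h1 := (mem_cong.1 h).mulL (ρ δ : Matrix (Fin n) (Fin n) A) i j
  rw [← e] at h1
  exact h1

/-- a power of an element of `D` is in `D'` -/
lemma exists_pow_mem {D D' : Subgroup G} {R : Set G} (hRf : R.Finite)
    (hR : ∀ δ ∈ D, ∃ r ∈ R, r⁻¹ * δ ∈ D') {f : G} (hf : f ∈ D) : ∃ m : ℕ, 0 < m ∧ f ^ m ∈ D' := by
  have : Finite R := hRf
  choose r hr hr' using fun k : ℕ => hR (f ^ k) (pow_mem hf k)
  obtain ⟨i, j, hij, hrij⟩ := Finite.exists_ne_map_eq_of_infinite (fun k : ℕ => (⟨r k, hr k⟩ : R))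
  have hrij' : r i = r j := congrArg Subtype.val hrij
  have key : ∀ i j : ℕ, i < j → r i = r j → ∃ m : ℕ, 0 < m ∧ f ^ m ∈ D' := by
    intro i j hlt hr3
    refine ⟨j - i, by omega, ?_⟩
    have h1 := mul_mem (inv_mem (hr' i)) (hr' j)
    rw [hr3] at h1
    have e : ((r j)⁻¹ * f ^ i)⁻¹ * ((r j)⁻¹ * f ^ j) = f ^ (j - i) := by
      obtain ⟨t, rfl⟩ := Nat.exists_eq_add_of_lt hlt
      have : i + t + 1 - i = t + 1 := by omega
      rw [this, show i + t + 1 = i + (t + 1) by ring, pow_add]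
      group
    rwa [e] at h1
  rcases lt_or_gt_of_ne hij with h | h
  · exact key i j h hrij'
  · exact key j i h hrij'.symm

/-- **The ordinary case.** -/
theorem ord_any {ρ : G →* GL (Fin n) A} {D D' I C : Subgroup G}
    {R : Set G} (hRf : R.Finite) (hR : ∀ δ ∈ D, ∃ r ∈ R, r⁻¹ * δ ∈ D')
    (hID : I ≤ D) (hI : ∀ δ ∈ D, ∀ d ∈ I, δ⁻¹ * d * δ ∈ I)
    (hC : ∀ δ ∈ D, ∀ d ∈ I, δ⁻¹ * d * δ * d⁻¹ ∈ C) {W : Submodule F (Fin n → F)}
    (hcyc : ∀ δ ∈ D', δ ∈ I → δ ∈ C → ∀ w ∈ W, act F ρ δ w = w)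
    {d : G} (hd : d ∈ D') (hdI : d ∈ I) {c : F} (hc : ∀ w ∈ W, act F ρ d w = c • w)
    (hdist : ∀ k : ℕ, 0 < k → ∀ v, act F ρ (d ^ k) v - c ^ k • v ∈ W → v ∈ W) :
    ∀ δ ∈ D, ∀ w ∈ W, act F ρ δ w ∈ W := by
  intro δ hδ w hw
  have hd'I : δ⁻¹ * d * δ ∈ I := hI δ hδ d hdI
  obtain ⟨m, hm0, hm⟩ := exists_pow_mem hRf hR (hID hd'I)
  have hpow : ∀ k : ℕ, ∀ w ∈ W, act F ρ (d ^ k) w = c ^ k • w := by
    intro k
    induction k with
    | zero =>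
      intro w _
      rw [pow_zero, pow_zero, one_smul, act_one]
    | succ k ih =>
      intro w hw
      rw [pow_succ, act_mul, hc w hw, map_smul, ih w hw, smul_smul, pow_succ, mul_comm]
  have e1 : (δ⁻¹ * d * δ) ^ m = δ⁻¹ * d ^ m * δ := by
    have := conj_pow (a := δ⁻¹) (b := d) (i := m)
    rwa [inv_inv] at this
  have hdm : d ^ m ∈ D' := pow_mem hd m
  have hdmI : d ^ m ∈ I := pow_mem hdI m
  set f := (δ⁻¹ * d ^ m * δ) * (d ^ m)⁻¹ with hf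
  have hfD' : f ∈ D' := by
    rw [hf, ← e1]
    exact mul_mem hm (inv_mem hdm)
  have hfI : f ∈ I := mul_mem (hI δ hδ _ hdmI) (inv_mem hdmI)
  have hfC : f ∈ C := hC δ hδ _ hdmI
  have h1 : act F ρ (δ⁻¹ * d ^ m * δ) w = c ^ m • w := by
    have e2 : δ⁻¹ * d ^ m * δ = f * d ^ m := by rw [hf, inv_mul_cancel_right]
    rw [e2, act_mul, hpow m w hw, map_smul, hcyc f hfD' hfI hfC w hw]
  refine hdist m hm0 (act F ρ δ w) ?_
  have e3 : act F ρ (d ^ m) (act F ρ δ w) = c ^ m • act F ρ δ w := by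
    rw [← act_mul]
    have e4 : d ^ m * δ = δ * (δ⁻¹ * d ^ m * δ) := by group
    rw [e4, act_mul, h1, map_smul]
  rw [e3, sub_self]
  exact W.zero_mem

end abs

variable {p : ℕ} [hp : Fact p.Prime]
variable {A : Type*} [CommRing A] [IsLocalRing A] [IsNoetherianRing A] [TopologicalSpace A] {n : ℕ}
variable {F : Type*} [Field F] [Algebra A F] [IsFractionRing A F]

/-- **The ordinary case.** -/
theorem ord_stable (ι₀ : QB →ₐ[ℚ] PadicAlgCl p) {H : Subgroup GQ} {ρ : H →* GL (Fin n) A}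
    {D' : Subgroup H} (happ : ∀ (m : ℕ) (g : H), ∃ δ ∈ (Dp ι₀).subgroupOf H, δ⁻¹ * g ∈ cong ρ m)
    {R : Set H} (hRf : R.Finite) (hR : ∀ δ : H, (δ : GQ) ∈ Dp ι₀ → ∃ r ∈ R, r⁻¹ * δ ∈ D')
    {W : Submodule F (Fin n → F)}
    (hcyc : ∀ δ ∈ D', (δ : GQ) ∈ IQ ι₀ → (∀ (k : ℕ) (z : QB), z ^ p ^ k = 1 → (δ : GQ) z = z) →
      ∀ w ∈ W, act F ρ δ w = w)
    {d : H} (hd : d ∈ D') (hdI : (d : GQ) ∈ IQ ι₀) {c : F} (hc : ∀ w ∈ W, act F ρ d w = c • w)
    (hdist : ∀ k : ℕ, 0 < k → ∀ v, act F ρ (d ^ k) v - c ^ k • v ∈ W → v ∈ W) (g : H) (w : Fin n → F)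
    (hw : w ∈ W) : act F ρ g w ∈ W := by
  refine stable_of_dense happ W (fun δ hδ w hw => ?_) g w hw
  refine ord_any (D := (Dp ι₀).subgroupOf H) (D' := D') (I := (Ip ι₀).subgroupOf H)
    (C := (Cp p).subgroupOf H) hRf (fun δ hδ => hR δ hδ) ?_ ?_ ?_ ?_ hd hdI hc hdist δ hδ w hw
  · intro σ hσ
    exact Ip_le ι₀ hσ
  · intro δ hδ d hd
    exact Ip_conj hδ hd
  · intro δ _ d _
    exact comm_mem_Cp (δ : GQ) (d : GQ)
  · intro δ hδ hI hC
    exact hcyc δ hδ hI hC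

end Pool.Agent.K9h38.RP
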