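import Pool.Agent.K9h38.RP.GLoc
import Pool.Agent.K9h38.RP.Loc

/-!
# Local `p`-th powers in a number field with exactly one prime ideal above `p`
-/

set_option autoImplicit false
set_option linter.unusedSectionVars false

namespace Pool.Agent.K9h38.RP

open NumberField Pool.Agent.Y715.Nr Pool.Agent.W237.RK Pool.Agent.W292.FM

section uniq

variable {K : Type*} [Field K] [NumberField K] {p : ℕ} [hp : Fact p.Prime]

variable (K p) in
/-- exactly one prime ideal contains `p` -/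
def Uq : Prop := ∀ P Q : Ideal (𝓞 K), P.IsPrime → Q.IsPrime → (p : 𝓞 K) ∈ P → (p : 𝓞 K) ∈ Q → P = Q

lemma span_eq_pow (hU : Uq K p) (φ : K →+* PadicAlgCl p) {y : 𝓞 K} {k : ℕ} (hy : y ∣ (p : 𝓞 K) ^ k) :
    Ideal.span {y} = pr φ ^ od (pr φ) y := by
  have hp0 : (p : 𝓞 K) ≠ 0 := Nat.cast_ne_zero.2 hp.out.ne_zero
  have hy0 : y ≠ 0 := by
    rintro rfl
    exact pow_ne_zero k hp0 (zero_dvd_iff.1 hy)
  obtain ⟨J, hJ, hPJ⟩ := od_spec (pr_ne_bot φ) hy0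
  have hJt : J = ⊤ := by
    by_contra hne
    obtain ⟨Q, hQ, hJQ⟩ := Ideal.exists_le_maximal J hne
    have h1 : (p : 𝓞 K) ^ k ∈ Q := by
      apply hJQ
      have h2 : Ideal.span {y} ≤ J := by
        rw [hJ]
        exact Ideal.mul_le_right (I := pr φ ^ od (pr φ) y) (J := J)
      obtain ⟨c, hc⟩ := hy
      rw [hc]
      exact Ideal.mul_mem_right _ _ (h2 (Ideal.mem_span_singleton_self y))
    have h3 : Q = pr φ := hU _ _ hQ.isPrime inferInstance (hQ.isPrime.mem_of_pow_mem k h1) (ell_mem φ)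
    exact hPJ (Ideal.dvd_iff_le.2 (h3 ▸ hJQ))
  rw [hJt, Ideal.mul_top] at hJ
  exact hJ

lemma exists_gam (φ : K →+* PadicAlgCl p) : ∃ (n : ℕ) (γ : 𝓞 K), n ≠ 0 ∧ pr φ ^ n = Ideal.span {γ} ∧
    0 < ‖ev φ γ‖ ∧ ‖ev φ γ‖ < 1 := by
  obtain ⟨γ, hγ⟩ := pow_principal (pr φ) (pr_ne_bot φ)
  have hn0 : classNumber K ≠ 0 := classNumber_ne_zero K
  have hγm : γ ∈ pr φ := by
    have : γ ∈ pr φ ^ classNumber K := by rw [hγ]; exact Ideal.mem_span_singleton_self _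
    exact Ideal.pow_le_self hn0 this
  have hγ0 : γ ≠ 0 := by
    rintro rfl
    rw [Ideal.span_singleton_eq_bot.2 (rfl : (0 : 𝓞 K) = 0)] at hγ
    exact pow_ne_zero _ (show pr φ ≠ 0 from pr_ne_bot φ) hγ
  exact ⟨_, γ, hn0, hγ, norm_pos_iff.2 ((map_ne_zero_iff _ (ev_inj φ)).2 hγ0), hγm⟩

lemma dvd_of_norm_le (hU : Uq K p) (φ : K →+* PadicAlgCl p) {x y : 𝓞 K} {k : ℕ}
    (hy : y ∣ (p : 𝓞 K) ^ k) (h : ‖ev φ x‖ ≤ ‖ev φ y‖) : y ∣ x := by
  have hp0 : (p : 𝓞 K) ≠ 0 := Nat.cast_ne_zero.2 hp.out.ne_zero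
  by_cases hx : x = 0
  · rw [hx]
    exact dvd_zero y
  have hy0 : y ≠ 0 := by
    rintro rfl
    exact pow_ne_zero k hp0 (zero_dvd_iff.1 hy)
  obtain ⟨n, γ, hn0, hγ, hg0, hg1⟩ := exists_gam φ
  have h1 := norm_pow_od φ hγ hx
  have h2 := norm_pow_od φ hγ hy0
  have h3 : ‖ev φ γ‖ ^ od (pr φ) x ≤ ‖ev φ γ‖ ^ od (pr φ) y := by
    rw [← h1, ← h2]
    exact pow_le_pow_left₀ (norm_nonneg _) h n
  have h4 : od (pr φ) y ≤ od (pr φ) x := (pow_le_pow_iff_right_of_lt_one₀ hg0 hg1).1 h3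
  obtain ⟨J, hJ, -⟩ := od_spec (pr_ne_bot φ) hx
  have h5 : Ideal.span {y} ∣ Ideal.span {x} := by
    rw [span_eq_pow hU φ hy, hJ]
    exact (pow_dvd_pow _ h4).mul_right _
  rw [Ideal.dvd_span_singleton, Ideal.mem_span_singleton] at h5
  exact h5

variable {ζ : K} (hζ : IsPrimitiveRoot ζ p)

lemma pi_dvd_p : hζ.toInteger - 1 ∣ (p : 𝓞 K) := by
  have hpr : IsPrimitiveRoot hζ.toInteger p := hζ.toInteger_isPrimitiveRoot
  have h1 : ∑ i ∈ Finset.range p, hζ.toInteger ^ i = 0 := hpr.geom_sum_eq_zero hp.out.one_lt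
  have e : (p : 𝓞 K) = -∑ i ∈ Finset.range p, (hζ.toInteger ^ i - 1) := by
    rw [Finset.sum_sub_distrib, h1, Finset.sum_const, Finset.card_range]
    simp
  rw [e, dvd_neg]
  refine Finset.dvd_sum fun i _ => ?_
  have := sub_dvd_pow_sub_pow hζ.toInteger 1 i
  rwa [one_pow] at this

lemma ev_pi' {ℓ : ℕ} [Fact ℓ.Prime] (φ : K →+* PadicAlgCl ℓ) : ev φ (hζ.toInteger - 1) = φ ζ - 1 := by
  rw [map_sub, map_one, ev_apply]
  rfl

lemma norm_p (φ : K →+* PadicAlgCl p) : ‖ev φ (p : 𝓞 K)‖ = (p : ℝ)⁻¹ := by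
  rw [map_natCast, norm_ell]

lemma norm_int_le_one' (n : ℤ) : ‖(n : PadicAlgCl p)‖ ≤ 1 := by
  have h := PadicAlgCl.norm_extends p (n : ℚ_[p])
  rw [map_intCast] at h
  rw [h]
  exact Padic.norm_int_le_one _

/-- approximation by integers -/
theorem approx_int (hU : Uq K p) {φ : K →+* PadicAlgCl p} {s : PadicAlgCl p} (hF : Fx φ s)
    (hs : ‖s‖ ≤ 1) : ∃ w : 𝓞 K, ‖s - ev φ w‖ ≤ (p : ℝ)⁻¹ := by
  have hp0 : (0 : ℝ) < p := by exact_mod_cast hp.out.pos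
  have hpi : (p : ℝ)⁻¹ ≤ 1 := inv_le_one_of_one_le₀ (by exact_mod_cast hp.out.one_le)
  obtain ⟨a, ha⟩ := approx hF (inv_pos.2 hp0)
  have ha1 : ‖φ a‖ ≤ 1 := by
    have e : φ a = s + -(s - φ a) := by ring
    rw [e]
    refine (IsUltrametricDist.norm_add_le_max _ _).trans (max_le hs ?_)
    rw [norm_neg]
    exact ha.le.trans hpi
  -- the denominator
  obtain ⟨d, hd0, hd⟩ : ∃ d : ℕ, d ≠ 0 ∧ IsIntegral ℤ ((d : K) * a) := by
    have halg : IsAlgebraic ℤ a :=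
      (IsFractionRing.isAlgebraic_iff ℤ ℚ K).2 (Algebra.IsAlgebraic.isAlgebraic a)
    obtain ⟨y, hy, hya⟩ := halg.exists_integral_multiple
    refine ⟨y.natAbs, Int.natAbs_ne_zero.2 hy, ?_⟩
    rw [zsmul_eq_mul] at hya
    rcases Int.natAbs_eq y with h | h
    · rw [h] at hya
      simpa using hya
    · rw [h] at hya
      push_cast at hya
      have := hya.neg
      rw [neg_mul, neg_neg] at this
      simpa using this
  obtain ⟨e, d', hd', hde⟩ := Nat.exists_eq_pow_mul_and_not_dvd hd0 p hp.out.ne_one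
  set x₀ : 𝓞 K := ⟨(d : K) * a, hd⟩ with hx₀
  have hx₀φ : ev φ x₀ = (d : PadicAlgCl p) * φ a := by
    rw [ev_apply, hx₀]
    show φ ((d : K) * a) = _
    rw [map_mul, map_natCast]
  have h1 : (p : 𝓞 K) ^ e ∣ x₀ := by
    refine dvd_of_norm_le hU φ (k := e) dvd_rfl ?_
    rw [hx₀φ, hde]
    push_cast
    rw [norm_mul, norm_mul, map_pow, map_natCast]
    have h2 : ‖(d' : PadicAlgCl p)‖ ≤ 1 := by
      have := norm_int_le_one' (p := p) (d' : ℤ)
      simpa using this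
    calc ‖(p : PadicAlgCl p) ^ e‖ * ‖(d' : PadicAlgCl p)‖ * ‖φ a‖ ≤ ‖(p : PadicAlgCl p) ^ e‖ * 1 * 1 := by
          gcongr
      _ = _ := by ring
  obtain ⟨x₁, hx₁⟩ := h1
  have hx₁φ : ev φ x₁ = (d' : PadicAlgCl p) * φ a := by
    have h2 := congrArg (ev φ) hx₁
    rw [hx₀φ, map_mul, map_pow, map_natCast, hde] at h2
    push_cast at h2
    have hpe : (p : PadicAlgCl p) ^ e ≠ 0 := pow_ne_zero _ (Nat.cast_ne_zero.2 hp.out.ne_zero)
    exact mul_left_cancel₀ hpe (by rw [← h2]; ring)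
  have hcop : IsCoprime (d' : ℤ) (p : ℤ) :=
    (Nat.isCoprime_iff_coprime.2 ((Nat.Prime.coprime_iff_not_dvd hp.out).2 hd')).symm
  obtain ⟨u, v, huv⟩ := hcop
  refine ⟨(u : 𝓞 K) * x₁, ?_⟩
  have h3 : s - ev φ ((u : 𝓞 K) * x₁) = (s - φ a) + ((v : PadicAlgCl p) * p) * φ a := by
    rw [map_mul, map_intCast, hx₁φ]
    have h4 : (u : PadicAlgCl p) * d' + v * p = 1 := by exact_mod_cast congrArg (Int.cast : ℤ → PadicAlgCl p) huv
    linear_combination (-φ a) * h4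
  rw [h3]
  refine (IsUltrametricDist.norm_add_le_max _ _).trans (max_le ha.le ?_)
  rw [norm_mul, norm_mul, norm_ell]
  calc ‖(v : PadicAlgCl p)‖ * (p : ℝ)⁻¹ * ‖φ a‖ ≤ 1 * (p : ℝ)⁻¹ * 1 := by
        gcongr
        exact norm_int_le_one' v
    _ = (p : ℝ)⁻¹ := by ring

/-- **Local `p`-th powers.** -/
theorem loc_pow_gen (hU : Uq K p) (φ : K →+* PadicAlgCl p) {x : 𝓞 K} {s : PadicAlgCl p}
    (hs : s ^ p = ev φ x) (hF : Fx φ s) : ∃ w : 𝓞 K, (hζ.toInteger - 1) ^ p ∣ x - w ^ p := by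
  have hpr : IsPrimitiveRoot (φ ζ) p := hζ.map_of_injective φ.injective
  have hc0 := pi_pos hpr
  have hc1 := pi_lt hpr
  have hs1 : ‖s‖ ≤ 1 := by
    have h1 : ‖s‖ ^ p ≤ 1 := by
      rw [← norm_pow, hs]
      exact emb_le φ x
    by_contra hcon
    push Not at hcon
    exact absurd h1 (not_le.2 (one_lt_pow₀ hcon hp.out.ne_zero))
  obtain ⟨w, hw⟩ := approx_int hU hF hs1
  have hw' : ‖s - ev φ w‖ ≤ ‖φ ζ - 1‖ := by
    refine hw.trans ?_
    rw [← pi_pow hpr]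
    have hpe : 1 ≤ p - 1 := by have := hp.out.two_le; omega
    calc ‖φ ζ - 1‖ ^ (p - 1) ≤ ‖φ ζ - 1‖ ^ 1 := pow_le_pow_of_le_one hc0.le hc1.le hpe
      _ = _ := pow_one _
  refine ⟨w, dvd_of_norm_le hU φ (k := p) (pow_dvd_pow_of_dvd (pi_dvd_p hζ) p) ?_⟩
  have hnn : ‖ev φ w‖ ≤ 1 := emb_le φ w
  have e : ev φ (x - w ^ p) = s ^ p - (ev φ w) ^ p := by
    rw [map_sub, map_pow, hs]
  rw [e, map_pow, ev_pi', hpr.pow_sub_pow_eq_prod_sub_mul s (ev φ w) hp.out.pos, norm_prod, norm_pow]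
  have hle : ∀ μ ∈ Polynomial.nthRootsFinset p (1 : PadicAlgCl p), ‖s - μ * ev φ w‖ ≤ ‖φ ζ - 1‖ := by
    intro μ hμ
    have hμ1 : μ ^ p = 1 := (Polynomial.mem_nthRootsFinset hp.out.pos _).1 hμ
    have hμ2 : ‖μ - 1‖ ≤ ‖φ ζ - 1‖ := by
      by_cases h1 : μ = 1
      · rw [h1, sub_self, norm_zero]
        exact hc0.le
      · have h2 : IsPrimitiveRoot μ p := by
          have h3 := IsPrimitiveRoot.orderOf μ
          rwa [orderOf_eq_prime hμ1 h1] at h3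
        exact (norm_sub_one_eq hp.out.ne_zero h2 hpr).le
    have e2 : s - μ * ev φ w = (s - ev φ w) + -((μ - 1) * ev φ w) := by ring
    rw [e2]
    refine (IsUltrametricDist.norm_add_le_max _ _).trans (max_le hw' ?_)
    rw [norm_neg, norm_mul]
    exact (mul_le_of_le_one_right (norm_nonneg _) hnn).trans hμ2
  refine (Finset.prod_le_prod (fun _ _ => norm_nonneg _) hle).trans ?_
  rw [Finset.prod_const, hpr.card_nthRootsFinset]

end uniq

section nrm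

variable {K : Type*} [Field K] [NumberField K] {p : ℕ} [hp : Fact p.Prime]

lemma prod_diff {ι : Type*} (s : Finset ι) (f g : ι → PadicAlgCl p) {δ : ℝ} (hδ : 0 ≤ δ)
    (hf : ∀ i ∈ s, ‖f i‖ ≤ 1) (hg : ∀ i ∈ s, ‖g i‖ ≤ 1) (h : ∀ i ∈ s, ‖f i - g i‖ ≤ δ) :
    ‖∏ i ∈ s, f i - ∏ i ∈ s, g i‖ ≤ δ := by
  classical
  induction s using Finset.induction_on with
  | empty => simpa using hδ
  | insert i s hi ih =>
    rw [Finset.prod_insert hi, Finset.prod_insert hi]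
    have e : f i * ∏ j ∈ s, f j - g i * ∏ j ∈ s, g j =
        f i * (∏ j ∈ s, f j - ∏ j ∈ s, g j) + (f i - g i) * ∏ j ∈ s, g j := by ring
    rw [e]
    have h1 := ih (fun j hj => hf j (Finset.mem_insert_of_mem hj))
      (fun j hj => hg j (Finset.mem_insert_of_mem hj)) (fun j hj => h j (Finset.mem_insert_of_mem hj))
    have h2 : ‖∏ j ∈ s, g j‖ ≤ 1 := by
      rw [norm_prod]
      exact Finset.prod_le_one (fun _ _ => norm_nonneg _)
        (fun j hj => hg j (Finset.mem_insert_of_mem hj))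
    refine (IsUltrametricDist.norm_add_le_max _ _).trans (max_le ?_ ?_)
    · rw [norm_mul]
      calc ‖f i‖ * ‖∏ j ∈ s, f j - ∏ j ∈ s, g j‖ ≤ 1 * δ := by
            gcongr
            exact hf i (Finset.mem_insert_self _ _)
        _ = δ := one_mul _
    · rw [norm_mul]
      calc ‖f i - g i‖ * ‖∏ j ∈ s, g j‖ ≤ δ * 1 := by
            gcongr
            exact h i (Finset.mem_insert_self _ _)
        _ = δ := mul_one _

variable {ζ : K} (hζ : IsPrimitiveRoot ζ p)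

/-- the norm of integers congruent modulo `(ζ - 1) ^ p` -/
theorem norm_congr {x y : 𝓞 K} (h : (hζ.toInteger - 1) ^ p ∣ x - y) :
    (p : ℤ) ^ 2 ∣ Algebra.norm ℤ x - Algebra.norm ℤ y := by
  classical
  have hp0 : (0 : ℝ) < p := by exact_mod_cast hp.out.pos
  have hprod : ∀ z : 𝓞 K, ((Algebra.norm ℤ z : ℤ) : PadicAlgCl p) =
      ∏ σ : K →ₐ[ℚ] PadicAlgCl p, σ (z : K) := by
    intro z
    rw [← Algebra.norm_eq_prod_embeddings ℚ (PadicAlgCl p) (z : K), ← Algebra.coe_norm_int]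
    simp
  obtain ⟨c, hc⟩ := h
  -- the bound
  obtain ⟨φ⟩ : Nonempty (K →ₐ[ℚ] PadicAlgCl p) := ⟨IsAlgClosed.lift⟩
  have hpr : IsPrimitiveRoot (φ ζ) p := hζ.map_of_injective φ.injective
  have hc0 := pi_pos hpr
  have hc1 := pi_lt hpr
  set δ := ‖φ ζ - 1‖ ^ p with hδ
  have h1 : ‖((Algebra.norm ℤ x : ℤ) : PadicAlgCl p) - ((Algebra.norm ℤ y : ℤ) : PadicAlgCl p)‖ ≤ δ := by
    rw [hprod, hprod]
    refine prod_diff _ _ _ (by positivity) (fun σ _ => ?_) (fun σ _ => ?_) (fun σ _ => ?_)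
    · exact emb_le (σ : K →+* PadicAlgCl p) x
    · exact emb_le (σ : K →+* PadicAlgCl p) y
    · have e : σ (x : K) - σ (y : K) = ev (σ : K →+* PadicAlgCl p) ((hζ.toInteger - 1) ^ p * c) := by
        rw [← hc, map_sub]
        rfl
      rw [e, map_mul, map_pow, ev_pi', norm_mul, norm_pow]
      have h2 : ‖(σ : K →+* PadicAlgCl p) ζ - 1‖ = ‖φ ζ - 1‖ :=
        norm_sub_one_eq hp.out.ne_zero (hζ.map_of_injective (σ : K →+* PadicAlgCl p).injective) hpr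
      rw [h2]
      exact mul_le_of_le_one_right (by positivity) (emb_le _ c)
  have h2 : δ < (p : ℝ)⁻¹ := by
    rw [hδ, ← pi_pow hpr]
    exact pow_lt_pow_right_of_lt_one₀ hc0 hc1 (Nat.sub_lt hp.out.pos one_pos)
  have h3 : ‖((Algebra.norm ℤ x - Algebra.norm ℤ y : ℤ) : ℚ_[p])‖ < (p : ℝ) ^ ((-2 : ℤ) + 1) := by
    have h := PadicAlgCl.norm_extends p ((Algebra.norm ℤ x - Algebra.norm ℤ y : ℤ) : ℚ_[p])
    rw [map_intCast] at h
    have e : (p : ℝ) ^ ((-2 : ℤ) + 1) = (p : ℝ)⁻¹ := by norm_num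
    rw [← h, e]
    push_cast
    exact h1.trans_lt h2
  have h4 := (Padic.norm_le_pow_iff_norm_lt_pow_add_one _ _).2 h3
  exact (Padic.norm_int_le_pow_iff_dvd _ 2).1 (by exact_mod_cast h4)

lemma euler_sq {B : ℤ} (hB : ¬ (p : ℤ) ∣ B) : ((B : ZMod (p ^ 2))) ^ (p * (p - 1)) = 1 := by
  have hpp : Prime (p : ℤ) := Nat.prime_iff_prime_int.1 hp.out
  have hcop : IsCoprime ((p ^ 2 : ℕ) : ℤ) B := by
    push_cast
    exact ((hpp.coprime_iff_not_dvd.2 hB)).pow_left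
  have hu : IsUnit (B : ZMod (p ^ 2)) := (ZMod.coe_int_isUnit_iff_isCoprime B (p ^ 2)).2 hcop
  obtain ⟨v, hv⟩ := hu
  have h4 := ZMod.pow_totient v
  rw [Nat.totient_prime_pow hp.out (by norm_num)] at h4
  have h5 : (v : ZMod (p ^ 2)) ^ (p ^ (2 - 1) * (p - 1)) = 1 := by
    rw [← Units.val_pow_eq_pow_val, h4, Units.val_one]
  rw [← hv]
  simpa using h5

/-- **The norm argument.** -/
theorem dvd_exp_gen {β : 𝓞 K} (hβp : ¬ (p : ℤ) ∣ Algebra.norm ℤ β)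
    (hβ : ((Algebra.norm ℤ β : ℤ) : ZMod (p ^ 2)) ^ (2 * (p - 1)) ≠ 1) {b : ℕ} {u : (𝓞 K)ˣ} {w : 𝓞 K}
    (h : (hζ.toInteger - 1) ^ p ∣ β ^ b * u - w ^ p) : p ∣ b := by
  have h1 := norm_congr hζ h
  set B := Algebra.norm ℤ β with hB
  set N := Algebra.norm ℤ (u : 𝓞 K) with hN
  set M := Algebra.norm ℤ w with hM
  have hN2 : N ^ 2 = 1 := by
    have h2 : IsUnit N := (Units.isUnit u).map (Algebra.norm ℤ)
    rcases Int.isUnit_iff.1 h2 with h3 | h3 <;> rw [h3] <;> norm_num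
  rw [map_mul, map_pow, map_pow, ← hB, ← hN, ← hM] at h1
  have hpp : Prime (p : ℤ) := Nat.prime_iff_prime_int.1 hp.out
  have hMp : ¬ (p : ℤ) ∣ M := by
    intro h3
    have h4 : (p : ℤ) ∣ B ^ b * N := by
      have h5 : (p : ℤ) ∣ M ^ p := dvd_pow h3 hp.out.ne_zero
      have h6 := (dvd_pow_self (p : ℤ) two_ne_zero).trans h1
      have h7 := dvd_add h6 h5
      rwa [sub_add_cancel] at h7
    rcases hpp.dvd_or_dvd h4 with h5 | h5
    · exact hβp (hpp.dvd_of_dvd_pow h5)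
    · have h6 : (p : ℤ) ∣ 1 := by
        rw [← hN2]
        exact dvd_pow h5 two_ne_zero
      exact hpp.not_dvd_one h6
  have h3 := euler_sq hMp
  have h3' := euler_sq hβp
  have h4 : ((B : ZMod (p ^ 2)) ^ (2 * (p - 1))) ^ b = 1 := by
    have h5 : (((B ^ b * N - M ^ p : ℤ)) : ZMod (p ^ 2)) = 0 := by
      rw [ZMod.intCast_zmod_eq_zero_iff_dvd]
      push_cast
      exact h1
    push_cast at h5
    rw [sub_eq_zero] at h5
    have h6 := congrArg (fun z => z ^ (2 * (p - 1))) h5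
    simp only [mul_pow] at h6
    have h7 : ((N : ZMod (p ^ 2))) ^ (2 * (p - 1)) = 1 := by
      rw [pow_mul, ← Int.cast_pow, hN2, Int.cast_one, one_pow]
    have h8 : ((M : ZMod (p ^ 2)) ^ p) ^ (2 * (p - 1)) = 1 := by
      rw [← pow_mul, show p * (2 * (p - 1)) = (p * (p - 1)) * 2 by ring, pow_mul, h3, one_pow]
    rw [h7, h8, mul_one, ← pow_mul] at h6
    rw [← h6, ← pow_mul]
    congr 1
    ring
  have ho : orderOf ((B : ZMod (p ^ 2)) ^ (2 * (p - 1))) = p := by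
    apply orderOf_eq_prime
    · rw [← pow_mul, show 2 * (p - 1) * p = (p * (p - 1)) * 2 by ring, pow_mul, h3', one_pow]
    · exact hβ
  have h5 := orderOf_dvd_of_pow_eq_one h4
  rwa [ho] at h5

include hζ in
/-- the norm of a prime ideal which does not contain `p` is `1` modulo `p` -/
lemma norm_mod {Q : Ideal (𝓞 K)} (hQ : Q.IsPrime) (hQb : Q ≠ ⊥) (hpQ : (p : 𝓞 K) ∉ Q) :
    (Ideal.absNorm Q : ZMod p) = 1 := by
  have hQm : Q.IsMaximal := hQ.isMaximal hQb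
  let _ : Field (𝓞 K ⧸ Q) := Ideal.Quotient.field Q
  have hcard : Nat.card (𝓞 K ⧸ Q) = Ideal.absNorm Q := rfl
  have hne : Ideal.absNorm Q ≠ 0 := by
    rw [Ne, Ideal.absNorm_eq_zero_iff]
    exact hQb
  have hfin : Finite (𝓞 K ⧸ Q) := Nat.finite_of_card_ne_zero (by rw [hcard]; exact hne)
  have hz1 : (Ideal.Quotient.mk Q hζ.toInteger) ^ p = 1 := by
    rw [← map_pow, hζ.toInteger_isPrimitiveRoot.pow_eq_one, map_one]
  have hzne : Ideal.Quotient.mk Q hζ.toInteger ≠ 1 := by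
    intro h
    rw [← map_one (Ideal.Quotient.mk Q), Ideal.Quotient.eq] at h
    obtain ⟨c, hc⟩ := pi_dvd_p hζ
    exact hpQ (by rw [hc]; exact Ideal.mul_mem_right _ _ h)
  have hzu : IsUnit (Ideal.Quotient.mk Q hζ.toInteger) :=
    IsUnit.of_pow_eq_one hz1 hp.out.ne_zero
  obtain ⟨v, hv⟩ := hzu
  have hvo : orderOf v = p := by
    apply orderOf_eq_prime
    · apply Units.ext
      rw [Units.val_pow_eq_pow_val, hv, hz1, Units.val_one]
    · intro h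
      rw [h, Units.val_one] at hv
      exact hzne hv.symm
  have h1 : p ∣ Nat.card (𝓞 K ⧸ Q)ˣ := by
    rw [← hvo]
    exact orderOf_dvd_natCard v
  rw [Nat.card_units, hcard] at h1
  have h2 : ((Ideal.absNorm Q - 1 : ℕ) : ZMod p) = 0 := (ZMod.natCast_eq_zero_iff _ _).2 h1
  rw [Nat.cast_sub (by omega), Nat.cast_one, sub_eq_zero] at h2
  exact h2

lemma pow_ne_one_of {N h : ℕ} (hp2 : 2 < p) (hh : h.Coprime p) (hN : (N : ZMod p) = 1)
    (hN2 : (N : ZMod (p ^ 2)) ≠ 1) {B : ℤ} (hB : B.natAbs = N ^ h) :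
    ¬ (p : ℤ) ∣ B ∧ (B : ZMod (p ^ 2)) ^ (2 * (p - 1)) ≠ 1 := by
  have hp1 := hp.out.one_lt
  have hpN : (p : ℤ) ∣ (N : ℤ) - 1 := by
    rw [← ZMod.intCast_zmod_eq_zero_iff_dvd]
    push_cast
    rw [hN, sub_self]
  have hpN' : ¬ p ∣ N := by
    intro h
    rw [(ZMod.natCast_eq_zero_iff N p).2 h] at hN
    have : Fact (1 < p) := ⟨hp1⟩
    exact zero_ne_one hN
  refine ⟨fun h1 => ?_, fun h1 => ?_⟩
  · rw [← Int.dvd_natAbs, hB] at h1
    have h2 : p ∣ N ^ h := by exact_mod_cast h1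
    exact hpN' (hp.out.dvd_of_dvd_pow h2)
  · have h2 : (N : ZMod (p ^ 2)) ^ p = 1 := by
      have h3 : (p : ℤ) ^ 2 ∣ (N : ℤ) ^ p - 1 := by
        have e : (N : ℤ) ^ p - 1 = ((N : ℤ) - 1) * ∑ i ∈ Finset.range p, (N : ℤ) ^ i := by
          rw [mul_geom_sum]
        rw [e, pow_two]
        refine mul_dvd_mul hpN ?_
        have e2 : ∑ i ∈ Finset.range p, (N : ℤ) ^ i =
            p + ∑ i ∈ Finset.range p, ((N : ℤ) ^ i - 1) := by
          rw [Finset.sum_sub_distrib, Finset.sum_const, Finset.card_range]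
          simp
        rw [e2]
        refine dvd_add dvd_rfl (Finset.dvd_sum fun i _ => ?_)
        have := sub_dvd_pow_sub_pow (N : ℤ) 1 i
        rw [one_pow] at this
        exact hpN.trans this
      have h4 : (((N : ℤ) ^ p - 1 : ℤ) : ZMod (p ^ 2)) = 0 := by
        rw [ZMod.intCast_zmod_eq_zero_iff_dvd]
        push_cast
        exact h3
      push_cast at h4
      exact sub_eq_zero.1 h4
    have ho : orderOf (N : ZMod (p ^ 2)) = p := orderOf_eq_prime h2 hN2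
    have h3 : (B : ZMod (p ^ 2)) ^ 2 = ((N : ZMod (p ^ 2)) ^ h) ^ 2 := by
      have h4 : B ^ 2 = ((N : ℤ) ^ h) ^ 2 := by
        rw [← Int.natAbs_sq B, hB]
        push_cast
        rfl
      have h5 := congrArg (Int.cast : ℤ → ZMod (p ^ 2)) h4
      push_cast at h5
      exact h5
    rw [pow_mul, h3, ← pow_mul, ← pow_mul] at h1
    have h4 := orderOf_dvd_of_pow_eq_one h1
    rw [ho] at h4
    rcases (Nat.Prime.dvd_mul hp.out).1 h4 with h5 | h5
    · exact (Nat.Prime.coprime_iff_not_dvd hp.out).1 hh.symm h5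
    · rcases (Nat.Prime.dvd_mul hp.out).1 h5 with h6 | h6
      · exact absurd (Nat.le_of_dvd (by norm_num) h6) (by omega)
      · exact absurd (Nat.le_of_dvd (by omega) h6) (by omega)

end nrm

end Pool.Agent.K9h38.RP
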