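import Pool.Agent.K9h38.RP.GMain

/-!
# Two-dimensional representations: the dihedral case and the ordinary case
-/

set_option autoImplicit false
set_option linter.unusedSectionVars false

namespace Pool.Agent.K9h38.RP

open Pool.Agent.N817 Pool.Agent.Z384
open Pool.Agent.Y715.Red Pool.Agent.Y715.Nr Pool.Agent.W237.RK
open Pool.Agent.Y715.Gi (QB)
open IsLocalRing Matrix NumberField

section inertia

variable {p : ℕ} [hp : Fact p.Prime]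

/-- the inertia group in the absolute Galois group of `ℚ` -/
def Ip (ι : QB →ₐ[ℚ] PadicAlgCl p) : Subgroup GQ where
  carrier := IQ ι
  mul_mem' := by
    rintro σ σ' ⟨τ, h, hi⟩ ⟨τ', h', hi'⟩
    refine ⟨τ * τ', fun x => ?_, fun z hz => ?_⟩
    · rw [AlgEquiv.mul_apply, AlgEquiv.mul_apply, h', h]
    · have e : (τ * τ') z - z = (τ (τ' z) - τ' z) + (τ' z - z) := by
        rw [AlgEquiv.mul_apply]
        ring
      rw [e]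
      exact (IsUltrametricDist.norm_add_le_max _ _).trans_lt
        (max_lt (hi _ (by rw [nrm]; exact hz)) (hi' z hz))
  one_mem' := ⟨1, fun _ => rfl, fun z _ => by
    rw [AlgEquiv.one_apply, sub_self, norm_zero]
    exact one_pos⟩
  inv_mem' := by
    rintro σ ⟨τ, h, hi⟩
    refine ⟨τ⁻¹, fun x => ?_, fun z hz => ?_⟩
    · have h5 := h (σ⁻¹ x)
      rw [← AlgEquiv.mul_apply σ σ⁻¹, mul_inv_cancel, AlgEquiv.one_apply] at h5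
      rw [← h5, ← AlgEquiv.mul_apply τ⁻¹ τ, inv_mul_cancel, AlgEquiv.one_apply]
    · have h1 := hi (τ⁻¹ z) (by rw [nrm]; exact hz)
      rw [← AlgEquiv.mul_apply, mul_inv_cancel, AlgEquiv.one_apply, ← norm_neg, neg_sub] at h1
      exact h1

lemma mem_Ip {ι : QB →ₐ[ℚ] PadicAlgCl p} {σ : GQ} : σ ∈ Ip ι ↔ σ ∈ IQ ι := Iff.rfl

lemma Ip_le (ι : QB →ₐ[ℚ] PadicAlgCl p) : Ip ι ≤ Dp ι := by
  rintro σ ⟨τ, h, -⟩
  exact ⟨τ, h⟩

lemma Ip_conj {ι : QB →ₐ[ℚ] PadicAlgCl p} {δ d : GQ} (hδ : δ ∈ Dp ι) (hd : d ∈ Ip ι) :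
    δ⁻¹ * d * δ ∈ Ip ι := by
  obtain ⟨τ, h⟩ := hδ
  obtain ⟨t, ht, hi⟩ := hd
  have h' : ∀ x, τ⁻¹ (ι x) = ι (δ⁻¹ x) := by
    intro x
    have h5 := h (δ⁻¹ x)
    rw [← AlgEquiv.mul_apply δ δ⁻¹, mul_inv_cancel, AlgEquiv.one_apply] at h5
    rw [← h5, ← AlgEquiv.mul_apply τ⁻¹ τ, inv_mul_cancel, AlgEquiv.one_apply]
  refine ⟨τ⁻¹ * t * τ, fun x => ?_, fun z hz => ?_⟩
  · rw [AlgEquiv.mul_apply, AlgEquiv.mul_apply, AlgEquiv.mul_apply, AlgEquiv.mul_apply, h, ht, h']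
  · have e : (τ⁻¹ * t * τ) z - z = τ⁻¹ (t (τ z) - τ z) := by
      rw [map_sub, ← AlgEquiv.mul_apply τ⁻¹ τ, inv_mul_cancel]
      rfl
    rw [e, nrm]
    exact hi _ (by rw [nrm]; exact hz)

/-- two automorphisms commute on the roots of unity -/
lemma comm_root {m : ℕ} (hm : 0 < m) {z : QB} (hz : z ^ m = 1) (σ τ : GQ) : σ (τ z) = τ (σ z) := by
  have : NeZero m := ⟨hm.ne'⟩
  have : NeZero ((m : ℕ) : QB) := ⟨Nat.cast_ne_zero.2 hm.ne'⟩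
  obtain ⟨w, hw⟩ := HasEnoughRootsOfUnity.exists_primitiveRoot QB m
  obtain ⟨i, -, hi⟩ := hw.eq_pow_of_pow_eq_one hz
  have h1 : ∀ g : GQ, ∃ a : ℕ, g w = w ^ a := by
    intro g
    have : (g w) ^ m = 1 := by rw [← map_pow, hw.pow_eq_one, map_one]
    obtain ⟨a, -, ha⟩ := hw.eq_pow_of_pow_eq_one this
    exact ⟨a, ha.symm⟩
  obtain ⟨a, ha⟩ := h1 σ
  obtain ⟨b, hb⟩ := h1 τ
  have e : σ (τ w) = τ (σ w) := by
    rw [hb, ha, map_pow, map_pow, ha, hb, ← pow_mul, ← pow_mul, mul_comm]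
  rw [← hi, map_pow, map_pow, map_pow, map_pow, e]

variable (p) in
/-- the automorphisms which fix the roots of unity of order a power of `p` -/
def Cp : Subgroup GQ where
  carrier := {σ | ∀ (k : ℕ) (z : QB), z ^ p ^ k = 1 → σ z = z}
  mul_mem' := by
    intro σ τ hσ hτ k z hz
    rw [AlgEquiv.mul_apply, hτ k z hz, hσ k z hz]
  one_mem' := fun _ _ _ => rfl
  inv_mem' := by
    intro σ hσ k z hz
    conv_lhs => rw [← hσ k z hz]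
    rw [← AlgEquiv.mul_apply, inv_mul_cancel, AlgEquiv.one_apply]

lemma mem_Cp {σ : GQ} : σ ∈ Cp p ↔ ∀ (k : ℕ) (z : QB), z ^ p ^ k = 1 → σ z = z := Iff.rfl

lemma comm_mem_Cp (δ d : GQ) : δ⁻¹ * d * δ * d⁻¹ ∈ Cp p := by
  intro k z hz
  have hpos : 0 < p ^ k := pow_pos hp.out.pos k
  have hz' : (d⁻¹ z) ^ p ^ k = 1 := by rw [← map_pow, hz, map_one]
  rw [AlgEquiv.mul_apply, AlgEquiv.mul_apply, AlgEquiv.mul_apply, comm_root hpos hz' d δ,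
    ← AlgEquiv.mul_apply d d⁻¹, mul_inv_cancel, AlgEquiv.one_apply, ← AlgEquiv.mul_apply δ⁻¹ δ,
    inv_mul_cancel, AlgEquiv.one_apply]

end inertia

variable {E : IntermediateField ℚ QB} [NumberField E] {p : ℕ} [hp : Fact p.Prime]
variable {A : Type*} [CommRing A] [IsLocalRing A] [IsNoetherianRing A] [TopologicalSpace A]
variable {F : Type*} [Field F] [Algebra A F] [IsFractionRing A F]

/-- **The dihedral case.** -/
theorem dih_gen {H N : Subgroup GQ} (hNH : N ≤ H)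
    (hNp : ∀ g ∈ E.fixingSubgroup, ∃ k : ℕ, g ^ p ^ k ∈ N)
    (hA : IsAdic (maximalIdeal A)) (h2 : (p : A) ∈ maximalIdeal A) {ρ : H →* GL (Fin 2) A}
    (hρ : ∀ i j, Continuous fun σ => (ρ σ : Matrix (Fin 2) (Fin 2) A) i j)
    (hres : ∀ σ : H, (σ : GQ) ∈ N →
      ∃ M : ℕ, InI (maximalIdeal A) (((ρ σ : Matrix (Fin 2) (Fin 2) A) - 1) ^ M))
    {D D' : Subgroup H} (happ : ∀ (m : ℕ) (g : H), ∃ δ ∈ D, δ⁻¹ * g ∈ cong ρ m)
    {R : Set H} (hRf : R.Finite) (hR : ∀ δ ∈ D, ∃ r ∈ R, r⁻¹ * δ ∈ D') (hirr : Irr F ρ)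
    {v : Fin 2 → F} (hv : v ≠ 0) (hD' : ∀ δ ∈ D', ∃ c : F, act F ρ δ v = c • v)
    (hdist : ∃ δ ∈ D', ∀ k : ℕ, 0 < k → ∀ c : F, act F ρ (δ ^ k) v = c • v →
      c ^ 2 ≠ algebraMap A F ((ρ (δ ^ k) : Matrix (Fin 2) (Fin 2) A).det)) :
    ∃ T : Subgroup H, T.index = 2 ∧ IsOpen (T : Set H) ∧
      (2 < p → ∀ σ : H, (σ : GQ) ∈ E.fixingSubgroup → σ ∈ T) ∧
      ∀ σ ∈ T, ∃ c : F, act F ρ σ v = c • v := by
  obtain ⟨hS2, hSo⟩ := stb_index hA hρ happ hRf hR hirr hv hD' hdist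
  refine ⟨_, hS2, hSo, fun hp2 σ hσ => ?_, fun σ hσ => ?_⟩
  · refine mem_stb_of_pow hp2 hS2 fun m => ?_
    obtain ⟨k, hk⟩ := hNp σ hσ
    obtain ⟨M, hM⟩ := hres ⟨(σ : GQ) ^ p ^ k, hNH hk⟩ hk
    refine ⟨k + (M + m), ?_⟩
    have h3 := pow_mem_cong h2 ρ hM m
    have e : σ ^ p ^ (k + (M + m)) = (⟨(σ : GQ) ^ p ^ k, hNH hk⟩ : H) ^ p ^ (M + m) := by
      apply Subtype.ext
      show (σ : GQ) ^ p ^ (k + (M + m)) = ((σ : GQ) ^ p ^ k) ^ p ^ (M + m)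
      rw [← pow_mul, ← pow_add]
    rw [e]
    exact h3
  · obtain ⟨c, hc⟩ := Submodule.mem_span_singleton.1
      ((hσ v).1 (Submodule.mem_span_singleton_self v))
    exact ⟨c, hc.symm⟩

/-- **The ordinary case.** -/
theorem ord_gen (ι₀ : QB →ₐ[ℚ] PadicAlgCl p) {H : Subgroup GQ}
    (hA : IsAdic (maximalIdeal A)) {ρ : H →* GL (Fin 2) A}
    (hρ : ∀ i j, Continuous fun σ => (ρ σ : Matrix (Fin 2) (Fin 2) A) i j)
    {D' : Subgroup H} (happ : ∀ (m : ℕ) (g : H), ∃ δ ∈ (Dp ι₀).subgroupOf H, δ⁻¹ * g ∈ cong ρ m)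
    {R : Set H} (hRf : R.Finite) (hR : ∀ δ : H, (δ : GQ) ∈ Dp ι₀ → ∃ r ∈ R, r⁻¹ * δ ∈ D')
    (hirr : Irr F ρ)
    {v : Fin 2 → F} (hv : v ≠ 0) (hD' : ∀ δ ∈ D', ∃ c : F, act F ρ δ v = c • v)
    (hcyc : ∀ δ ∈ D', (δ : GQ) ∈ IQ ι₀ → (∀ (k : ℕ) (z : QB), z ^ p ^ k = 1 → (δ : GQ) z = z) →
      ∀ c : F, act F ρ δ v = c • v →
      c ^ 2 = algebraMap A F ((ρ δ : Matrix (Fin 2) (Fin 2) A).det))
    (hdist : ∃ δ ∈ D', (δ : GQ) ∈ IQ ι₀ ∧ ∀ k : ℕ, 0 < k → ∀ c : F, act F ρ (δ ^ k) v = c • v →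
      c ^ 2 ≠ algebraMap A F ((ρ (δ ^ k) : Matrix (Fin 2) (Fin 2) A).det)) : False := by
  refine not_ord hA hρ (D := (Dp ι₀).subgroupOf H) (D' := D') (I := (Ip ι₀).subgroupOf H)
    (C := (Cp p).subgroupOf H) happ hRf (fun δ hδ => hR δ hδ) hirr ?_ ?_ ?_ hv hD' ?_ ?_
  · intro σ hσ
    exact Ip_le ι₀ hσ
  · intro δ hδ d hd
    exact Ip_conj hδ hd
  · intro δ _ d _
    exact comm_mem_Cp (δ : GQ) (d : GQ)
  · intro δ hδ hI hC c hc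
    exact hcyc δ hδ hI hC c hc
  · obtain ⟨δ, h1, h2, h3⟩ := hdist
    exact ⟨δ, h1, h2, h3⟩

end Pool.Agent.K9h38.RP
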