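import Mathlib
import Pool.Agent.W292.FM.Ax

/-!
# Prime ideals of a number field and embeddings into the `ℓ`-adic numbers
-/

set_option autoImplicit false
set_option linter.unusedSectionVars false

namespace Pool.Agent.K9h38.RP

open NumberField Pool.Agent.W292.FM UniqueFactorizationMonoid
open scoped Pointwise

section emb

variable {K : Type*} [Field K] [NumberField K] {ℓ : ℕ} [hℓ : Fact ℓ.Prime]

theorem norm_le_one_int {x : PadicAlgCl ℓ} (hx : IsIntegral ℤ x) : ‖x‖ ≤ 1 := by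
  obtain ⟨P, hP, h0⟩ := hx
  by_contra hcon
  push Not at hcon
  have h1 : x ^ P.natDegree = -∑ i ∈ Finset.range P.natDegree, ((P.coeff i : ℤ) : PadicAlgCl ℓ) * x ^ i := by
    rw [Polynomial.eval₂_eq_sum_range, Finset.sum_range_succ, hP.coeff_natDegree] at h0
    simp only [eq_intCast, Int.cast_one, one_mul] at h0
    rw [eq_neg_iff_add_eq_zero, add_comm]
    exact h0
  have hd : P.natDegree ≠ 0 := by
    intro hd
    rw [hd] at h1
    simp at h1
  obtain ⟨d, hd'⟩ := Nat.exists_eq_succ_of_ne_zero hd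
  have h2 : ‖x ^ P.natDegree‖ ≤ ‖x‖ ^ d := by
    rw [h1, norm_neg]
    refine IsUltrametricDist.norm_sum_le_of_forall_le_of_nonneg (by positivity) ?_
    intro i hi
    rw [Finset.mem_range] at hi
    rw [norm_mul, norm_pow]
    have h3 : ‖((P.coeff i : ℤ) : PadicAlgCl ℓ)‖ ≤ 1 := by
      have h := PadicAlgCl.norm_extends ℓ ((P.coeff i : ℤ) : ℚ_[ℓ])
      rw [map_intCast] at h
      rw [h]
      exact Padic.norm_int_le_one _
    calc ‖((P.coeff i : ℤ) : PadicAlgCl ℓ)‖ * ‖x‖ ^ i ≤ 1 * ‖x‖ ^ d :=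
          mul_le_mul h3 (pow_le_pow_right₀ hcon.le (by omega)) (by positivity) zero_le_one
      _ = ‖x‖ ^ d := one_mul _
  rw [norm_pow, hd', Nat.succ_eq_add_one, pow_succ] at h2
  have h3 : 0 < ‖x‖ ^ d := by positivity
  nlinarith

/-- the embedding on the integers -/
noncomputable def ev (φ : K →+* PadicAlgCl ℓ) : 𝓞 K →+* PadicAlgCl ℓ := φ.comp (algebraMap (𝓞 K) K)

lemma ev_apply (φ : K →+* PadicAlgCl ℓ) (x : 𝓞 K) : ev φ x = φ x := rfl

lemma ev_inj (φ : K →+* PadicAlgCl ℓ) : Function.Injective (ev φ) :=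
  φ.injective.comp (RingOfIntegers.coe_injective)

lemma emb_le (φ : K →+* PadicAlgCl ℓ) (x : 𝓞 K) : ‖ev φ x‖ ≤ 1 :=
  norm_le_one_int ((RingOfIntegers.isIntegral x).map (ev φ).toIntAlgHom)

/-- the prime ideal given by an embedding -/
noncomputable def pr (φ : K →+* PadicAlgCl ℓ) : Ideal (𝓞 K) where
  carrier := {x | ‖ev φ x‖ < 1}
  add_mem' := by
    intro a b ha hb
    show ‖ev φ (a + b)‖ < 1
    rw [map_add]
    exact (IsUltrametricDist.norm_add_le_max _ _).trans_lt (max_lt ha hb)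
  zero_mem' := by
    show ‖ev φ 0‖ < 1
    rw [map_zero, norm_zero]
    exact one_pos
  smul_mem' := by
    intro c x hx
    show ‖ev φ (c * x)‖ < 1
    rw [map_mul, norm_mul]
    exact (mul_le_of_le_one_left (norm_nonneg _) (emb_le φ c)).trans_lt hx

lemma mem_pr {φ : K →+* PadicAlgCl ℓ} {x : 𝓞 K} : x ∈ pr φ ↔ ‖ev φ x‖ < 1 := Iff.rfl

lemma eq_one_of_not_mem {φ : K →+* PadicAlgCl ℓ} {x : 𝓞 K} (h : x ∉ pr φ) : ‖ev φ x‖ = 1 :=
  le_antisymm (emb_le φ x) (not_lt.1 h)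

instance pr_prime (φ : K →+* PadicAlgCl ℓ) : (pr φ).IsPrime := by
  constructor
  · intro h
    have h1 : (1 : 𝓞 K) ∈ pr φ := by rw [h]; trivial
    rw [mem_pr, map_one, norm_one] at h1
    exact lt_irrefl _ h1
  · intro x y hxy
    by_contra hcon
    push Not at hcon
    rw [mem_pr, map_mul, norm_mul, eq_one_of_not_mem hcon.1, eq_one_of_not_mem hcon.2,
      mul_one] at hxy
    exact lt_irrefl _ hxy

lemma norm_ell : ‖(ℓ : PadicAlgCl ℓ)‖ = (ℓ : ℝ)⁻¹ := by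
  rw [norm_natCast_alg, Padic.norm_p]

lemma ell_mem (φ : K →+* PadicAlgCl ℓ) : (ℓ : 𝓞 K) ∈ pr φ := by
  rw [mem_pr, map_natCast, norm_ell]
  exact inv_lt_one_of_one_lt₀ (by exact_mod_cast hℓ.out.one_lt)

lemma pr_ne_bot (φ : K →+* PadicAlgCl ℓ) : pr φ ≠ ⊥ := by
  intro h
  have h1 := ell_mem φ
  rw [h, Ideal.mem_bot, Nat.cast_eq_zero] at h1
  exact hℓ.out.ne_zero h1

lemma lies_of_mem {P : Ideal (𝓞 K)} [hP : P.IsPrime] (h : (ℓ : 𝓞 K) ∈ P) :
    P.LiesOver (Ideal.span {(ℓ : ℤ)}) := by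
  constructor
  have hm : (Ideal.span {(ℓ : ℤ)}).IsMaximal := by
    have h1 : Prime (ℓ : ℤ) := Nat.prime_iff_prime_int.1 hℓ.out
    exact PrincipalIdealRing.isMaximal_of_irreducible h1.irreducible
  refine hm.eq_of_le ?_ ?_
  · exact Ideal.IsPrime.ne_top inferInstance
  · rw [Ideal.span_singleton_le_iff_mem, Ideal.mem_comap]
    simpa using h

/-- **Every prime ideal of a Galois number field is given by an embedding.** -/
theorem exists_emb [IsGalois ℚ K] {P : Ideal (𝓞 K)} [hP : P.IsPrime] (h : (ℓ : 𝓞 K) ∈ P) :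
    ∃ φ : K →+* PadicAlgCl ℓ, pr φ = P := by
  obtain ⟨φ₀⟩ : Nonempty (K →+* PadicAlgCl ℓ) :=
    ⟨(IsAlgClosed.lift (R := ℚ) (S := K) (M := PadicAlgCl ℓ)).toRingHom⟩
  have h1 := lies_of_mem h
  have h2 := lies_of_mem (ell_mem φ₀)
  obtain ⟨σ, hσ⟩ := Ideal.exists_smul_eq_of_isGaloisGroup (Ideal.span {(ℓ : ℤ)}) (pr φ₀) P (K ≃ₐ[ℚ] K)
  refine ⟨φ₀.comp ((σ⁻¹ : K ≃ₐ[ℚ] K) : K →+* K), ?_⟩
  ext x
  rw [← hσ, Ideal.mem_pointwise_smul_iff_inv_smul_mem, mem_pr, mem_pr]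
  rfl

end emb

section cls

variable {K : Type*} [Field K] [NumberField K]

lemma pow_principal (I : Ideal (𝓞 K)) (hI : I ≠ ⊥) :
    ∃ γ : 𝓞 K, I ^ classNumber K = Ideal.span {γ} := by
  have h0 : I ∈ nonZeroDivisors (Ideal (𝓞 K)) := mem_nonZeroDivisors_of_ne_zero hI
  have h1 : (ClassGroup.mk0 (⟨I, h0⟩ : nonZeroDivisors (Ideal (𝓞 K)))) ^ classNumber K = 1 :=
    pow_card_eq_one
  rw [← map_pow, ClassGroup.mk0_eq_one_iff] at h1
  obtain ⟨γ, hγ⟩ := h1.principal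
  exact ⟨γ, hγ⟩

lemma principal_of_pow {p : ℕ} (hp : p ≠ 0) (hreg : (classNumber K).Coprime p) {I : Ideal (𝓞 K)}
    {x : 𝓞 K} (hx : x ≠ 0) (h : Ideal.span {x} = I ^ p) : ∃ γ : 𝓞 K, I = Ideal.span {γ} := by
  have hI : I ≠ ⊥ := by
    rintro rfl
    rw [← Ideal.zero_eq_bot, zero_pow hp, Ideal.zero_eq_bot, Ideal.span_singleton_eq_bot] at h
    exact hx h
  have h0 : I ∈ nonZeroDivisors (Ideal (𝓞 K)) := mem_nonZeroDivisors_of_ne_zero hI
  have h1 : (ClassGroup.mk0 (⟨I, h0⟩ : nonZeroDivisors (Ideal (𝓞 K)))) ^ classNumber K = 1 :=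
    pow_card_eq_one
  have h2 : (ClassGroup.mk0 (⟨I, h0⟩ : nonZeroDivisors (Ideal (𝓞 K)))) ^ p = 1 := by
    rw [← map_pow, ClassGroup.mk0_eq_one_iff]
    exact ⟨x, h.symm⟩
  have h3 := pow_gcd_eq_one.2 ⟨h1, h2⟩
  rw [hreg, pow_one, ClassGroup.mk0_eq_one_iff] at h3
  obtain ⟨γ, hγ⟩ := h3.principal
  exact ⟨γ, hγ⟩

end cls

section ord

variable {K : Type*} [Field K] [NumberField K] {ℓ : ℕ} [hℓ : Fact ℓ.Prime]

open scoped Classical in
/-- the order of `x` at the prime `P` -/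
noncomputable def od (P : Ideal (𝓞 K)) (x : 𝓞 K) : ℕ :=
  (normalizedFactors (Ideal.span {x})).count P

lemma od_spec {P : Ideal (𝓞 K)} [hP : P.IsPrime] (hPb : P ≠ ⊥) {x : 𝓞 K} (hx : x ≠ 0) :
    ∃ J : Ideal (𝓞 K), Ideal.span {x} = P ^ od P x * J ∧ ¬ P ∣ J := by
  classical
  have hx' : Ideal.span {x} ≠ 0 := by simpa using hx
  have hPp : Prime P := Ideal.prime_of_isPrime hPb hP
  have h1 : P ^ od P x ∣ Ideal.span {x} := by
    rw [pow_dvd_iff_le_emultiplicity, emultiplicity_eq_count_normalizedFactors hPp.irreducible hx',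
      normalize_eq]
    rfl
  have h2 : ¬ P ^ (od P x + 1) ∣ Ideal.span {x} := by
    rw [pow_dvd_iff_le_emultiplicity, emultiplicity_eq_count_normalizedFactors hPp.irreducible hx',
      normalize_eq]
    unfold od
    norm_cast
    omega
  obtain ⟨J, hJ⟩ := h1
  refine ⟨J, hJ, ?_⟩
  rintro ⟨J', rfl⟩
  apply h2
  rw [hJ, pow_succ, ← mul_assoc]
  exact Dvd.intro _ rfl

lemma od_eq {P : Ideal (𝓞 K)} [hP : P.IsPrime] (hPb : P ≠ ⊥) {x : 𝓞 K} (hx : x ≠ 0) {n : ℕ}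
    {J : Ideal (𝓞 K)} (h : Ideal.span {x} = P ^ n * J) (hJ : ¬ P ∣ J) : od P x = n := by
  classical
  have hx' : Ideal.span {x} ≠ 0 := by simpa using hx
  have hPp : Prime P := Ideal.prime_of_isPrime hPb hP
  unfold od
  refine count_normalizedFactors_eq hPp.irreducible (normalize_eq P) ?_ ?_
  · rw [h]
    exact Dvd.intro _ rfl
  · rw [h, pow_succ]
    intro h1
    exact hJ ((mul_dvd_mul_iff_left (pow_ne_zero n (show P ≠ 0 from hPb))).1 h1)

/-- **The order and the absolute value.** -/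
theorem norm_pow_od (φ : K →+* PadicAlgCl ℓ) {n : ℕ} {γ : 𝓞 K} (hγ : pr φ ^ n = Ideal.span {γ})
    {x : 𝓞 K} (hx : x ≠ 0) : ‖ev φ x‖ ^ n = ‖ev φ γ‖ ^ od (pr φ) x := by
  obtain ⟨J, hJ, hPJ⟩ := od_spec (pr_ne_bot φ) hx
  set k := od (pr φ) x with hk
  have hγ0 : γ ≠ 0 := by
    rintro rfl
    rw [Ideal.span_singleton_eq_bot.2 (rfl : (0 : 𝓞 K) = 0)] at hγ
    exact pow_ne_zero n (show pr φ ≠ 0 from pr_ne_bot φ) hγ
  have h1 : Ideal.span {x ^ n} = Ideal.span {γ ^ k} * J ^ n := by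
    rw [← Ideal.span_singleton_pow, hJ, mul_pow, ← pow_mul, mul_comm k n, pow_mul, hγ,
      Ideal.span_singleton_pow]
  have h2 : x ^ n ∈ Ideal.span {γ ^ k} := by
    have : Ideal.span {x ^ n} ≤ Ideal.span {γ ^ k} := by
      rw [h1]
      exact Ideal.mul_le_left (I := Ideal.span {γ ^ k}) (J := J ^ n)
    exact this (Ideal.mem_span_singleton_self _)
  obtain ⟨y, hy⟩ := Ideal.mem_span_singleton.1 h2
  have h3 : Ideal.span {y} = J ^ n := by
    rw [hy, ← Ideal.span_singleton_mul_span_singleton] at h1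
    exact mul_left_cancel₀ (by simpa using pow_ne_zero k hγ0) h1
  have h4 : y ∉ pr φ := by
    intro h5
    have h6 : pr φ ∣ J ^ n := by
      rw [← h3, Ideal.dvd_span_singleton]
      exact h5
    exact hPJ ((Ideal.prime_of_isPrime (pr_ne_bot φ) inferInstance).dvd_of_dvd_pow h6)
  have h5 := congrArg (fun z : 𝓞 K => ‖ev φ z‖) hy
  simp only [map_pow, map_mul, norm_pow, norm_mul] at h5
  rw [h5, eq_one_of_not_mem h4, mul_one]

/-- the order is divisible by `p` if the absolute value is a `p`-th power -/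
theorem dvd_od (φ : K →+* PadicAlgCl ℓ) {x : 𝓞 K} (hx : x ≠ 0) {p : ℕ} {m : ℤ}
    (h : ‖ev φ x‖ = (ℓ : ℝ) ^ (p * m)) : p ∣ od (pr φ) x := by
  obtain ⟨γ, hγ⟩ := pow_principal (pr φ) (pr_ne_bot φ)
  set n := classNumber K with hn
  have hn0 : n ≠ 0 := classNumber_ne_zero K
  have hℓ0 : (ℓ : 𝓞 K) ≠ 0 := Nat.cast_ne_zero.2 hℓ.out.ne_zero
  have h1 := norm_pow_od φ hγ hx
  have h2 := norm_pow_od φ hγ hℓ0
  have hγm : γ ∈ pr φ := by
    have : γ ∈ pr φ ^ n := by rw [hγ]; exact Ideal.mem_span_singleton_self _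
    exact Ideal.pow_le_self hn0 this
  have hγ0 : γ ≠ 0 := by
    rintro rfl
    rw [Ideal.span_singleton_eq_bot.2 (rfl : (0 : 𝓞 K) = 0)] at hγ
    exact pow_ne_zero n (show pr φ ≠ 0 from pr_ne_bot φ) hγ
  have hg1 : ‖ev φ γ‖ < 1 := hγm
  have hg0 : 0 < ‖ev φ γ‖ := by
    rw [norm_pos_iff]
    exact (map_ne_zero_iff _ (ev_inj φ)).2 hγ0
  have hℓp : (0 : ℝ) < ℓ := by exact_mod_cast hℓ.out.pos
  have h3 : (ℓ : ℝ) ^ (-(n : ℤ)) = ‖ev φ γ‖ ^ od (pr φ) (ℓ : 𝓞 K) := by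
    rw [← h2, map_natCast, norm_ell, zpow_neg, zpow_natCast, inv_pow]
  have h4 : ‖ev φ γ‖ ^ (od (pr φ) x : ℤ) = ‖ev φ γ‖ ^ (-(p * m * od (pr φ) (ℓ : 𝓞 K)) : ℤ) := by
    rw [zpow_natCast, ← h1, h, ← zpow_natCast, ← zpow_mul]
    have e : ((p : ℤ) * m * n : ℤ) = (-(n : ℤ)) * (-(p * m)) := by ring
    rw [e, zpow_mul, h3, ← zpow_natCast, ← zpow_mul]
    congr 1
    ring
  have h5 := zpow_right_injective₀ hg0 hg1.ne h4
  have h6 : (p : ℤ) ∣ (od (pr φ) x : ℤ) := by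
    rw [h5]
    exact ⟨-(m * od (pr φ) (ℓ : 𝓞 K)), by ring⟩
  exact_mod_cast h6

/-- an element whose orders are all divisible by `p` is the product of a unit and a `p`-th power -/
theorem exists_unit_mul {p : ℕ} (hp : p ≠ 0) (hreg : (classNumber K).Coprime p) {x : 𝓞 K}
    (hx : x ≠ 0)
    (h : ∀ P : Ideal (𝓞 K), P.IsPrime → P ≠ ⊥ → p ∣ od P x) :
    ∃ (u : (𝓞 K)ˣ) (γ : 𝓞 K), x = u * γ ^ p := by
  classical
  have hx' : Ideal.span {x} ≠ 0 := by simpa using hx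
  obtain ⟨s, hs⟩ := Multiset.exists_smul_of_dvd_count (normalizedFactors (Ideal.span {x})) (k := p)
    (fun P hP => by
      have hPp := prime_of_normalized_factor P hP
      have := h P (Ideal.isPrime_of_prime hPp) hPp.ne_zero
      unfold od at this
      convert this)
  have h1 : Ideal.span {x} = s.prod ^ p := by
    have h2 := prod_normalizedFactors hx'
    rw [associated_iff_eq, hs, Multiset.prod_nsmul] at h2
    exact h2.symm
  obtain ⟨γ, hγ⟩ := principal_of_pow hp hreg hx h1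
  rw [hγ, Ideal.span_singleton_pow, Ideal.span_singleton_eq_span_singleton] at h1
  obtain ⟨u, hu⟩ := h1
  refine ⟨u⁻¹, γ, ?_⟩
  rw [← hu, mul_comm x, ← mul_assoc, Units.inv_mul, one_mul]

end ord

end Pool.Agent.K9h38.RP
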